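import Pool.Agent.Helper750.CT.Defs
set_option autoImplicit false

namespace Pool.Agent.Helper750.CT

open Pool.Agent.Helper750.DC Pool.Agent.Helper446.RE Encodable Nat.Partrec

section aux

variable {α β γ : Type} [Primcodable α] [Primcodable β] [Primcodable γ]

@[fun_prop] theorem k_getD {f : α → Option β} {g : α → β} (hf : Computable f)
    (hg : Computable g) : Computable fun x => (f x).getD (g x) := Computable.option_getD hf hg

@[fun_prop] theorem k_lgetD {f : α → List ℕ} {g : α → ℕ} (hf : Computable f)
    (hg : Computable g) : Computable fun x => (f x).getD (g x) 0 :=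
  (Primrec.list_getD 0).to_comp.comp hf hg

@[fun_prop] theorem k_mod {f g : α → ℕ} (hf : Computable f) (hg : Computable g) :
    Computable fun x => f x % g x := Primrec.nat_mod.to_comp.comp hf hg

@[fun_prop] theorem k_div {f g : α → ℕ} (hf : Computable f) (hg : Computable g) :
    Computable fun x => f x / g x := Primrec.nat_div.to_comp.comp hf hg

@[fun_prop] theorem k_take {f : α → ℕ} {l : α → List β} (hf : Computable f) (hl : Computable l) :
    Computable fun x => (l x).take (f x) := Primrec.list_take.to_comp.comp hf hl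

@[fun_prop] theorem k_eq [DecidableEq β] {f g : α → β} (hf : Computable f) (hg : Computable g) :
    Computable fun x => decide (f x = g x) := cdecide (cp_eq hf hg)

@[fun_prop] theorem k_ne [DecidableEq β] {f g : α → β} (hf : Computable f) (hg : Computable g) :
    Computable fun x => decide (f x ≠ g x) := cdecide (cp_eq hf hg).not

@[fun_prop] theorem k_lt {f g : α → ℕ} (hf : Computable f) (hg : Computable g) :
    Computable fun x => decide (f x < g x) := cdecide (cp_lt hf hg)

@[fun_prop] theorem k_le {f g : α → ℕ} (hf : Computable f) (hg : Computable g) :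
    Computable fun x => decide (f x ≤ g x) := cdecide (cp_le hf hg)

@[fun_prop] theorem k_mem [DecidableEq β] {f : α → β} {l : α → List β} (hf : Computable f)
    (hl : Computable l) : Computable fun x => decide (f x ∈ l x) := cdecide (cp_mem hf hl)

@[fun_prop] theorem k_ofNatL {f : α → ℕ} (hf : Computable f) :
    Computable fun x => Denumerable.ofNat (List ℕ) (f x) := by
  have h : Computable fun x => ((decode (f x) : Option (List ℕ))).getD [] := by fun_prop
  exact h.of_eq fun x => by simp [Denumerable.decode_eq_ofNat]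

@[fun_prop] theorem k_ofNatLP {f : α → ℕ} (hf : Computable f) :
    Computable fun x => Denumerable.ofNat (List (ℕ × ℕ)) (f x) := by
  have h : Computable fun x => ((decode (f x) : Option (List (ℕ × ℕ)))).getD [] := by fun_prop
  exact h.of_eq fun x => by simp [Denumerable.decode_eq_ofNat]

@[fun_prop] theorem k_ofNatLL {f : α → ℕ} (hf : Computable f) :
    Computable fun x => Denumerable.ofNat (List (ℕ × List ℕ)) (f x) := by
  have h : Computable fun x => ((decode (f x) : Option (List (ℕ × List ℕ)))).getD [] := by
    fun_prop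
  exact h.of_eq fun x => by simp [Denumerable.decode_eq_ofNat]

theorem k_map {l : α → List β} {g : α → β → γ} (hl : Computable l)
    (hg : Computable fun p : α × β => g p.1 p.2) : Computable fun x => (l x).map (g x) := by
  have h1 : Computable fun x : α × (List γ × β) => g x.1 x.2.2 :=
    hg.comp (g := fun x : α × (List γ × β) => (x.1, x.2.2)) (by fun_prop)
  have h2 : Computable₂ fun (a : α) (p : List γ × β) => p.1 ++ [g a p.2] :=
    cappend (f := fun x : α × (List γ × β) => x.2.1) (g := fun x => [g x.1 x.2.2]) (by fun_prop)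
      (ccons h1 (cconst []))
  have h := list_foldl (f := l) (g := fun _ => ([] : List γ)) hl (Computable.const _) h2
  refine h.of_eq fun a => ?_
  have h3 : ∀ (l : List β) (s : List γ),
      l.foldl (fun s b => s ++ [g a b]) s = s ++ l.map (g a) := by
    intro l
    induction l with
    | nil => intro s; simp
    | cons b l ih => intro s; simp [ih]
  simpa using h3 (l a) []

theorem k_all {q : α → ℕ → Bool} (hq : Computable fun p : α × ℕ => q p.1 p.2) {f : α → ℕ}
    (hf : Computable f) : Computable fun a => allB (q a) (f a) := computable_allB hq hf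

theorem k_ex {q : α → ℕ → Bool} (hq : Computable fun p : α × ℕ => q p.1 p.2) {f : α → ℕ}
    (hf : Computable f) : Computable fun a => exB (q a) (f a) := computable_exB hq hf

@[fun_prop] theorem k_nodup [DecidableEq β] {l : α → List β} (hl : Computable l) :
    Computable fun x => decide (l x).Nodup := by
  have h1 : Computable fun x => allB (fun i => allB
      (fun j => decide ((l x)[j]? ≠ (l x)[i]?)) i) (l x).length := by
    refine k_all (q := fun x i => allB (fun j => decide ((l x)[j]? ≠ (l x)[i]?)) i) ?_
      (by fun_prop)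
    refine k_all (α := α × ℕ) (q := fun p j => decide ((l p.1)[j]? ≠ (l p.1)[p.2]?)) ?_
      (by fun_prop)
    fun_prop
  refine h1.of_eq fun x => ?_
  rw [Bool.eq_iff_iff, decide_eq_true_iff, List.nodup_iff_getElem?_ne_getElem?, allB_iff]
  constructor
  · intro h i j hij hj
    have h2 := (allB_iff _ _).1 (h j hj) i hij
    simpa using h2
  · intro h i hi
    rw [allB_iff]
    intro j hj
    simpa using h j i hj hi

@[fun_prop] theorem k_mx {l : α → List ℕ} (hl : Computable l) :
    Computable fun x => mx (l x) := by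
  have h : Primrec mx :=
    (Primrec.list_foldr (f := fun l : List ℕ => l) (g := fun _ => 0)
      (h := fun _ (p : ℕ × ℕ) => max p.1 p.2) Primrec.id (Primrec.const 0)
      (Primrec.nat_max.comp (Primrec.fst.comp Primrec.snd) (Primrec.snd.comp Primrec.snd)).to₂)
  exact h.to_comp.comp hl

@[fun_prop] theorem k_bit {n : α → ℕ} {l : α → List ℕ} (hn : Computable n) (hl : Computable l) :
    Computable fun x => bit (n x) (l x) := by
  have h1 : Computable fun x => (l x).map fun z => if z = mx (l x) then 0 else z + 1 := by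
    refine k_map (g := fun x z => if z = mx (l x) then 0 else z + 1) hl ?_
    refine cite (p := fun p : α × ℕ => p.2 = mx (l p.1)) (cp_eq ?_ ?_) ?_ ?_ <;> fun_prop
  unfold bit
  exact cdecide (cp_mem (cpair hn h1) (k_ofNatLL (cfst (cunpair (k_mx hl)))))

theorem k_evr {p : α → ℕ → ℕ → Bool} (hp : Computable fun a : α × (ℕ × ℕ) => p a.1 a.2.1 a.2.2)
    {n m : α → ℕ} (hn : Computable n) (hm : Computable m) :
    Computable fun x => evr (p x) (n x) (m x) := by
  unfold evr
  refine k_ex (q := fun x i => p x (n x) i) ?_ (by fun_prop)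
  exact hp.comp (g := fun y : α × ℕ => (y.1, (n y.1, y.2))) (by fun_prop)

end aux

theorem MR_comp {α : Type} [Primcodable α] {p : α → ℕ → ℕ → Bool} {r : ℕ → ℕ} {n : α → ℕ}
    {xs : α → List ℕ} (hp : Computable fun a : α × (ℕ × ℕ) => p a.1 a.2.1 a.2.2)
    (hr : Computable r) (hn : Computable n) (hxs : Computable xs) :
    Computable fun a => MR (p a) r (n a) (xs a) := by
  unfold MR
  have h1 : Computable fun a => p a (n a) (mx (xs a)) :=
    hp.comp (g := fun a => (a, (n a, mx (xs a)))) (by fun_prop)
  have h2 : Computable fun a => evr (p a) (n a) (mx ((xs a).take (r (n a)))) :=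
    k_evr hp hn (by fun_prop)
  have h3 : Computable fun a => evr (p a) (n a) (mx (xs a)) := k_evr hp hn (by fun_prop)
  refine cand (by fun_prop) (ccond h1 (cand h2 (by fun_prop)) (cand h3 (by fun_prop)))

theorem MS_comp (p : ℕ → ℕ → Bool) (r : ℕ → ℕ) (hp : Computable₂ p) (hr : Computable r) :
    IsComputableStr LL (MS p r) := by
  constructor
  · refine ⟨fun x => MR p r x.1 x.2, ?_, fun i xs _ => Iff.rfl⟩
    refine MR_comp (α := ℕ × List ℕ) (p := fun _ => p) ?_ hr (by fun_prop) (by fun_prop)
    exact hp.comp (by fun_prop) (by fun_prop)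
  · refine ⟨fun _ => 0, Computable.const 0, fun i xs h => ?_⟩
    exact absurd h (by simp [LL])

section aux2

variable {α : Type} [Primcodable α]

@[fun_prop] theorem k_outs {h : α → Hist} {u : α → ℕ} (hh : Computable h) (hu : Computable u) :
    Computable fun x => outs (h x) (u x) := by
  unfold outs
  fun_prop

@[fun_prop] theorem k_vis {δ ρ : α → List ℕ} (hδ : Computable δ) (hρ : Computable ρ) :
    Computable fun x => vis (δ x) (ρ x) := by
  unfold vis
  fun_prop

@[fun_prop] theorem k_lft {δ ρ : α → List ℕ} (hδ : Computable δ) (hρ : Computable ρ) :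
    Computable fun x => lft (δ x) (ρ x) := by
  unfold lft
  refine k_ex (q := fun x i => decide (i < (δ x).length) &&
    (decide ((δ x).take i = (ρ x).take i) && decide ((δ x).getD i 0 < (ρ x).getD i 0))) ?_
    (by fun_prop)
  fun_prop

end aux2

theorem lk_comp : Computable fun x : (Hist × List ℕ) × ℕ => lk x.1.1 x.1.2 x.2 := by
  have h := Computable.nat_rec (α := (Hist × List ℕ) × ℕ) (σ := V) (f := fun x => x.2)
    (g := fun _ => dflt)
    (h := fun x (y : ℕ × V) => bif vis (outs x.1.1 y.1) x.1.2 then
        ((((x.1.1[y.1]?).getD [])[x.1.2.length]?).getD (0, dflt)).2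
      else bif lft (outs x.1.1 y.1) x.1.2 then dflt else y.2) (by fun_prop) (by fun_prop)
    (by unfold Computable₂; fun_prop)
  refine h.of_eq ?_
  rintro ⟨⟨h, ρ⟩, u⟩
  induction u with
  | zero => rfl
  | succ u ih =>
    simp only at ih ⊢
    rw [lk, ← ih]

theorem ar_comp : Computable ar := by
  unfold ar
  fun_prop

section aux3

variable {α : Type} [Primcodable α]

@[fun_prop] theorem k_lk {h : α → Hist} {ρ : α → List ℕ} {u : α → ℕ} (hh : Computable h)
    (hρ : Computable ρ) (hu : Computable u) : Computable fun x => lk (h x) (ρ x) (u x) :=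
  lk_comp.comp (g := fun x => ((h x, ρ x), u x)) (by fun_prop)

@[fun_prop] theorem k_own {n : α → ℕ} (hn : Computable n) : Computable fun x => own (n x) := by
  unfold own
  fun_prop

@[fun_prop] theorem k_sl {v : α → V} (hv : Computable v) : Computable fun x => sl (v x) := by
  unfold sl
  fun_prop

@[fun_prop] theorem k_nn {γ : α → List ℕ} {s : α → ℕ} (hγ : Computable γ) (hs : Computable s) :
    Computable fun x => nn (γ x) (s x) := by
  unfold nn
  fun_prop

theorem k_cnt0 (ev : ℕ → ℕ → Bool) (hev : Computable₂ ev) :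
    Computable fun x : ℕ × ℕ => cnt ev x.1 x.2 := by
  have h1 : Computable fun x : (ℕ × ℕ) × (ℕ × ℕ) => ev x.1.1 x.2.1 :=
    hev.comp (by fun_prop) (by fun_prop)
  have h := Computable.nat_rec (α := ℕ × ℕ) (σ := ℕ) (f := fun x => x.2)
    (g := fun _ => 0)
    (h := fun x (y : ℕ × ℕ) => y.2 + (bif ev x.1 y.1 then 1 else 0)) (by fun_prop) (by fun_prop)
    (by
      unfold Computable₂
      exact cadd (by fun_prop) (ccond h1 (by fun_prop) (by fun_prop)))
  refine h.of_eq ?_
  rintro ⟨k, s⟩
  induction s with
  | zero => rfl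
  | succ s ih =>
    simp only at ih ⊢
    rw [cnt, ← ih]

theorem k_cnt {ev : ℕ → ℕ → Bool} (hev : Computable₂ ev) {k s : α → ℕ} (hk : Computable k)
    (hs : Computable s) : Computable fun x => cnt ev (k x) (s x) :=
  (k_cnt0 ev hev).comp (g := fun x => (k x, s x)) (by fun_prop)

theorem k_ph {ev : ℕ → ℕ → Bool} (hev : Computable₂ ev) {h : α → Hist} {n u : α → ℕ}
    (hh : Computable h) (hn : Computable n) (hu : Computable u) :
    Computable fun x => ph ev (h x) (n x) (u x) := by
  unfold ph
  have h1 : Computable fun x => cnt ev ((own (n x)).length / 2) (u x) :=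
    k_cnt hev (by fun_prop) hu
  fun_prop

@[fun_prop] theorem k_bd {L k : α → ℕ} (hL : Computable L) (hk : Computable k) :
    Computable fun x => bd (L x) (k x) := by
  have h := Computable.nat_rec (α := α) (σ := ℕ) (f := k)
    (g := fun _ => 1) (h := fun x (y : ℕ × ℕ) => Nat.pair (L x) y.2 + 2) hk (by fun_prop)
    (by unfold Computable₂; fun_prop)
  refine h.of_eq fun x => ?_
  generalize k x = m
  induction m with
  | zero => rfl
  | succ m ih =>
    simp only at ih ⊢
    rw [bd, ← ih]

theorem k_chk1 {p : α → ℕ → ℕ → Bool}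
    (hp : Computable fun a : α × (ℕ × ℕ) => p a.1 a.2.1 a.2.2) {e s : α → ℕ}
    {f : α → List (ℕ × ℕ)} {I : α → List ℕ} (he : Computable e) (hs : Computable s)
    (hf : Computable f) (hI : Computable I) :
    Computable fun x => chk1 (p x) (e x) (s x) (f x) (I x) := by
  have h1 : Computable fun x => (I x).map fun i => (((f x)[i]?).getD (0, 0)).2 :=
    k_map (g := fun x i => (((f x)[i]?).getD (0, 0)).2) hI (by fun_prop)
  have h2 : Computable fun x => (I x).map fun i => (((f x)[i]?).getD (0, 0)).1 :=
    k_map (g := fun x i => (((f x)[i]?).getD (0, 0)).1) hI (by fun_prop)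
  have h3 : Computable fun x => MR (p x) ar (I x).length
      ((I x).map fun i => (((f x)[i]?).getD (0, 0)).1) :=
    MR_comp hp ar_comp (by fun_prop) h2
  have h4 : Computable fun x : (ℕ × Code) × ℕ => (Code.evaln x.1.1 x.1.2 x.2) :=
    Code.primrec_evaln.to_comp
  have h5 : Computable fun x => Denumerable.ofNat Code (e x) := (Computable.ofNat Code).comp he
  have h6 : Computable fun x => Code.evaln (s x) (Denumerable.ofNat Code (e x))
      (encode ((I x).length, (I x).map fun i => (((f x)[i]?).getD (0, 0)).2)) :=
    h4.comp ((hs.pair h5).pair (cencode (cpair (by fun_prop) h1)))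
  unfold chk1
  exact k_eq h6 (csome (cencode h3))

theorem k_chk {p : α → ℕ → ℕ → Bool}
    (hp : Computable fun a : α × (ℕ × ℕ) => p a.1 a.2.1 a.2.2) {e s : α → ℕ}
    {f : α → List (ℕ × ℕ)} (he : Computable e) (hs : Computable s)
    (hf : Computable f) : Computable fun x => chk (p x) (e x) (s x) (f x) := by
  unfold chk
  refine k_all (q := fun x z => !(decide (Denumerable.ofNat (List ℕ) z).Nodup &&
      decide (∀ i ∈ Denumerable.ofNat (List ℕ) z, i < (f x).length)) ||
    chk1 (p x) (e x) (s x) (f x) (Denumerable.ofNat (List ℕ) z)) ?_ (by fun_prop)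
  have h1 : Computable fun y : α × ℕ => chk1 (p y.1) (e y.1) (s y.1) (f y.1)
      (Denumerable.ofNat (List ℕ) y.2) := by
    refine k_chk1 (α := α × ℕ) (p := fun y => p y.1) ?_ (by fun_prop) (by fun_prop)
      (by fun_prop) (by fun_prop)
    exact hp.comp (g := fun z : (α × ℕ) × (ℕ × ℕ) => (z.1.1, z.2)) (by fun_prop)
  have h2 : Computable fun y : α × ℕ =>
      decide (∀ i ∈ Denumerable.ofNat (List ℕ) y.2, i < (f y.1).length) := by
    apply cdecide
    refine cp_of_re ?_ ?_
    · exact all_mem (p := fun (y : α × ℕ) i => i < (f y.1).length)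
        (lt (by fun_prop) (by fun_prop)) (by fun_prop)
    · have h3 := ex_mem (p := fun (y : α × ℕ) i => (f y.1).length ≤ i)
        (l := fun y => Denumerable.ofNat (List ℕ) y.2)
        (le (by fun_prop) (by fun_prop)) (by fun_prop)
      refine h3.of_eq fun y => ?_
      push Not
      rfl
  exact cor (cnot (cand (by fun_prop) h2)) h1

theorem k_good {p : α → ℕ → ℕ → Bool}
    (hp : Computable fun a : α × (ℕ × ℕ) => p a.1 a.2.1 a.2.2) {e s : α → ℕ} {v : α → V}
    {f : α → List (ℕ × ℕ)} (he : Computable e) (hs : Computable s) (hv : Computable v)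
    (hf : Computable f) : Computable fun x => good (p x) (e x) (s x) (v x) (f x) := by
  have h1 := k_chk hp he hs hf
  unfold good
  fun_prop

theorem k_mu {q : α → ℕ → Bool} (hq : Computable fun p : α × ℕ => q p.1 p.2) {f : α → ℕ}
    (hf : Computable f) : Computable fun a => mu (q a) (f a) := by
  have h1 : Computable fun z : α × (ℕ × ℕ) => exB (q z.1) z.2.1 :=
    k_ex (α := α × (ℕ × ℕ)) (q := fun z => q z.1)
      (hq.comp (g := fun w : (α × (ℕ × ℕ)) × ℕ => (w.1.1, w.2)) (by fun_prop)) (by fun_prop)
  have h := Computable.nat_rec (α := α) (σ := ℕ) (f := f)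
    (g := fun _ => 0) (h := fun x (y : ℕ × ℕ) => bif exB (q x) y.1 then y.2 else y.1) hf
    (by fun_prop) (by unfold Computable₂; fun_prop)
  refine h.of_eq fun x => ?_
  generalize f x = m
  induction m with
  | zero => rfl
  | succ m ih =>
    simp only at ih ⊢
    rw [mu, ← ih]

@[fun_prop] theorem k_ready {h : α → Hist} {s n : α → ℕ} {ρ : α → List ℕ} (hh : Computable h)
    (hs : Computable s) (hρ : Computable ρ) (hn : Computable n) :
    Computable fun x => ready (h x) (s x) (ρ x) (n x) := by
  unfold ready
  refine k_all (q := fun x i => !(decide (i % 2 = 0) && decide ((ρ x).getD i 0 = 0)) ||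
    decide (n x ≤ (lk (h x) ((ρ x).take i) (s x)).2.length)) ?_ (by fun_prop)
  fun_prop

theorem k_stepI {ev : ℕ → ℕ → Bool} (hev : Computable₂ ev) {h : α → Hist} {s e : α → ℕ}
    {v : α → V} (hh : Computable h) (hs : Computable s) (he : Computable e) (hv : Computable v) :
    Computable fun x => stepI ev (h x) (s x) (e x) (v x) := by
  have h1 : Computable fun z : α × ℕ => good (ph ev (h z.1)) (e z.1) (s z.1) (v z.1)
      (Denumerable.ofNat (List (ℕ × ℕ)) z.2) := by
    refine k_good (α := α × ℕ) (p := fun z => ph ev (h z.1)) ?_ (by fun_prop) (by fun_prop)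
      (by fun_prop) (by fun_prop)
    exact k_ph hev (by fun_prop) (by fun_prop) (by fun_prop)
  have h2 : Computable fun x => exB (fun z => good (ph ev (h x)) (e x) (s x) (v x)
      (Denumerable.ofNat (List (ℕ × ℕ)) z)) (s x) :=
    k_ex (q := fun x z => good (ph ev (h x)) (e x) (s x) (v x)
      (Denumerable.ofNat (List (ℕ × ℕ)) z)) h1 hs
  have h3 : Computable fun x => mu (fun z => good (ph ev (h x)) (e x) (s x) (v x)
      (Denumerable.ofNat (List (ℕ × ℕ)) z)) (s x) :=
    k_mu (q := fun x z => good (ph ev (h x)) (e x) (s x) (v x)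
      (Denumerable.ofNat (List (ℕ × ℕ)) z)) h1 hs
  unfold stepI
  refine ccond (by fun_prop) (by fun_prop) (ccond h2 ?_ (by fun_prop))
  exact cpair (by fun_prop) (cpair (by fun_prop) (k_ofNatLP h3))

theorem k_stepC {ev : ℕ → ℕ → Bool} (hev : Computable₂ ev) {h : α → Hist} {s : α → ℕ}
    {ρ : α → List ℕ} {v : α → V} (hh : Computable h) (hs : Computable s) (hρ : Computable ρ)
    (hv : Computable v) : Computable fun x => stepC ev (h x) (s x) (ρ x) (v x) := by
  have h1 : Computable fun x => cnt ev ((ρ x).length / 2) (s x) := k_cnt hev (by fun_prop) hs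
  unfold stepC
  fun_prop

theorem k_stepn {ev : ℕ → ℕ → Bool} (hev : Computable₂ ev) {h : α → Hist} {s : α → ℕ}
    {ρ : α → List ℕ} (hh : Computable h) (hs : Computable s) (hρ : Computable ρ) :
    Computable fun x => stepn ev (h x) (s x) (ρ x) := by
  unfold stepn
  exact ccond (by fun_prop) (k_stepI hev hh hs (by fun_prop) (by fun_prop))
    (k_stepC hev hh hs hρ (by fun_prop))

theorem k_recs {ev : ℕ → ℕ → Bool} (hev : Computable₂ ev) {h : α → Hist} {s j : α → ℕ}
    (hh : Computable h) (hs : Computable s) (hj : Computable j) :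
    Computable fun x => recs ev (h x) (s x) (j x) := by
  have h1 : Computable fun z : α × (ℕ × Rec) => stepn ev (h z.1) (s z.1) (z.2.2.map Prod.fst) :=
    k_stepn hev (by fun_prop) (by fun_prop) (by fun_prop)
  have h := Computable.nat_rec (α := α) (σ := Rec) (f := j)
    (g := fun _ => []) (h := fun x (y : ℕ × Rec) => y.2 ++ [stepn ev (h x) (s x) (y.2.map Prod.fst)])
    hj (by fun_prop) (by
      unfold Computable₂
      exact cappend (by fun_prop) (ccons h1 (cconst [])))
  refine h.of_eq fun x => ?_
  generalize j x = m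
  induction m with
  | zero => rfl
  | succ m ih =>
    simp only at ih ⊢
    rw [recs, ← ih]

end aux3

theorem H_comp (ev : ℕ → ℕ → Bool) (hev : Computable₂ ev) : Computable (H ev) := by
  have h1 : Computable fun z : ℕ × (ℕ × Hist) => recs ev z.2.2 z.2.1 z.2.1 :=
    k_recs hev (by fun_prop) (by fun_prop) (by fun_prop)
  have h := Computable.nat_rec (α := ℕ) (σ := Hist) (f := fun s => s)
    (g := fun _ => []) (h := fun _ (y : ℕ × Hist) => y.2 ++ [recs ev y.2 y.1 y.1])
    (by fun_prop) (by fun_prop) (by
      unfold Computable₂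
      exact cappend (by fun_prop) (ccons h1 (cconst [])))
  refine h.of_eq fun m => ?_
  induction m with
  | zero => rfl
  | succ m ih =>
    simp only at ih ⊢
    rw [H, ← ih]

theorem pp_comp (ev : ℕ → ℕ → Bool) (hev : Computable₂ ev) : Computable₂ (pp ev) := by
  have h := H_comp ev hev
  unfold pp Computable₂
  exact k_ph hev (by fun_prop) (by fun_prop) (by fun_prop)

end Pool.Agent.Helper750.CT
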