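import Pool.Agent.Helper750.CT.Main
import Pool.Agent.Helper750.CT.Comp

set_option autoImplicit false

/-! Autostability. -/

namespace Pool.Agent.Helper750.CT

open Pool.Agent.Helper750.DC Pool.Agent.Helper446.RE Encodable Nat.Partrec

variable (ev : ℕ → ℕ → Bool)

/-- `e` is a code of the relations of the structure `B`. -/
def IsCode (e : ℕ) (B : Str) : Prop := ∀ xs : List ℕ, ∃ b : Bool,
  (b = true ↔ B.R xs.length xs) ∧
    (Denumerable.ofNat Code e).eval (encode (xs.length, xs)) = Part.some (encode b)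

theorem exists_code {B : Str} (hB : IsComputableStr LL B) : ∃ e, IsCode e B := by
  obtain ⟨⟨d, hd, h⟩, -⟩ := hB
  obtain ⟨c, hc⟩ := Nat.Partrec.Code.exists_code.1 hd
  refine ⟨encode c, fun xs => ⟨d (xs.length, xs), h _ _ rfl, ?_⟩⟩
  rw [Denumerable.ofNat_encode, hc]
  simp

/-- our structure -/
abbrev MM : Str := MS (pp ev) ar

theorem getD_fst {f : List (ℕ × ℕ)} (I : List ℕ) :
    (I.map fun i => ((f[i]?).getD (0, 0)).1).length = I.length := by simp

theorem chk1_eventually {B : Str} {e : ℕ} (he : IsCode e B) {f : List (ℕ × ℕ)} {I : List ℕ}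
    (h : (MM ev).R I.length (I.map fun i => ((f[i]?).getD (0, 0)).1) ↔
      B.R I.length (I.map fun i => ((f[i]?).getD (0, 0)).2)) :
    ∃ s0, ∀ s, s0 ≤ s → Chk1 ev e s f I := by
  obtain ⟨b, hb1, hb2⟩ := he (I.map fun i => ((f[i]?).getD (0, 0)).2)
  rw [List.length_map] at hb1 hb2
  have hb3 : b = MR (pp ev) ar I.length (I.map fun i => ((f[i]?).getD (0, 0)).1) := by
    rw [Bool.eq_iff_iff, hb1, ← h]
    rfl
  have h1 : encode b ∈ (Denumerable.ofNat Code e).eval
      (encode (I.length, I.map fun i => ((f[i]?).getD (0, 0)).2)) := by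
    rw [hb2]; exact Part.mem_some _
  obtain ⟨s0, hs0⟩ := Code.evaln_complete.1 h1
  refine ⟨s0, fun s hs => ?_⟩
  unfold Chk1
  rw [← hb3]
  exact Code.evaln_mono hs hs0

theorem chk1_iff {B : Str} {e : ℕ} (he : IsCode e B) {f : List (ℕ × ℕ)} {I : List ℕ} {s : ℕ}
    (h : Chk1 ev e s f I) : (MM ev).R I.length (I.map fun i => ((f[i]?).getD (0, 0)).1) ↔
      B.R I.length (I.map fun i => ((f[i]?).getD (0, 0)).2) := by
  obtain ⟨b, hb1, hb2⟩ := he (I.map fun i => ((f[i]?).getD (0, 0)).2)
  rw [List.length_map] at hb1 hb2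
  have h1 := Code.evaln_sound h
  rw [hb2, Part.mem_some_iff] at h1
  have h2 := encode_injective h1
  rw [← hb1, ← h2]
  rfl

theorem chk_eventually {B : Str} {e : ℕ} (he : IsCode e B) {f : List (ℕ × ℕ)}
    (h : QI (MM ev) B f) : ∃ s0, ∀ s, s0 ≤ s → ∀ I : List ℕ, I.Nodup →
      (∀ i ∈ I, i < f.length) → Chk1 ev e s f I := by
  have h1 : ∀ z : ℕ, ∃ s0, (Denumerable.ofNat (List ℕ) z).Nodup →
      (∀ i ∈ Denumerable.ofNat (List ℕ) z, i < f.length) → ∀ s, s0 ≤ s →
      Chk1 ev e s f (Denumerable.ofNat (List ℕ) z) := by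
    intro z
    by_cases h2 : (Denumerable.ofNat (List ℕ) z).Nodup ∧
        ∀ i ∈ Denumerable.ofNat (List ℕ) z, i < f.length
    · obtain ⟨s0, hs0⟩ := chk1_eventually ev he (h _ h2.1 h2.2)
      exact ⟨s0, fun _ _ => hs0⟩
    · exact ⟨0, fun h3 h4 => absurd ⟨h3, h4⟩ h2⟩
  choose t ht using h1
  refine ⟨(Finset.range (bd f.length f.length)).sup t, fun s hs I hI1 hI2 => ?_⟩
  have h2 := encode_lt_bd _ _ _ (nodup_length_le hI1 hI2) hI2
  have h3 := ht (encode I)
  rw [Denumerable.ofNat_encode] at h3
  exact h3 hI1 hI2 s ((Finset.le_sup (f := t) (Finset.mem_range.2 h2)).trans hs)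

theorem gen (ev : ℕ → ℕ → Bool) : IsGen (dd (pp ev) ar) (PP (pp ev) ar) (MM ev) :=
  isGen _ _ (pp_convex ev) (pp_ar ev) (pp_fin ev)

/-- A true copy is matched infinitely often. -/
theorem iso_out {η : List ℕ} (hη : η.length % 2 = 0) (h1 : InfV ev η) (h2 : FinL ev η)
    {B : Str} (he : IsCode (η.length / 2) B) {g : ℕ → ℕ} (hg : IsIso LL (MM ev) B g) :
    ∀ s0, ∃ s, s0 ≤ s ∧ vis (path ev s) η = true ∧ (path ev s).getD η.length 0 = 0 := by
  by_contra hcon
  push Not at hcon
  obtain ⟨s1, hs1⟩ := hcon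
  obtain ⟨s0, hs0⟩ := h2
  obtain ⟨s2, hs2, hv2⟩ := h1 (max s0 s1)
  have hs20 : s0 ≤ s2 := le_trans (le_max_left _ _) hs2
  have hs21 : s1 ≤ s2 := le_trans (le_max_right _ _) hs2
  -- after stage s2 the memory is constant
  have hc : (mem ev (s2 + 1) η).1.1 ≠ 0 := by
    rcases even_step ev s2 η hη with h | h | h | h | h
    · rw [h.2.2.2]; simp
    · exact absurd h.2.1 (hs1 s2 hs21 hv2)
    · rw [h.2.2.2.2]; exact h.2.2.1
    · rw [h.1] at hv2; simp at hv2
    · rw [h.1] at hv2; simp at hv2
  have hconst : ∀ s, s2 + 1 ≤ s → mem ev s η = mem ev (s2 + 1) η := by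
    intro s hs
    induction s, hs using Nat.le_induction with
    | base => rfl
    | succ s hs ih =>
      rcases even_step ev s η hη with h | h | h | h | h
      · rw [ih] at h
        exact absurd h.2.2.1 hc
      · exact absurd h.2.1 (hs1 s (by omega) h.1)
      · rw [h.2.2.2.2]; exact ih
      · have := hs0 s (by omega)
        rw [h.2.1] at this
        simp at this
      · rw [h.2.2]; exact ih
  generalize hv : mem ev (s2 + 1) η = v at *
  -- it suffices to find a candidate
  suffices hf : ∃ f : List (ℕ × ℕ), f.take v.2.length = v.2 ∧ (v.2 = [] ∨ f.length ≤ v.2.length + 2) ∧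
      v.1.1 ≤ f.length ∧ v.1.2 ∈ f.map Prod.fst ∧ v.1.2 ∈ f.map Prod.snd ∧
      (f.map Prod.fst).Nodup ∧ (f.map Prod.snd).Nodup ∧ QI (MM ev) B f by
    obtain ⟨f, f1, f2, f3, f4, f5, f6, f7, f8⟩ := hf
    obtain ⟨s3, hs3⟩ := chk_eventually ev he f8
    obtain ⟨s, hs, hvs⟩ := h1 (max (max (s2 + 1) s3) (max (mx (f.map Prod.fst) + 1) (encode f + 1)))
    have k1 : s2 + 1 ≤ s := le_trans (le_trans (le_max_left _ _) (le_max_left _ _)) hs
    have k2 : s3 ≤ s := le_trans (le_trans (le_max_right _ _) (le_max_left _ _)) hs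
    have k3 : mx (f.map Prod.fst) + 1 ≤ s :=
      le_trans (le_trans (le_max_left _ _) (le_max_right _ _)) hs
    have k4 : encode f + 1 ≤ s := le_trans (le_trans (le_max_right _ _) (le_max_right _ _)) hs
    have hms := hconst s k1
    have hgood : Good ev (η.length / 2) s (mem ev s η) f := by
      rw [hms]
      exact ⟨f1, f2, f3, f4, f5, f6, f7, by omega, hs3 s k2⟩
    rcases even_step ev s η hη with h | h | h | h | h
    · rw [hms] at h
      exact absurd h.2.2.1 hc
    · exact absurd h.2.1 (hs1 s (by omega) h.1)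
    · exact h.2.2.2.1 f (by omega) hgood
    · rw [h.1] at hvs; simp at hvs
    · rw [h.1] at hvs; simp at hvs
  by_cases hf0 : v.2 = []
  · obtain ⟨x, hx⟩ := hg.1.2 v.1.2
    have hginj := hg.1.1
    let N := max v.1.1 (max (v.1.2 + 1) (x + 1))
    have n1 : v.1.1 ≤ N := le_max_left _ _
    have n2 : v.1.2 + 1 ≤ N := le_trans (le_max_left _ _) (le_max_right _ _)
    have n3 : x + 1 ≤ N := le_trans (le_max_right _ _) (le_max_right _ _)
    have m1 : ((List.range N).map fun a => (a, g a)).map Prod.fst = List.range N := by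
      rw [List.map_map]; exact List.map_id _
    have m2 : ((List.range N).map fun a => (a, g a)).map Prod.snd = (List.range N).map g := by
      rw [List.map_map]; rfl
    refine ⟨(List.range N).map fun a => (a, g a), ?_, Or.inl hf0, ?_, ?_, ?_, ?_, ?_, ?_⟩
    · rw [hf0]; simp
    · simpa using n1
    · rw [m1, List.mem_range]; omega
    · rw [m2, List.mem_map]; exact ⟨x, List.mem_range.2 (by omega), hx⟩
    · rw [m1]; exact List.nodup_range
    · rw [m2]; exact List.nodup_range.map hginj
    · intro I hI1 hI2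
      simp only [List.length_map, List.length_range] at hI2
      have e1 : (I.map fun i => ((((List.range N).map fun a => (a, g a))[i]?).getD (0, 0)).1) =
          I := by
        conv_rhs => rw [← List.map_id I]
        refine List.map_congr_left fun i hi => ?_
        rw [List.getElem?_map, List.getElem?_range (hI2 i hi)]
        rfl
      have e2 : (I.map fun i => ((((List.range N).map fun a => (a, g a))[i]?).getD (0, 0)).2) =
          I.map g := by
        refine List.map_congr_left fun i hi => ?_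
        rw [List.getElem?_map, List.getElem?_range (hI2 i hi)]
        rfl
      rw [e1, e2]
      exact hg.2.1 I.length I rfl
  · have hinv := inv ev (s2 + 1) η hη
    rw [hv] at hinv
    obtain ⟨h3, h4, s', h5⟩ := hinv.lt hf0
    have hQI : QI (MM ev) B v.2 := fun I hI1 hI2 => chk1_iff ev he (h5 I hI1 hI2)
    obtain ⟨f, f1, f2, f3, f4, f5, f6, f7⟩ := QI_ext _ _ _ B (gen ev) g hg v.2 hf0 hinv.nod1
      hinv.nod2 hQI (by
        intro n m hn1 hn2 hdn
        by_contra hmn
        have hp : ∃ t, ∀ u, t ≤ u → pp ev n u = true := by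
          unfold dd at hdn
          split_ifs at hdn with h6 h7
          · exact h7
          · simp only [Option.some.injEq] at hdn
            exact absurd hdn.symm hmn
        exact no_perm ev hη h1 hs0 (S := s2 + 1) (by omega) v.2 hf0
          (fun s hs => by rw [hconst s hs]) (fun s hs => by rw [hconst s hs]; exact hc) hp hn1 hn2)
      v.1.2
    refine ⟨f, f1, Or.inr f2, ?_, f3, f4, f5, f6, f7⟩
    have : v.2.length ≤ f.length := by
      conv_lhs => rw [← f1]
      rw [List.length_take]
      exact min_le_right _ _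
    omega

/-- The number of requests that have been satisfied tends to infinity. -/
theorem grow {η : List ℕ} (hη : η.length % 2 = 0) (h2 : FinL ev η)
    (h3 : ∀ s0, ∃ s, s0 ≤ s ∧ vis (path ev s) η = true ∧ (path ev s).getD η.length 0 = 0) :
    ∀ N, ∃ s0, ∀ s, s0 ≤ s → N ≤ (mem ev s η).1.2 ∧ lft (path ev s) η = false := by
  obtain ⟨s1, hs1⟩ := h2
  intro N
  induction N with
  | zero => exact ⟨s1, fun s hs => ⟨Nat.zero_le _, hs1 s hs⟩⟩
  | succ N ih =>
    obtain ⟨s2, hs2⟩ := ih
    obtain ⟨s3, hs3, hv, ho⟩ := h3 s2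
    have h4 : N + 1 ≤ (mem ev (s3 + 1) η).1.2 := by
      rcases even_step ev s3 η hη with h | ⟨h5, h6, h7, f, h8, h9⟩ | h | h | h
      · rw [ho] at h; simp at h
      · rw [h9]
        have := (hs2 s3 hs3).1
        change N + 1 ≤ (mem ev s3 η).1.2 + 1
        omega
      · rw [ho] at h; simp at h
      · rw [h.1] at hv; simp at hv
      · rw [h.1] at hv; simp at hv
    refine ⟨s3 + 1, fun s hs => ⟨h4.trans ?_, (hs2 s (by omega)).2⟩⟩
    exact (even_grow ev hη hs fun t h5 _ => (hs2 t (by omega)).2).2.1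

theorem length_of_req {η : List ℕ} (hη : η.length % 2 = 0) (s : ℕ) :
    (mem ev s η).1.2 ≤ (mem ev s η).2.length := by
  have h := inv ev s η hη
  have h1 : Finset.range (mem ev s η).1.2 ⊆ ((mem ev s η).2.map Prod.fst).toFinset := by
    intro x hx
    rw [List.mem_toFinset]
    exact (h.req x (Finset.mem_range.1 hx)).1
  have h2 := Finset.card_le_card h1
  rw [Finset.card_range] at h2
  exact h2.trans ((List.toFinset_card_le _).trans (by rw [List.length_map]))

/-- If the isomorphism node is matched infinitely often then there is a computable isomorphism. -/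
theorem iso_of_out (hev : Computable₂ ev) {η : List ℕ} (hη : η.length % 2 = 0) (h2 : FinL ev η)
    (h3 : ∀ s0, ∃ s, s0 ≤ s ∧ vis (path ev s) η = true ∧ (path ev s).getD η.length 0 = 0)
    {B : Str} (he : IsCode (η.length / 2) B) (hB : ∀ xs, B.R xs.length xs → xs.Nodup) :
    ∃ F : ℕ → ℕ, Computable F ∧ IsIso LL (MM ev) B F := by
  have hgrow := grow ev hη h2 h3
  obtain ⟨s0, hs0⟩ := hgrow 0
  have hpre : ∀ s s', s0 ≤ s → s ≤ s' → (mem ev s η).2 <+: (mem ev s' η).2 := fun s s' h4 h5 =>
    (even_grow ev hη h5 fun t h6 _ => (hs0 t (by omega)).2).1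
  have hmem : ∀ s s', s0 ≤ s → s0 ≤ s' → ∀ p ∈ (mem ev s η).2, ∀ q ∈ (mem ev s' η).2,
      (p.1 = q.1 ↔ p.2 = q.2) := by
    intro s s' h4 h5 p hp q hq
    have hp' := (hpre s (max s s') h4 (le_max_left _ _)).subset hp
    have hq' := (hpre s' (max s s') h5 (le_max_right _ _)).subset hq
    have hi := inv ev (max s s') η hη
    constructor
    · intro h6
      have := List.inj_on_of_nodup_map hi.nod1 hp' hq' h6
      rw [this]
    · intro h6
      have := List.inj_on_of_nodup_map hi.nod2 hp' hq' h6
      rw [this]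
  have hdom : ∀ a, ∃ s, s0 ≤ s ∧ a ∈ (mem ev s η).2.map Prod.fst := by
    intro a
    obtain ⟨s1, hs1⟩ := hgrow (a + 1)
    refine ⟨max s0 s1, le_max_left _ _, ?_⟩
    exact ((inv ev _ η hη).req a (by have := (hs1 _ (le_max_right s0 s1)).1; omega)).1
  have hran : ∀ a, ∃ s, s0 ≤ s ∧ a ∈ (mem ev s η).2.map Prod.snd := by
    intro a
    obtain ⟨s1, hs1⟩ := hgrow (a + 1)
    refine ⟨max s0 s1, le_max_left _ _, ?_⟩
    exact ((inv ev _ η hη).req a (by have := (hs1 _ (le_max_right s0 s1)).1; omega)).2
  have hF : ∀ a, ∃ b, ∃ s, s0 ≤ s ∧ (a, b) ∈ (mem ev s η).2 := by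
    intro a
    obtain ⟨s, hs, h4⟩ := hdom a
    rw [List.mem_map] at h4
    obtain ⟨⟨a', b⟩, h5, rfl⟩ := h4
    exact ⟨b, s, hs, h5⟩
  choose F hF using hF
  have hFu : ∀ a b s, s0 ≤ s → (a, b) ∈ (mem ev s η).2 → F a = b := by
    intro a b s hs h4
    obtain ⟨s', hs', h5⟩ := hF a
    exact (hmem s' s hs' hs _ h5 _ h4).1 rfl
  refine ⟨F, ?_, ⟨?_, ?_⟩, ?_, ?_⟩
  · -- computability
    refine computable_of_graph ?_
    have hH := H_comp ev hev
    have hlk := lk_comp
    have hm : Computable fun s => (mem ev s η).2 := by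
      unfold mem
      have : Computable fun s => lk (H ev s) η s :=
        hlk.comp (g := fun s => ((H ev s, η), s)) (by fun_prop)
      exact csnd this
    have h4 : REPred fun x : ℕ × ℕ => ∃ s, s0 ≤ s ∧ x ∈ (mem ev s η).2 := by
      refine exN (p := fun (x : ℕ × ℕ) s => s0 ≤ s ∧ x ∈ (mem ev s η).2) ?_
      refine Pool.Agent.Helper446.RE.and ?_ ?_
      · exact Pool.Agent.Helper446.RE.le (Computable.const s0) Computable.snd
      · exact mem_list Computable.fst (hm.comp Computable.snd)
    refine h4.of_eq fun x => ?_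
    constructor
    · rintro ⟨s, hs, h5⟩
      exact hFu x.1 x.2 s hs h5
    · intro h5
      obtain ⟨s, hs, h6⟩ := hF x.1
      rw [h5] at h6
      exact ⟨s, hs, h6⟩
  · intro a a' haa
    obtain ⟨s, hs, h4⟩ := hF a
    obtain ⟨s', hs', h5⟩ := hF a'
    exact (hmem s s' hs hs' _ h4 _ h5).2 haa
  · intro b
    obtain ⟨s, hs, h4⟩ := hran b
    rw [List.mem_map] at h4
    obtain ⟨⟨a, b'⟩, h5, rfl⟩ := h4
    exact ⟨a, hFu a b' s hs h5⟩
  · intro n xs hn
    have hn' : n = xs.length := by
      simp only [LL, Option.some.injEq] at hn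
      exact hn
    subst hn'
    have hinj : Function.Injective F := by
      intro a a' haa
      obtain ⟨s, hs, h4⟩ := hF a
      obtain ⟨s', hs', h5⟩ := hF a'
      exact (hmem s s' hs hs' _ h4 _ h5).2 haa
    by_cases hnd : xs.Nodup
    · -- a stage containing all elements
      obtain ⟨s1, hs1⟩ := hgrow (mx xs + 1)
      let s := max s0 s1
      have hs : s0 ≤ s := le_max_left _ _
      have hi := inv ev s η hη
      have h4 : ∀ x ∈ xs, ∃ i, ∃ (h : i < (mem ev s η).2.length), (mem ev s η).2[i].1 = x := by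
        intro x hx
        have h5 := (hi.req x (by
          have := (hs1 s (le_max_right s0 s1)).1
          have := le_mx hx
          omega)).1
        rw [List.mem_map] at h5
        obtain ⟨p, hp, hpx⟩ := h5
        obtain ⟨i, hi1, hi2⟩ := List.getElem_of_mem hp
        exact ⟨i, hi1, by rw [hi2]; exact hpx⟩
      choose! idx hidx1 hidx2 using h4
      have e1 : ((xs.map idx).map fun i => (((mem ev s η).2[i]?).getD (0, 0)).1) = xs := by
        rw [List.map_map]
        conv_rhs => rw [← List.map_id xs]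
        refine List.map_congr_left fun x hx => ?_
        simp only [Function.comp, id]
        rw [List.getElem?_eq_getElem (hidx1 x hx), Option.getD_some, hidx2 x hx]
      have e2 : ((xs.map idx).map fun i => (((mem ev s η).2[i]?).getD (0, 0)).2) = xs.map F := by
        rw [List.map_map]
        refine List.map_congr_left fun x hx => ?_
        simp only [Function.comp]
        have hb : idx x < (mem ev s η).2.length := hidx1 x hx
        rw [List.getElem?_eq_getElem (hidx1 x hx), Option.getD_some]
        have h5 : (mem ev s η).2[idx x] ∈ (mem ev s η).2 := List.getElem_mem (hidx1 x hx)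
        have h6 : (x, (mem ev s η).2[idx x].2) ∈ (mem ev s η).2 := by
          have h7 : (x, (mem ev s η).2[idx x].2) = (mem ev s η).2[idx x] := by
            rw [Prod.ext_iff]
            exact ⟨(hidx2 x hx).symm, rfl⟩
          rw [h7]; exact h5
        exact (hFu _ _ s hs h6).symm
      by_cases hx0 : xs = []
      · subst hx0
        -- the empty tuple
        obtain ⟨s3, hs3⟩ := hgrow 1
        have hi3 := inv ev (max s0 s3) η hη
        have hlen := length_of_req ev hη (max s0 s3)
        have h7 := (hs3 _ (le_max_right s0 s3)).1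
        have hne : (mem ev (max s0 s3) η).2 ≠ [] := by
          intro h8
          rw [h8] at hlen
          simp only [List.length_nil] at hlen
          omega
        obtain ⟨-, -, s', h8⟩ := hi3.lt hne
        have h9 := chk1_iff ev he (h8 [] (by simp) (by simp))
        simpa using h9
      · have hne : (mem ev s η).2 ≠ [] := by
          intro h8
          obtain ⟨x, hx⟩ := List.exists_mem_of_ne_nil xs hx0
          have := hidx1 x hx
          rw [h8] at this
          simp at this
        obtain ⟨-, -, s', h8⟩ := hi.lt hne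
        have hnd2 : (xs.map idx).Nodup := by
          refine List.Nodup.of_map (fun i => (((mem ev s η).2[i]?).getD (0, 0)).1) ?_
          rw [e1]; exact hnd
        have h9 := chk1_iff ev he (h8 (xs.map idx) hnd2 (by
          intro i hi2
          rw [List.mem_map] at hi2
          obtain ⟨x, hx, rfl⟩ := hi2
          exact hidx1 x hx))
        rw [e1, e2, List.length_map] at h9
        exact h9
    · constructor
      · intro h4
        exfalso
        apply hnd
        have h5 := ((gen ev).rel xs).1 h4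
        exact h5.1
      · intro h4
        exfalso
        apply hnd
        have h5 := hB (xs.map F) (by rw [List.length_map]; exact h4)
        exact List.Nodup.of_map F h5
  · intro i xs hi
    simp [LL] at hi

/-- The structure is autostable. -/
theorem auto (hev : Computable₂ ev) (B : Str) (hB : IsComputableStr LL B) (g : ℕ → ℕ)
    (hg : IsIso LL (MM ev) B g) : ∃ F : ℕ → ℕ, Computable F ∧ IsIso LL (MM ev) B F := by
  obtain ⟨e, he⟩ := exists_code hB
  obtain ⟨T, hT0, hT⟩ := exists_tp ev
  obtain ⟨h1, h2, h3, -⟩ := hT (2 * e)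
  have hη : (T (2 * e)).length % 2 = 0 := by rw [h1]; omega
  have he' : IsCode ((T (2 * e)).length / 2) B := by
    rw [h1]
    have : 2 * e / 2 = e := by omega
    rw [this]; exact he
  refine iso_of_out ev hev hη h3 (iso_out ev hη h2 h3 he' hg) he' ?_
  intro ys hys
  obtain ⟨g', hg'⟩ := hg.1.2.hasRightInverse
  have h4 : (ys.map g').map g = ys := by
    rw [List.map_map]
    conv_rhs => rw [← List.map_id ys]
    exact List.map_congr_left fun y _ => hg' y
  have h5 := (hg.2.1 ys.length (ys.map g') (by simp [LL])).2 (by rw [h4]; exact hys)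
  have h6 := ((gen ev).rel (ys.map g')).1 (by rw [List.length_map]; exact h5)
  exact List.Nodup.of_map g' h6.1

end Pool.Agent.Helper750.CT
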