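import Pool.Agent.Helper446.Comp
import Pool.Agent.Helper743.Oracle
import Pool.Agent.Helper750.DC.Base

set_option autoImplicit false

/-!
Theories, types, and the generic structures used for the counterexample.
-/

namespace Pool.Agent.Helper750.CT

open Pool.Agent.Helper750.DC

/-- `v` occurs free in the formula. -/
def Free : Fml → ℕ → Prop
  | .rel _ vs, v => v ∈ vs
  | .fn _ vs w, v => v ∈ vs ∨ v = w
  | .eq u w, v => v = u ∨ v = w
  | .not φ, v => Free φ v
  | .and φ ψ, v => Free φ v ∨ Free ψ v
  | .ex u φ, v => Free φ v ∧ v ≠ u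

/-- The formula is a sentence. -/
def IsSent (φ : Fml) : Prop := ∀ v, ¬ Free φ v

/-- The structure `A` is a model of the theory `T`. (For a sentence the assignment is
irrelevant.) -/
def IsModel (L : Lang) (T : Set Fml) (A : Str) : Prop := ∀ φ ∈ T, Sat L A φ fun _ => 0

/-- `T` is a complete theory: a set of sentences which, for every sentence `φ`, contains exactly
one of `φ` and `¬ φ`. -/
def IsComplete (T : Set Fml) : Prop :=
  (∀ φ ∈ T, IsSent φ) ∧ ∀ φ, IsSent φ → (φ ∉ T ↔ Fml.not φ ∈ T)

/-- The set of Goedel numbers of the sentences of `T`. -/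
def codes (T : Set Fml) : Set ℕ := {n | ∃ φ ∈ T, φ.code = n}

/-- The theory of a structure. -/
def Th (L : Lang) (A : Str) : Set Fml := {φ | IsSent φ ∧ Sat L A φ fun _ => 0}

/-- The complete type of the tuple `(x 0, ..., x (n - 1))` in the structure `A`. -/
def tp (L : Lang) (A : Str) (n : ℕ) (x : ℕ → ℕ) : Set Fml :=
  {φ | (∀ v, Free φ v → v < n) ∧ Sat L A φ x}

/-- The set of all complete `n`-types of the theory `T`. (Every complete type is realized in a
countable model.) -/
def types (L : Lang) (T : Set Fml) (n : ℕ) : Set (Set Fml) :=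
  {p | ∃ A x, IsModel L T A ∧ p = tp L A n x}

/-- The type function: the number of complete `n`-types. -/
noncomputable def typeFn (L : Lang) (T : Set Fml) (n : ℕ) : ℕ := (types L T n).ncard

/-- The halting problem. -/
def K : Set ℕ := {e | ((Denumerable.ofNat Nat.Partrec.Code e).eval e).Dom}

/-! ### The language and the structures -/

/-- The language with one relation symbol `Q_n` of each arity `n`. -/
def LL : Lang := ⟨fun n => some n, fun _ => none⟩

/-- `M` is generic with data `d`, `P`: `Q_n` holds of a tuple `xs` of `n` distinct elements iff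
`d n = some m` and `P_n` holds of the first `m` elements of `xs`, and the relations `P_n` are
generic. -/
structure IsGen (d : ℕ → Option ℕ) (P : ℕ → List ℕ → Prop) (M : Str) : Prop where
  rel : ∀ xs : List ℕ, M.R xs.length xs ↔
    xs.Nodup ∧ ∃ m, d xs.length = some m ∧ P xs.length (xs.take m)
  le : ∀ n m, d n = some m → 0 < m ∧ m ≤ n
  fin : ∀ m, {n | d n = some m}.Finite
  ext : ∀ (as : List ℕ) (N : ℕ) (π : ℕ → List ℕ → Prop), as.Nodup →
    ∃ a, a ∉ as ∧ ∀ n m (I : List ℕ), n < N → d n = some m → I.length = m → I.Nodup →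
      (∀ i ∈ I, i ≤ as.length) → as.length ∈ I →
      (P n (I.map fun i => (as ++ [a]).getD i 0) ↔ π n I)

/-- The map `x v ↦ y v` (`v ∈ V`) is a partial isomorphism for equality and the relations `P_n`
with `n < N`. -/
def PI (d : ℕ → Option ℕ) (P P' : ℕ → List ℕ → Prop) (N : ℕ) (V : Finset ℕ) (x y : ℕ → ℕ) : Prop :=
  (∀ u ∈ V, ∀ v ∈ V, (x u = x v ↔ y u = y v)) ∧
  ∀ n m, n < N → d n = some m → ∀ vs : List ℕ, vs.length = m → (∀ v ∈ vs, v ∈ V) →
    (vs.map x).Nodup → (P n (vs.map x) ↔ P' n (vs.map y))

/-- A number such that all relation symbols `Q_n` in the formula have `n < symBd φ`. -/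
def symBd : Fml → ℕ
  | .rel i _ => i + 1
  | .fn _ _ _ => 0
  | .eq _ _ => 0
  | .not φ => symBd φ
  | .and φ ψ => max (symBd φ) (symBd ψ)
  | .ex _ φ => symBd φ

/-- The finite map `f` is a partial isomorphism for the relations `Q_n`. -/
def QI (M B : Str) (f : List (ℕ × ℕ)) : Prop :=
  ∀ I : List ℕ, I.Nodup → (∀ i ∈ I, i < f.length) →
    (M.R I.length (I.map fun i => ((f[i]?).getD (0, 0)).1) ↔
      B.R I.length (I.map fun i => ((f[i]?).getD (0, 0)).2))

end Pool.Agent.Helper750.CT
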