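import Pool.Agent.Helper750.CT.Auto

set_option autoImplicit false

/-! The coding of the events. -/

namespace Pool.Agent.Helper750.CT

open Pool.Agent.Helper750.DC Pool.Agent.Helper446.RE Encodable Nat.Partrec

variable (ev : ℕ → ℕ → Bool)

theorem cnt_const_of {k s : ℕ} (h : ∀ u, s ≤ u → cnt ev k u = cnt ev k s) :
    {u | ev k u = true}.Finite := by
  refine (Set.finite_lt_nat s).subset fun u hu => ?_
  by_contra hcon
  have h1 : s ≤ u := by
    simp only [Set.mem_ofPred_eq] at hcon
    omega
  have h2 := h u h1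
  have h3 := h (u + 1) (by omega)
  simp only [cnt] at h3
  rw [Set.mem_ofPred_eq] at hu
  rw [hu] at h3
  simp only [cond_true] at h3
  omega

theorem cnt_const {k : ℕ} (h : {u | ev k u = true}.Finite) :
    ∃ s, ∀ u, s ≤ u → cnt ev k u = cnt ev k s := by
  obtain ⟨b, hb⟩ := h.bddAbove
  refine ⟨b + 1, fun u hu => ?_⟩
  induction u, hu using Nat.le_induction with
  | base => rfl
  | succ u hu ih =>
    simp only [cnt]
    rw [ih]
    have : ev k u = false := by
      rw [← Bool.not_eq_true]
      intro h1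
      have : u ≤ b := hb h1
      omega
    rw [this]
    rfl

/-- If there are finitely many events then the coding node on the true path gets a permanent
slot. -/
theorem slot_of_fin {k : ℕ} (h : {u | ev k u = true}.Finite) : ∃ n,
    (∃ t, ∀ u, t ≤ u → pp ev n u = true) ∧ ar n ∈ locs k := by
  obtain ⟨T, hT0, hT⟩ := exists_tp ev
  have hTe : ∀ j, ∀ x ∈ T j, x < 3 := by
    intro j
    induction j with
    | zero => rw [hT0]; simp
    | succ j ih =>
      obtain ⟨o, ho, h1⟩ := (hT j).2.2.2
      rw [h1]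
      intro x hx
      rw [List.mem_append, List.mem_singleton] at hx
      rcases hx with hx | rfl
      · exact ih x hx
      · omega
  have hTp : ∀ i j, i ≤ j → (T j).take i = T i := by
    intro i j hij
    induction j, hij using Nat.le_induction with
    | base => exact List.take_of_length_le (by rw [(hT i).1])
    | succ j hij ih =>
      obtain ⟨o, ho, h1⟩ := (hT j).2.2.2
      rw [h1, List.take_append_of_le_length (by rw [(hT j).1]; exact hij), ih]
  obtain ⟨hlen, hinf, ⟨s0, hs0⟩, -⟩ := hT (2 * k + 1)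
  generalize hρ : T (2 * k + 1) = ρ at *
  have hodd : ρ.length % 2 = 1 := by rw [hlen]; omega
  have hk : ρ.length / 2 = k := by rw [hlen]; omega
  obtain ⟨s1, hs1⟩ := cnt_const ev h
  generalize hC : cnt ev k s1 = C at *
  -- the counter becomes correct
  have step1 : ∃ s2, ∀ s, s2 ≤ s → (mem ev s ρ).1.1 = C ∧ s0 ≤ s ∧ s1 ≤ s := by
    obtain ⟨s, hs, hv⟩ := hinf (max s0 s1)
    have ha : s0 ≤ s := le_trans (le_max_left _ _) hs
    have hb : s1 ≤ s := le_trans (le_max_right _ _) hs
    refine ⟨s + 1, fun s' hs' => ⟨?_, by omega, by omega⟩⟩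
    induction s', hs' using Nat.le_induction with
    | base =>
      rcases odd_step ev s ρ hodd with h1 | h1 | h1 | h1 | h1 | h1
      · rw [h1.2.2.2, hk]; exact hs1 s hb
      · rw [h1.2.2.2.2]
        have := h1.2.2.1
        rw [hk, hs1 s hb] at this
        exact this.symm
      · rw [h1.2.2.2.2.2.2]
        have := h1.2.2.1
        rw [hk, hs1 s hb] at this
        exact this.symm
      · rw [h1.2.2.2.2.2]
        have := h1.2.2.1
        rw [hk, hs1 s hb] at this
        exact this.symm
      · rw [h1.1] at hv; simp at hv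
      · rw [h1.1] at hv; simp at hv
    | succ s' hs' ih =>
      rcases odd_step ev s' ρ hodd with h1 | h1 | h1 | h1 | h1 | h1
      · rw [h1.2.2.2, hk]; exact hs1 s' (by omega)
      · rw [h1.2.2.2.2]; exact ih
      · rw [h1.2.2.2.2.2.2]; exact ih
      · rw [h1.2.2.2.2.2]; exact ih
      · have := hs0 s' (by omega)
        rw [h1.2.1] at this; simp at this
      · rw [h1.2.2]; exact ih
  obtain ⟨s2, hs2⟩ := step1
  -- no more outcomes 0
  have nokill : ∀ s, s2 ≤ s → ¬ (cnt ev (ρ.length / 2) s ≠ (mem ev s ρ).1.1) := by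
    intro s hs h1
    apply h1
    rw [hk, hs1 s (hs2 s hs).2.2, (hs2 s hs).1]
  -- a slot is opened
  have step2 : ∃ s3 t, s2 ≤ s3 ∧ ∀ s, s3 ≤ s → (mem ev s ρ).2 = [(nn ρ t, 0)] := by
    have h2 : ∃ s3 t, s2 ≤ s3 ∧ (mem ev s3 ρ).2 = [(nn ρ t, 0)] := by
      obtain ⟨s, hs, hv⟩ := hinf s2
      rcases (slot_form ev s ρ hodd).1 with h3 | ⟨t, h3⟩
      · rcases odd_step ev s ρ hodd with h1 | h1 | h1 | h1 | h1 | h1
        · exact absurd h1.2.2.1 (nokill s hs)
        · exact ⟨s + 1, s, by omega, by rw [h1.2.2.2.2]⟩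
        · exact absurd h3 h1.2.2.2.1
        · exact absurd h3 h1.2.2.2.1
        · rw [h1.1] at hv; simp at hv
        · rw [h1.1] at hv; simp at hv
      · exact ⟨s, t, hs, h3⟩
    obtain ⟨s3, t, h3, h4⟩ := h2
    refine ⟨s3, t, h3, fun s hs => ?_⟩
    induction s, hs using Nat.le_induction with
    | base => exact h4
    | succ s hs ih =>
      rcases odd_step ev s ρ hodd with h1 | h1 | h1 | h1 | h1 | h1
      · exact absurd h1.2.2.1 (nokill s (by omega))
      · rw [h1.2.2.2.1] at ih; simp at ih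
      · rw [h1.2.2.2.2.2.2]; exact ih
      · rw [h1.2.2.2.2.2]; exact ih
      · have := hs0 s (hs2 s (by omega)).2.1
        rw [h1.2.1] at this; simp at this
      · rw [h1.2.2]; exact ih
  obtain ⟨s3, t, hs23, hs3⟩ := step2
  have hsl : ∀ s, s3 ≤ s → sl (mem ev s ρ) = nn ρ t := by
    intro s hs
    unfold sl
    rw [hs3 s hs]
    rfl
  -- the slot becomes ready
  have hready : ∃ s4, ∀ s, s4 ≤ s → Ready ev s ρ (nn ρ t) := by
    have h1 : ∀ i, ∃ s4, i < ρ.length → i % 2 = 0 → ρ.getD i 0 = 0 → ∀ s, s4 ≤ s →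
        nn ρ t ≤ (mem ev s (ρ.take i)).2.length := by
      intro i
      by_cases h2 : i < ρ.length ∧ i % 2 = 0 ∧ ρ.getD i 0 = 0
      · obtain ⟨h2, h3, h4⟩ := h2
        have h5 : ρ.take i = T i := by
          rw [← hρ]; exact hTp i _ (by rw [hlen] at h2; omega)
        have h6 : ρ.take (i + 1) = T (i + 1) := by
          rw [← hρ]; exact hTp (i + 1) _ (by rw [hlen] at h2; omega)
        obtain ⟨o, ho, h7⟩ := (hT i).2.2.2
        have h8 : o = 0 := by
          have h9 : (T (i + 1)).getD i 0 = ρ.getD i 0 := by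
            rw [← h6]
            simp [List.getD_eq_getElem?_getD]
          have h10 : (T i ++ [o]).getD (T i).length 0 = o := getD_append_len
          rw [(hT i).1, ← h7, h9, h4] at h10
          exact h10.symm
        have hInf := (hT (i + 1)).2.1
        rw [h7, h8] at hInf
        have hev0 : (T i).length % 2 = 0 := by rw [(hT i).1]; exact h3
        obtain ⟨s4, hs4⟩ := grow ev hev0 (hT i).2.2.1 (fun s0 => by
          obtain ⟨s, hs, hv⟩ := hInf s0
          rw [vis_snoc] at hv
          exact ⟨s, hs, hv.2.1, hv.2.2⟩) (nn ρ t)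
        refine ⟨s4, fun _ _ _ s hs => ?_⟩
        rw [h5]
        exact ((hs4 s hs).1).trans (length_of_req ev hev0 s)
      · exact ⟨0, fun h3 h4 h5 => absurd ⟨h3, h4, h5⟩ h2⟩
    choose t4 ht4 using h1
    refine ⟨(Finset.range ρ.length).sup t4, fun s hs i h2 h3 h4 => ?_⟩
    exact ht4 i h2 h3 h4 s ((Finset.le_sup (f := t4) (Finset.mem_range.2 h2)).trans hs)
  obtain ⟨s4, hs4⟩ := hready
  -- phase 1 is reached
  have step3 : ∃ s5, s3 ≤ s5 ∧ (mem ev s5 ρ).1.2 = 1 := by
    obtain ⟨s, hs, hv⟩ := hinf (max s3 s4)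
    have ha : s3 ≤ s := le_trans (le_max_left _ _) hs
    have hb : s4 ≤ s := le_trans (le_max_right _ _) hs
    rcases (slot_form ev s ρ hodd).2 with h3 | h3
    · rcases odd_step ev s ρ hodd with h1 | h1 | h1 | h1 | h1 | h1
      · exact absurd h1.2.2.1 (nokill s (by omega))
      · have := hs3 s ha
        rw [h1.2.2.2.1] at this; simp at this
      · exact ⟨s + 1, by omega, by rw [h1.2.2.2.2.2.2]⟩
      · exfalso
        apply h1.2.2.2.2.1
        rw [hsl s ha]
        exact ⟨h3, hs4 s hb⟩
      · rw [h1.1] at hv; simp at hv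
      · rw [h1.1] at hv; simp at hv
    · exact ⟨s, ha, h3⟩
  obtain ⟨s5, hs35, hs5⟩ := step3
  refine ⟨nn ρ t, ⟨s5, fun s hs => ?_⟩, ?_⟩
  · have hphase : (mem ev s ρ).1.2 = 1 := by
      induction s, hs using Nat.le_induction with
      | base => exact hs5
      | succ s hs ih =>
        rcases odd_step ev s ρ hodd with h1 | h1 | h1 | h1 | h1 | h1
        · exact absurd h1.2.2.1 (nokill s (by omega))
        · have := hs3 s (by omega)
          rw [h1.2.2.2.1] at this; simp at this
        · rw [h1.2.2.2.2.2.2]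
        · rw [h1.2.2.2.2.2]; exact ih
        · have := hs0 s (hs2 s (by omega)).2.1
          rw [h1.2.1] at this; simp at this
        · rw [h1.2.2]; exact ih
    rw [pp_iff, own_nn]
    refine ⟨by have := le_nn ρ t; omega, hodd, hsl s (by omega), hphase, ?_⟩
    exact not_not.1 (nokill s (by omega))
  · rw [ar_nn, hk]
    unfold locs
    rw [List.mem_map]
    refine ⟨encode ρ, List.mem_range.2 ?_, rfl⟩
    refine encode_lt_bd 3 _ ρ (by rw [hlen]) ?_
    rw [← hρ]
    exact hTe _

/-- The events are finite in number iff the final relations show it. -/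
theorem code_iff (k : ℕ) : {u | ev k u = true}.Finite ↔
    ∃ m ∈ locs k, m ∈ {m | ∃ n, dd (pp ev) ar n = some m} := by
  constructor
  · intro h
    obtain ⟨n, h1, h2⟩ := slot_of_fin ev h
    refine ⟨ar n, h2, n, ?_⟩
    unfold dd
    have h3 : ∃ u, pp ev n u = true := by
      obtain ⟨t, ht⟩ := h1
      exact ⟨t, ht t le_rfl⟩
    rw [if_pos h3, if_pos h1]
  · rintro ⟨m, hm, n, hn⟩
    unfold locs at hm
    rw [List.mem_map] at hm
    obtain ⟨c, -, rfl⟩ := hm
    unfold dd at hn
    split_ifs at hn with h1 h2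
    · obtain ⟨t, ht⟩ := h2
      obtain ⟨a1, t0, a2, a3, a4, a5⟩ := pp_slot ev (ht t le_rfl)
      simp only [Option.some.injEq] at hn
      have hk : (own n).length / 2 = k := by
        rw [a2, ar_nn] at hn
        have h3 : Nat.pair ((own n).length / 2) (encode (own n)) = Nat.pair k c := by omega
        exact (Nat.pair_eq_pair.1 h3).1
      rw [hk] at a5
      refine cnt_const_of ev (s := t) fun u hu => ?_
      obtain ⟨-, t', b2, b3, b4, b5⟩ := pp_slot ev (ht u hu)
      have htt : t0 = t' := nn_inj (a2.symm.trans b2)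
      rw [← htt] at b3
      obtain ⟨-, -, -, -, c5, c6⟩ := life ev a1 b3
      obtain ⟨d1, -⟩ := life ev a1 a3
      have c7 := (c6 t d1 hu).2.1
      rw [hk] at b5
      rw [b5, a5, c7]
    · obtain ⟨u, hu⟩ := h1
      obtain ⟨a1, t0, a2, a3, a4, a5⟩ := pp_slot ev hu
      simp only [Option.some.injEq] at hn
      rw [a2] at hn
      unfold nn at hn
      omega

end Pool.Agent.Helper750.CT
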