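import Pool.Agent.Helper750.CT.Defs
set_option autoImplicit false

namespace Pool.Agent.Helper750.CT

open Pool.Agent.Helper750.DC Pool.Agent.Helper446.RE Encodable Nat.Partrec

/-- every r.e. set of numbers is many-one reducible to the halting problem -/
theorem dd_K_re {A : ℕ → Prop} (hA : REPred A) :
    ∃ a : ℕ → ℕ, Computable a ∧ ∀ n, (a n ∈ K ↔ A n) := by
  have hA' : REPred fun z : ℕ => A z.unpair.1 :=
    Pool.Agent.Helper446.RE.comp hA (f := fun z : ℕ => z.unpair.1)
      (Computable.fst.comp Computable.unpair)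
  obtain ⟨c, hc⟩ := Nat.Partrec.Code.exists_code.1 hA'
  have hdom : ∀ z, (Code.eval c z).Dom ↔ A z.unpair.1 := by
    intro z
    have h1 : Code.eval c (encode z) =
        (Part.assert (A z.unpair.1) fun _ => Part.some ()).map encode := by
      rw [hc]; simp
    have h0 : encode z = z := rfl
    rw [h0] at h1
    rw [h1]
    simp only [Part.map_Dom]
    constructor
    · rintro ⟨h, -⟩; exact h
    · intro h; exact ⟨h, trivial⟩
  refine ⟨fun n => encode (Code.curry c n), ?_, fun n => ?_⟩
  · exact Computable.encode.comp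
      ((Primrec₂.to_comp Code.primrec₂_curry).comp (Computable.const c) Computable.id)
  · show ((Denumerable.ofNat Code (encode (Code.curry c n))).eval
      (encode (Code.curry c n))).Dom ↔ A n
    rw [Denumerable.ofNat_encode, Code.eval_curry, hdom, Nat.unpair_pair]

theorem dd_K (p : ℕ → ℕ → Bool) (r : ℕ → ℕ) (hp : Computable₂ p) (hr : Computable r)
    (hc : Convex p) : TLe (fun n => encode (dd p r n)) (chi K) := by
  classical
  have hA : REPred fun n => ∃ u, p n u = true :=
    re_of_proj (p := fun n => ∃ u, p n u = true) p hp (fun n => Iff.rfl)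
  have hB : REPred fun n => ∃ u v, u < v ∧ p n u = true ∧ p n v = false := by
    refine re_of_proj (p := fun n => ∃ u v, u < v ∧ p n u = true ∧ p n v = false)
      (fun n z => decide (z.unpair.1 < z.unpair.2) && (p n z.unpair.1 && !(p n z.unpair.2))) ?_ ?_
    · have h1 : Computable fun x : ℕ × ℕ => decide (x.2.unpair.1 < x.2.unpair.2) :=
        cdecide (cp_lt (by fun_prop) (by fun_prop))
      have h2 : Computable fun x : ℕ × ℕ => p x.1 x.2.unpair.1 :=
        Computable₂.comp hp (by fun_prop : Computable fun x : ℕ × ℕ => x.1)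
          (by fun_prop : Computable fun x : ℕ × ℕ => x.2.unpair.1)
      have h3 : Computable fun x : ℕ × ℕ => p x.1 x.2.unpair.2 :=
        Computable₂.comp hp (by fun_prop : Computable fun x : ℕ × ℕ => x.1)
          (by fun_prop : Computable fun x : ℕ × ℕ => x.2.unpair.2)
      exact cand h1 (cand h2 (cnot h3))
    · intro n
      constructor
      · rintro ⟨u, v, h1, h2, h3⟩
        exact ⟨Nat.pair u v, by simp [h1, h2, h3]⟩
      · rintro ⟨z, hz⟩
        simp only [Bool.and_eq_true, decide_eq_true_eq, Bool.not_eq_true'] at hz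
        exact ⟨_, _, hz.1, hz.2.1, hz.2.2⟩
  obtain ⟨a, ha, haK⟩ := dd_K_re hA
  obtain ⟨b, hb, hbK⟩ := dd_K_re hB
  have hstab : ∀ n, (∃ u, p n u = true) →
      ((∃ t, ∀ u, t ≤ u → p n u = true) ↔ ¬ ∃ u v, u < v ∧ p n u = true ∧ p n v = false) := by
    rintro n ⟨u0, hu0⟩
    constructor
    · rintro ⟨t, ht⟩ ⟨u, v, huv, hu, hv⟩
      have h1 := hc n u v (max t (v + 1)) huv (by omega) hu hv
      rw [ht _ (le_max_left _ _)] at h1
      exact absurd h1 (by simp)
    · intro h
      refine ⟨u0, fun u hu => ?_⟩
      rcases Nat.eq_or_lt_of_le hu with h1 | h1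
      · rw [← h1]; exact hu0
      · by_contra h2
        exact h ⟨u0, u, h1, hu0, by simpa using h2⟩
  let F : ℕ → ℕ := fun z => encode (bif decide (z.unpair.2.unpair.1 = 0) then (none : Option ℕ)
    else bif decide (z.unpair.2.unpair.2 = 0) then some (r z.unpair.1) else some z.unpair.1)
  have hF : Computable F := by
    have h1 : Computable fun z : ℕ => decide (z.unpair.2.unpair.1 = 0) :=
      cdecide (cp_eq (by fun_prop) (by fun_prop))
    have h2 : Computable fun z : ℕ => decide (z.unpair.2.unpair.2 = 0) :=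
      cdecide (cp_eq (by fun_prop) (by fun_prop))
    have h3 : Computable fun z : ℕ => r z.unpair.1 :=
      hr.comp (by fun_prop : Computable fun z : ℕ => z.unpair.1)
    exact cencode (ccond h1 (by fun_prop) (ccond h2 (csome h3) (by fun_prop)))
  have hK := Pool.Agent.Helper743.TR.refl (chi K)
  have hfA : Pool.Agent.Helper743.RecT {((chi K : ℕ → ℕ) : ℕ →. ℕ)} (fun n => chi K (a n)) :=
    Pool.Agent.Helper743.RecT.comp hK (Pool.Agent.Helper743.Computable.recT ha)
  have hfB : Pool.Agent.Helper743.RecT {((chi K : ℕ → ℕ) : ℕ →. ℕ)} (fun n => chi K (b n)) :=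
    Pool.Agent.Helper743.RecT.comp hK (Pool.Agent.Helper743.Computable.recT hb)
  have hall := (Pool.Agent.Helper743.Computable.recT
    (O := {((chi K : ℕ → ℕ) : ℕ →. ℕ)}) hF).comp
    (Pool.Agent.Helper743.RecT.pair
      (Pool.Agent.Helper743.Computable.recT Computable.id) (hfA.pair hfB))
  refine Pool.Agent.Helper743.TR_iff.1 ?_
  have heq : (fun n => encode (dd p r n)) =
      (fun n => F (Nat.pair (id n) (Nat.pair (chi K (a n)) (chi K (b n))))) := by
    funext n
    simp only [F, Nat.unpair_pair, id]
    congr 1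
    unfold dd
    by_cases h1 : ∃ u, p n u = true
    · have h1' : chi K (a n) = 1 := by unfold chi; rw [if_pos ((haK n).2 h1)]
      rw [if_pos h1, h1']
      by_cases h2 : ∃ u v, u < v ∧ p n u = true ∧ p n v = false
      · have h2' : chi K (b n) = 1 := by unfold chi; rw [if_pos ((hbK n).2 h2)]
        rw [if_neg (fun h => (hstab n h1).1 h h2), h2']
        rfl
      · have h2' : chi K (b n) = 0 := by
          unfold chi; rw [if_neg (fun h => h2 ((hbK n).1 h))]
        rw [if_pos ((hstab n h1).2 h2), h2']
        rfl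
    · have h1' : chi K (a n) = 0 := by unfold chi; rw [if_neg (fun h => h1 ((haK n).1 h))]
      rw [if_neg h1, h1']
      rfl
  show Pool.Agent.Helper743.TR (fun n => encode (dd p r n)) (chi K)
  rw [heq]
  exact hall

end Pool.Agent.Helper750.CT
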