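import Pool.Agent.Helper750.CT.Base
set_option autoImplicit false

namespace Pool.Agent.Helper750.CT

open Pool.Agent.Helper750.DC Pool.Agent.Helper446.RE Encodable Nat.Partrec

section rk

/-- decoded value of `d` from the prefix -/
def dvrk (σ : List ℕ) (n : ℕ) : Option ℕ :=
  (decode (α := Option ℕ) (((σ[n]?).getD 0).unpair.1)).getD none

/-- decoded number of types from the prefix -/
def tvrk (σ : List ℕ) (m : ℕ) : ℕ := ((σ[m]?).getD 0).unpair.2

def mprk (xs vs : List ℕ) : List ℕ := vs.map fun v => xs.getD v 0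

def exrk (n : ℕ) (zs : List ℕ) : List ℕ :=
  zs ++ (List.range (n - zs.length)).map (fun i => encode zs + i)

theorem lt_encode_rk (z : ℕ) (zs : List ℕ) (h : z ∈ zs) : z < encode zs := by
  induction zs with
  | nil => simp at h
  | cons a l ih =>
    rw [Encodable.encode_list_cons]
    rcases List.mem_cons.1 h with h | h
    · subst h
      have := Nat.left_le_pair (encode z) (encode l)
      have h2 : encode z = z := rfl
      rw [h2] at this
      exact Nat.lt_succ_of_le this
    · have := Nat.right_le_pair (encode a) (encode l)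
      exact (ih h).trans_le (this.trans (Nat.le_succ _))

theorem exrk_nodup (n : ℕ) (zs : List ℕ) (h : zs.Nodup) : (exrk n zs).Nodup := by
  unfold exrk
  rw [List.nodup_append]
  refine ⟨h, ?_, ?_⟩
  · exact List.Nodup.map (fun a b hab => by simpa using hab) List.nodup_range
  · intro a ha b hb
    obtain ⟨i, _, rfl⟩ := List.mem_map.1 hb
    have := lt_encode_rk a zs ha
    omega

theorem exrk_length (n : ℕ) (zs : List ℕ) (h : zs.length ≤ n) : (exrk n zs).length = n := by
  unfold exrk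
  simp
  omega

@[fun_prop] theorem cgetD_rk {α : Type*} [Primcodable α] {f : α → List ℕ} {g : α → ℕ} (hf : Computable f)
    (hg : Computable g) : Computable (fun x => (f x).getD (g x) 0) :=
  (Primrec.list_getD 0).to_comp.comp hf hg

@[fun_prop] theorem coptgetD_rk {α β : Type*} [Primcodable α] [Primcodable β] {f : α → Option β} {b : β}
    (hf : Computable f) : Computable (fun x => (f x).getD b) :=
  Computable.option_getD hf (Computable.const b)

@[fun_prop] theorem cmprk {α : Type*} [Primcodable α] {f g : α → List ℕ} (hf : Computable f)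
    (hg : Computable g) : Computable (fun x => mprk (f x) (g x)) := by
  have h : Primrec (fun p : List ℕ × List ℕ => mprk p.1 p.2) :=
    Primrec.list_map Primrec.snd ((Primrec.list_getD 0).comp (Primrec.fst.comp Primrec.fst) Primrec.snd)
  exact h.to_comp.comp (hf.pair hg)

@[fun_prop] theorem cexrk {α : Type*} [Primcodable α] {f : α → ℕ} {g : α → List ℕ} (hf : Computable f)
    (hg : Computable g) : Computable (fun x => exrk (f x) (g x)) := by
  have h : Primrec (fun p : ℕ × List ℕ => exrk p.1 p.2) := by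
    unfold exrk
    refine Primrec.list_append.comp Primrec.snd (Primrec.list_map (Primrec.list_range.comp
      (Primrec.nat_sub.comp Primrec.fst (Primrec.list_length.comp Primrec.snd))) ?_)
    exact Primrec.nat_add.comp (Primrec.encode.comp (Primrec.snd.comp Primrec.fst)) Primrec.snd
  exact h.to_comp.comp (hf.pair hg)

@[fun_prop] theorem cdvrk {α : Type*} [Primcodable α] {f : α → List ℕ} {g : α → ℕ} (hf : Computable f)
    (hg : Computable g) : Computable (fun x => dvrk (f x) (g x)) := by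
  unfold dvrk
  fun_prop

@[fun_prop] theorem ctvrk {α : Type*} [Primcodable α] {f : α → List ℕ} {g : α → ℕ} (hf : Computable f)
    (hg : Computable g) : Computable (fun x => tvrk (f x) (g x)) := by
  unfold tvrk
  fun_prop

def NPr (Rd : ℕ × List ℕ → Bool) (σ : List ℕ) (m : ℕ) (xs ys : List ℕ) : Prop :=
  (∃ u v : ℕ, u < m ∧ v < m ∧ xs.getD u 0 = xs.getD v 0 ∧ ys.getD u 0 ≠ ys.getD v 0) ∨
  (∃ u v : ℕ, u < m ∧ v < m ∧ xs.getD u 0 ≠ xs.getD v 0 ∧ ys.getD u 0 = ys.getD v 0) ∨
  (∃ (n : ℕ) (vs : List ℕ), n < σ.length ∧ dvrk σ n = some vs.length ∧ (∀ v ∈ vs, v < m) ∧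
    (mprk xs vs).Nodup ∧ (mprk ys vs).Nodup ∧
    Rd (n, exrk n (mprk xs vs)) ≠ Rd (n, exrk n (mprk ys vs)))

theorem re_NPr {α : Type*} [Primcodable α] (Rd : ℕ × List ℕ → Bool) (hRd : Computable Rd)
    {σ : α → List ℕ} {m : α → ℕ} {xs ys : α → List ℕ} (hσ : Computable σ) (hm : Computable m)
    (hxs : Computable xs) (hys : Computable ys) : REPred fun a => NPr Rd (σ a) (m a) (xs a) (ys a) := by
  unfold NPr
  refine or ?_ (or ?_ ?_)
  · refine ex (p := fun a (u : ℕ) => ∃ v : ℕ, u < m a ∧ v < m a ∧ (xs a).getD u 0 = (xs a).getD v 0 ∧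
      (ys a).getD u 0 ≠ (ys a).getD v 0) ?_
    refine ex (p := fun (x : α × ℕ) (v : ℕ) => x.2 < m x.1 ∧ v < m x.1 ∧
      (xs x.1).getD x.2 0 = (xs x.1).getD v 0 ∧ (ys x.1).getD x.2 0 ≠ (ys x.1).getD v 0) ?_
    refine and (lt (by fun_prop) (by fun_prop)) (and (lt (by fun_prop) (by fun_prop))
      (and (eq (by fun_prop) (by fun_prop)) (ne (by fun_prop) (by fun_prop))))
  · refine ex (p := fun a (u : ℕ) => ∃ v : ℕ, u < m a ∧ v < m a ∧ (xs a).getD u 0 ≠ (xs a).getD v 0 ∧
      (ys a).getD u 0 = (ys a).getD v 0) ?_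
    refine ex (p := fun (x : α × ℕ) (v : ℕ) => x.2 < m x.1 ∧ v < m x.1 ∧
      (xs x.1).getD x.2 0 ≠ (xs x.1).getD v 0 ∧ (ys x.1).getD x.2 0 = (ys x.1).getD v 0) ?_
    refine and (lt (by fun_prop) (by fun_prop)) (and (lt (by fun_prop) (by fun_prop))
      (and (ne (by fun_prop) (by fun_prop)) (eq (by fun_prop) (by fun_prop))))
  · refine ex (p := fun a (n : ℕ) => ∃ vs : List ℕ, n < (σ a).length ∧ dvrk (σ a) n = some vs.length ∧
      (∀ v ∈ vs, v < m a) ∧ (mprk (xs a) vs).Nodup ∧ (mprk (ys a) vs).Nodup ∧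
      Rd (n, exrk n (mprk (xs a) vs)) ≠ Rd (n, exrk n (mprk (ys a) vs))) ?_
    refine ex (p := fun (x : α × ℕ) (vs : List ℕ) => x.2 < (σ x.1).length ∧
      dvrk (σ x.1) x.2 = some vs.length ∧
      (∀ v ∈ vs, v < m x.1) ∧ (mprk (xs x.1) vs).Nodup ∧ (mprk (ys x.1) vs).Nodup ∧
      Rd (x.2, exrk x.2 (mprk (xs x.1) vs)) ≠ Rd (x.2, exrk x.2 (mprk (ys x.1) vs))) ?_
    refine and (lt (by fun_prop) (by fun_prop)) (and (eq (by fun_prop) (by fun_prop))
      (and ?_ (and (cp_nodup (by fun_prop)) (and (cp_nodup (by fun_prop)) (ne (by fun_prop) (by fun_prop))))))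
    refine all_mem (p := fun (x : (α × ℕ) × List ℕ) (v : ℕ) => v < m x.1.1) ?_ (by fun_prop)
    exact lt (by fun_prop) (by fun_prop)

/-- the certificate -/
def Ark (Rd : ℕ × List ℕ → Bool) (σ : List ℕ) (m : ℕ) : Prop :=
  m < σ.length ∧ ∃ xss : List (List ℕ), xss.length = tvrk σ m ∧
    ∀ i < xss.length, ∀ j < i, NPr Rd σ m ((xss[i]?).getD []) ((xss[j]?).getD [])

theorem re_Ark (Rd : ℕ × List ℕ → Bool) (hRd : Computable Rd) :
    REPred fun x : List ℕ × ℕ => Ark Rd x.1 x.2 := by
  unfold Ark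
  refine and (lt (by fun_prop) (by fun_prop)) ?_
  refine ex (p := fun (x : List ℕ × ℕ) (xss : List (List ℕ)) => xss.length = tvrk x.1 x.2 ∧
    ∀ i < xss.length, ∀ j < i, NPr Rd x.1 x.2 ((xss[i]?).getD []) ((xss[j]?).getD [])) ?_
  refine and (eq (by fun_prop) (by fun_prop)) ?_
  refine all_lt (p := fun (y : (List ℕ × ℕ) × List (List ℕ)) i =>
    ∀ j < i, NPr Rd y.1.1 y.1.2 ((y.2[i]?).getD []) ((y.2[j]?).getD [])) ?_ (by fun_prop)
  refine all_lt (p := fun (y : ((List ℕ × ℕ) × List (List ℕ)) × ℕ) j =>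
    NPr Rd y.1.1.1 y.1.1.2 ((y.1.2[y.2]?).getD []) ((y.1.2[j]?).getD [])) ?_ (by fun_prop)
  refine re_NPr Rd hRd ?_ ?_ ?_ ?_ <;> fun_prop


/-! ### partial isomorphisms -/

theorem nodup_transfer_rk {V : Finset ℕ} {x y : ℕ → ℕ}
    (h : ∀ u ∈ V, ∀ v ∈ V, (x u = x v ↔ y u = y v)) {vs : List ℕ} (hvs : ∀ v ∈ vs, v ∈ V)
    (hn : (vs.map x).Nodup) : (vs.map y).Nodup := by
  unfold List.Nodup at hn ⊢
  rw [List.pairwise_map] at hn ⊢
  exact hn.imp_of_mem fun {a b} ha hb hab hy => hab ((h a (hvs a ha) b (hvs b hb)).2 hy)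

theorem PI_symm_rk {d : ℕ → Option ℕ} {P : ℕ → List ℕ → Prop} {N : ℕ} {V : Finset ℕ} {x y : ℕ → ℕ}
    (h : PI d P P N V x y) : PI d P P N V y x := by
  refine ⟨fun u hu v hv => (h.1 u hu v hv).symm, ?_⟩
  intro n m hn hd vs hl hvs hnd
  exact (h.2 n m hn hd vs hl hvs (nodup_transfer_rk (fun u hu v hv => (h.1 u hu v hv).symm) hvs hnd)).symm

theorem PI_trans_rk {d : ℕ → Option ℕ} {P : ℕ → List ℕ → Prop} {N : ℕ} {V : Finset ℕ} {x y z : ℕ → ℕ}
    (h : PI d P P N V x y) (h' : PI d P P N V y z) : PI d P P N V x z := by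
  refine ⟨fun u hu v hv => (h.1 u hu v hv).trans (h'.1 u hu v hv), ?_⟩
  intro n m hn hd vs hl hvs hnd
  exact (h.2 n m hn hd vs hl hvs hnd).trans
    (h'.2 n m hn hd vs hl hvs (nodup_transfer_rk h.1 hvs hnd))

theorem PI_anti_rk {d : ℕ → Option ℕ} {P : ℕ → List ℕ → Prop} {N N' : ℕ} (hNN : N ≤ N')
    {V : Finset ℕ} {x y : ℕ → ℕ}
    (h : PI d P P N' V x y) : PI d P P N V x y :=
  ⟨h.1, fun n m hn => h.2 n m (hn.trans_le hNN)⟩

theorem PI_congr_rk {d : ℕ → Option ℕ} {P : ℕ → List ℕ → Prop} {N : ℕ}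
    {V : Finset ℕ} {x y x' y' : ℕ → ℕ} (hx : ∀ v ∈ V, x v = x' v) (hy : ∀ v ∈ V, y v = y' v)
    (h : PI d P P N V x y) : PI d P P N V x' y' := by
  refine ⟨fun u hu v hv => ?_, ?_⟩
  · rw [← hx u hu, ← hx v hv, ← hy u hu, ← hy v hv]
    exact h.1 u hu v hv
  · intro n m hn hd vs hl hvs hnd
    have e1 : vs.map x = vs.map x' := List.map_congr_left fun v hv => hx v (hvs v hv)
    have e2 : vs.map y = vs.map y' := List.map_congr_left fun v hv => hy v (hvs v hv)
    rw [← e1] at hnd
    rw [← e1, ← e2]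
    exact h.2 n m hn hd vs hl hvs hnd

theorem Rd_iff_rk {d : ℕ → Option ℕ} {P : ℕ → List ℕ → Prop} {M : Str} (hM : IsGen d P M)
    {Rd : ℕ × List ℕ → Bool} (hR : ∀ i xs, LL.rel i = some xs.length → (Rd (i, xs) = true ↔ M.R i xs))
    {n m : ℕ} (hd : d n = some m) {zs : List ℕ} (hl : zs.length = m) (hn : zs.Nodup) :
    Rd (n, exrk n zs) = true ↔ P n zs := by
  have hle := (hM.le n m hd).2
  have hlen : (exrk n zs).length = n := exrk_length n zs (by omega)
  rw [hR n (exrk n zs) (by rw [hlen]; rfl)]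
  have h1 := hM.rel (exrk n zs)
  rw [hlen] at h1
  rw [h1]
  have htake : (exrk n zs).take m = zs := by
    unfold exrk
    rw [← hl, List.take_left']
    rfl
  constructor
  · rintro ⟨_, m', hm', hP⟩
    rw [hd] at hm'
    obtain rfl : m = m' := by simpa using hm'
    rwa [htake] at hP
  · intro hP
    exact ⟨exrk_nodup n zs hn, m, hd, by rwa [htake]⟩

theorem NPr_iff_rk {d : ℕ → Option ℕ} {P : ℕ → List ℕ → Prop} {M : Str} (hM : IsGen d P M)
    {Rd : ℕ × List ℕ → Bool} (hR : ∀ i xs, LL.rel i = some xs.length → (Rd (i, xs) = true ↔ M.R i xs))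
    {σ : List ℕ} (hσ : ∀ n < σ.length, dvrk σ n = d n) (m : ℕ) (xs ys : List ℕ) :
    NPr Rd σ m xs ys ↔ ¬ PI d P P σ.length (Finset.range m) (fun v => xs.getD v 0) (fun v => ys.getD v 0) := by
  constructor
  · rintro (⟨u, v, hu, hv, h1, h2⟩ | ⟨u, v, hu, hv, h1, h2⟩ | ⟨n, vs, hn, hd, hvs, hx, hy, hne⟩) hPI
    · exact h2 ((hPI.1 u (Finset.mem_range.2 hu) v (Finset.mem_range.2 hv)).1 h1)
    · exact h1 ((hPI.1 u (Finset.mem_range.2 hu) v (Finset.mem_range.2 hv)).2 h2)
    · rw [hσ n hn] at hd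
      have h := hPI.2 n vs.length hn hd vs rfl (fun v hv => Finset.mem_range.2 (hvs v hv)) hx
      have e1 := Rd_iff_rk hM hR hd (zs := mprk xs vs) (by simp [mprk]) hx
      have e2 := Rd_iff_rk hM hR hd (zs := mprk ys vs) (by simp [mprk]) hy
      apply hne
      have e3 : Rd (n, exrk n (mprk xs vs)) = true ↔ Rd (n, exrk n (mprk ys vs)) = true := by
        rw [e1, e2]; exact h
      exact Bool.eq_iff_iff.2 e3
  · intro hPI
    by_cases h1 : ∀ u ∈ Finset.range m, ∀ v ∈ Finset.range m,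
        ((fun v => xs.getD v 0) u = (fun v => xs.getD v 0) v ↔ (fun v => ys.getD v 0) u = (fun v => ys.getD v 0) v)
    · have h2 : ¬ ∀ n m', n < σ.length → d n = some m' → ∀ vs : List ℕ, vs.length = m' →
          (∀ v ∈ vs, v ∈ Finset.range m) → (vs.map (fun v => xs.getD v 0)).Nodup →
          (P n (vs.map (fun v => xs.getD v 0)) ↔ P n (vs.map (fun v => ys.getD v 0))) := fun h2 => hPI ⟨h1, h2⟩
      push Not at h2
      obtain ⟨n, m', hn, hd, vs, hl, hvs, hnd, hne⟩ := h2
      have hnd' := nodup_transfer_rk h1 hvs hnd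
      refine Or.inr (Or.inr ⟨n, vs, hn, ?_, fun v hv => Finset.mem_range.1 (hvs v hv), hnd, hnd', ?_⟩)
      · rw [hσ n hn, hd, hl]
      · intro heq
        have e1 := Rd_iff_rk hM hR hd (zs := mprk xs vs) (by simp [mprk, hl]) hnd
        have e2 := Rd_iff_rk hM hR hd (zs := mprk ys vs) (by simp [mprk, hl]) hnd'
        have e3 : P n (mprk xs vs) ↔ P n (mprk ys vs) := by
          rw [← e1, ← e2, heq]
        rcases hne with ⟨ha, hb⟩ | ⟨ha, hb⟩
        · exact hb (e3.1 ha)
        · exact ha (e3.2 hb)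
    · push Not at h1
      obtain ⟨u, hu, v, hv, h⟩ := h1
      rcases h with ⟨ha, hb⟩ | ⟨ha, hb⟩
      · exact Or.inl ⟨u, v, Finset.mem_range.1 hu, Finset.mem_range.1 hv, ha, hb⟩
      · exact Or.inr (Or.inl ⟨u, v, Finset.mem_range.1 hu, Finset.mem_range.1 hv, ha, hb⟩)

theorem gen_ext_rk {d : ℕ → Option ℕ} {P : ℕ → List ℕ → Prop} {M : Str} (hM : IsGen d P M) (N : ℕ)
    (π : ℕ → List ℕ → Prop) (k : ℕ) : ∃ as : List ℕ, as.length = k ∧ as.Nodup ∧
      ∀ n m (I : List ℕ), n < N → d n = some m → I.length = m → I.Nodup → (∀ i ∈ I, i < k) →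
        (P n (I.map fun i => as.getD i 0) ↔ π n I) := by
  induction k with
  | zero =>
    refine ⟨[], rfl, List.nodup_nil, ?_⟩
    intro n m I _ hd hl _ hI
    exfalso
    have : I = [] := by
      rw [List.eq_nil_iff_forall_not_mem]
      intro i hi
      exact absurd (hI i hi) (Nat.not_lt_zero _)
    rw [this] at hl
    have := (hM.le n m hd).1
    simp at hl
    omega
  | succ k ih =>
    obtain ⟨as, hlen, hnd, has⟩ := ih
    obtain ⟨a, ha, hext⟩ := hM.ext as N π hnd
    refine ⟨as ++ [a], by simp [hlen], ?_, ?_⟩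
    · rw [List.nodup_append]
      refine ⟨hnd, List.nodup_singleton a, ?_⟩
      intro b hb c hc
      rw [List.mem_singleton] at hc
      subst hc
      rintro rfl
      exact ha hb
    · intro n m I hn hd hl hI hIk
      by_cases hk : k ∈ I
      · exact hext n m I hn hd hl hI (fun i hi => by rw [hlen]; exact Nat.lt_succ_iff.1 (hIk i hi))
          (by rw [hlen]; exact hk)
      · have hIk' : ∀ i ∈ I, i < k := by
          intro i hi
          have h1 := hIk i hi
          have h2 : i ≠ k := by rintro rfl; exact hk hi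
          omega
        have e : (I.map fun i => (as ++ [a]).getD i 0) = I.map fun i => as.getD i 0 := by
          apply List.map_congr_left
          intro i hi
          rw [List.getD_append]
          rw [hlen]; exact hIk' i hi
        rw [e]
        exact has n m I hn hd hl hI hIk'

/-- two tuples which differ only in `P n` -/
theorem split_rk {d : ℕ → Option ℕ} {P : ℕ → List ℕ → Prop} {M : Str} (hM : IsGen d P M) (s n m : ℕ)
    (hs : s ≤ n) (hd : d n = some m) :
    ∃ x y : ℕ → ℕ, PI d P P s (Finset.range m) x y ∧ ¬ PI d P P (n + 1) (Finset.range m) x y := by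
  classical
  obtain ⟨as, hlen, hnd, has⟩ := gen_ext_rk hM (n + 1)
    (fun n' I => if n' = n ∧ I = List.range m then ¬ P n (I.map id) else P n' (I.map id)) m
  refine ⟨id, fun i => as.getD i 0, ⟨?_, ?_⟩, ?_⟩
  · intro u hu v hv
    rw [Finset.mem_range] at hu hv
    simp only [id]
    rw [List.getD_eq_getElem _ _ (by omega), List.getD_eq_getElem _ _ (by omega)]
    rw [hnd.getElem_inj_iff]
  · intro n' m' hn' hd' vs hl hvs hvn
    rw [List.map_id] at hvn
    have h := has n' m' vs (by omega) hd' hl hvn (fun i hi => Finset.mem_range.1 (hvs i hi))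
    rw [h, if_neg]
    rintro ⟨h1, _⟩
    omega
  · intro hPI
    have h1 := hPI.2 n m (by omega) hd (List.range m) (by simp) (by simp) (by simpa using List.nodup_range)
    have h2 := has n m (List.range m) (by omega) hd (by simp) List.nodup_range (by simp)
    rw [if_pos ⟨rfl, rfl⟩] at h2
    rw [h2] at h1
    exact iff_not_self h1

open Pool.Agent.Helper743 in
theorem dvrk_pre (d : ℕ → Option ℕ) (T : ℕ → ℕ) (s : ℕ) :
    ∀ n < (pre (fun k => Nat.pair (encode (d k)) (T k)) s).length,
      dvrk (pre (fun k => Nat.pair (encode (d k)) (T k)) s) n = d n := by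
  intro n hn
  rw [pre_length] at hn
  unfold dvrk
  rw [pre_getElem?, if_pos hn]
  simp

open Pool.Agent.Helper743 in
theorem tvrk_pre (d : ℕ → Option ℕ) (T : ℕ → ℕ) (s n : ℕ) (hn : n < s) :
    tvrk (pre (fun k => Nat.pair (encode (d k)) (T k)) s) n = T n := by
  unfold tvrk
  rw [pre_getElem?, if_pos hn]
  simp

open Pool.Agent.Helper743 in
theorem sound_rk (d : ℕ → Option ℕ) (P : ℕ → List ℕ → Prop) (M : Str) (hM : IsGen d P M)
    {Rd : ℕ × List ℕ → Bool} (hR : ∀ i xs, LL.rel i = some xs.length → (Rd (i, xs) = true ↔ M.R i xs))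
    (hfin : ∀ k, {q | ∃ x, q = tp LL M k x}.Finite)
    (hq : ∀ (k : ℕ) (x y : ℕ → ℕ),
      tp LL M k x = tp LL M k y ↔ ∀ N, PI d P P N (Finset.range k) x y) (s m : ℕ)
    (hA : Ark Rd (pre (fun k => Nat.pair (encode (d k)) ({q | ∃ x, q = tp LL M k x}.ncard)) s) m)
    (hno : ∀ n < s, d n ≠ some m) (n : ℕ) : d n ≠ some m := by
  classical
  intro hdn
  have hsn : s ≤ n := by
    by_contra hc
    exact hno n (by omega) hdn
  obtain ⟨hms, xss, hlen, hpair⟩ := hA
  rw [pre_length] at hms
  rw [tvrk_pre _ _ _ _ hms] at hlen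
  set X : ℕ → ℕ → ℕ := fun i v => ((xss[i]?).getD []).getD v 0 with hX
  have hPI : ∀ i < xss.length, ∀ j < i, ¬ PI d P P s (Finset.range m) (X i) (X j) := by
    intro i hi j hj
    have h := (NPr_iff_rk hM hR (dvrk_pre d _ s) m _ _).1 (hpair i hi j hj)
    rwa [pre_length] at h
  set τ : ℕ → Set Fml := fun i => tp LL M m (X i) with hτ
  have hτne : ∀ i < xss.length, ∀ j < xss.length, i ≠ j → τ i ≠ τ j := by
    intro i hi j hj hij heq
    rcases lt_or_gt_of_ne hij with h | h
    · exact hPI j hj i h (((hq m (X j) (X i)).1 heq.symm) s)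
    · exact hPI i hi j h (((hq m (X i) (X j)).1 heq) s)
  have hall : ∀ x : ℕ → ℕ, ∃ i < xss.length, tp LL M m x = τ i := by
    have hsub : (((Finset.range xss.length).image τ : Finset (Set Fml)) : Set (Set Fml)) ⊆
        {q | ∃ x, q = tp LL M m x} := by
      intro q hq'
      rw [Finset.mem_coe, Finset.mem_image] at hq'
      obtain ⟨i, _, rfl⟩ := hq'
      exact ⟨_, rfl⟩
    have hcard : ((Finset.range xss.length).image τ).card = xss.length := by
      rw [Finset.card_image_of_injOn, Finset.card_range]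
      intro i hi j hj hij
      rw [Finset.mem_coe, Finset.mem_range] at hi hj
      by_contra hne
      exact hτne i hi j hj hne hij
    have heq := Set.eq_of_subset_of_ncard_le hsub (by
      rw [Set.ncard_coe_finset, hcard, hlen]) (hfin m)
    intro x
    have hx : tp LL M m x ∈ {q | ∃ x, q = tp LL M m x} := ⟨x, rfl⟩
    rw [← heq, Finset.mem_coe, Finset.mem_image] at hx
    obtain ⟨i, hi, h⟩ := hx
    exact ⟨i, Finset.mem_range.1 hi, h.symm⟩
  obtain ⟨x, y, hxy, hnxy⟩ := split_rk hM s n m hsn hdn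
  obtain ⟨i, hi, hxi⟩ := hall x
  obtain ⟨j, hj, hyj⟩ := hall y
  have hij : i ≠ j := by
    rintro rfl
    exact hnxy (((hq m x y).1 (hxi.trans hyj.symm)) (n + 1))
  have h1 : PI d P P s (Finset.range m) (X i) x := ((hq m (X i) x).1 hxi.symm) s
  have h2 : PI d P P s (Finset.range m) y (X j) := ((hq m y (X j)).1 hyj) s
  have h3 := PI_trans_rk (PI_trans_rk h1 hxy) h2
  rcases lt_or_gt_of_ne hij with h | h
  · exact hPI j hj i h (PI_symm_rk h3)
  · exact hPI i hi j h h3

open Pool.Agent.Helper743 in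
theorem complete_rk (d : ℕ → Option ℕ) (P : ℕ → List ℕ → Prop) (M : Str) (hM : IsGen d P M)
    {Rd : ℕ × List ℕ → Bool} (hR : ∀ i xs, LL.rel i = some xs.length → (Rd (i, xs) = true ↔ M.R i xs))
    (hfin : ∀ k, {q | ∃ x, q = tp LL M k x}.Finite)
    (hq : ∀ (k : ℕ) (x y : ℕ → ℕ),
      tp LL M k x = tp LL M k y ↔ ∀ N, PI d P P N (Finset.range k) x y) (m : ℕ) :
    ∃ s, Ark Rd (pre (fun k => Nat.pair (encode (d k)) ({q | ∃ x, q = tp LL M k x}.ncard)) s) m := by
  classical
  have hrep : ∀ q : Set Fml, q ∈ {q | ∃ x, q = tp LL M m x} → ∃ x : ℕ → ℕ, q = tp LL M m x := fun q h => h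
  choose! rep hrep using hrep
  have hN : ∀ q q' : Set Fml, q ∈ {q | ∃ x, q = tp LL M m x} → q' ∈ {q | ∃ x, q = tp LL M m x} → q ≠ q' →
      ∃ N, ¬ PI d P P N (Finset.range m) (rep q) (rep q') := by
    intro q q' h h' hne
    by_contra hc
    push Not at hc
    apply hne
    rw [hrep q h, hrep q' h']
    exact (hq m _ _).2 hc
  choose! Nf hNf using hN
  set S : Finset (Set Fml) := (hfin m).toFinset with hS
  have hSmem : ∀ q, q ∈ S ↔ q ∈ {q | ∃ x, q = tp LL M m x} := fun q => (hfin m).mem_toFinset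
  set s : ℕ := (S ×ˢ S).sup (fun p => Nf p.1 p.2) + m + 1 with hs
  have hle : ∀ q ∈ S, ∀ q' ∈ S, Nf q q' ≤ s := by
    intro q h q' h'
    have := Finset.le_sup (f := fun p : Set Fml × Set Fml => Nf p.1 p.2) (Finset.mk_mem_product h h')
    simp only at this
    omega
  refine ⟨s, ?_, S.toList.map (fun q => (List.range m).map (rep q)), ?_, ?_⟩
  · rw [pre_length]; omega
  · rw [tvrk_pre _ _ _ _ (by omega), List.length_map, Finset.length_toList]
    rw [hS, Set.ncard_eq_toFinset_card _ (hfin m)]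
  · intro i hi j hj
    rw [List.length_map] at hi
    have hj' : j < S.toList.length := hj.trans hi
    rw [NPr_iff_rk hM hR (dvrk_pre d _ s), pre_length]
    rw [List.getElem?_map, List.getElem?_map, List.getElem?_eq_getElem hi, List.getElem?_eq_getElem hj']
    simp only [Option.map_some, Option.getD_some]
    intro hPI
    have hqi : S.toList[i] ∈ S := Finset.mem_toList.1 (List.getElem_mem hi)
    have hqj : S.toList[j] ∈ S := Finset.mem_toList.1 (List.getElem_mem hj')
    have hne : S.toList[i] ≠ S.toList[j] := by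
      intro h
      have := (S.nodup_toList).getElem_inj_iff.1 h
      omega
    have hget : ∀ q : Set Fml, ∀ v ∈ Finset.range m, ((List.range m).map (rep q)).getD v 0 = rep q v := by
      intro q v hv
      rw [Finset.mem_range] at hv
      rw [List.getD_eq_getElem _ _ (by simpa using hv)]
      simp
    apply hNf _ _ ((hSmem _).1 hqi) ((hSmem _).1 hqj) hne
    exact PI_anti_rk (hle _ hqi _ hqj) (PI_congr_rk (hget _) (hget _) hPI)

end rk

open Pool.Agent.Helper743 in
theorem range_K (d : ℕ → Option ℕ) (P : ℕ → List ℕ → Prop) (M : Str) (hM : IsGen d P M)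
    (hc : IsComputableStr LL M) (hd : TLe (fun n => encode (d n)) (chi K))
    (hfin : ∀ k, {q | ∃ x, q = tp LL M k x}.Finite)
    (hq : ∀ (k : ℕ) (x y : ℕ → ℕ),
      tp LL M k x = tp LL M k y ↔ ∀ N, PI d P P N (Finset.range k) x y)
    (ht : TLe (fun k => {q | ∃ x, q = tp LL M k x}.ncard) (chi K)) :
    TLe (chi {m | ∃ n, d n = some m}) (chi K) := by
  obtain ⟨⟨Rd, hRd, hR⟩, _⟩ := hc
  obtain ⟨q, hqc, hqA⟩ := re_iff.1 (re_Ark Rd hRd)
  have hd' : RecT {((chi K : ℕ → ℕ) : ℕ →. ℕ)} (fun n => encode (d n)) := TR_iff.2 hd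
  have ht' : RecT {((chi K : ℕ → ℕ) : ℕ →. ℕ)} (fun k => {q | ∃ x, q = tp LL M k x}.ncard) := TR_iff.2 ht
  have hG := RecT.pair hd' ht'
  apply TR_iff.1
  show RecT _ _
  refine cert hG (fun σ m w => bif exB (fun n => decide (dvrk σ n = some m)) σ.length then some 1
    else bif q (σ, m) w then some 0 else none) ?_ _ ?_ ?_
  · have h1 : Computable₂ (fun (y : (List ℕ × ℕ) × ℕ) (n : ℕ) => decide (dvrk y.1.1 n = some y.1.2)) := by
      have : ComputablePred (fun z : ((List ℕ × ℕ) × ℕ) × ℕ => dvrk z.1.1.1 z.2 = some z.1.1.2) :=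
        cp_eq (by fun_prop) (by fun_prop)
      exact cdecide this
    have h2 : Computable (fun y : (List ℕ × ℕ) × ℕ => exB (fun n => decide (dvrk y.1.1 n = some y.1.2)) y.1.1.length) :=
      computable_exB h1 (by fun_prop)
    have hq' : Computable (fun x : (List ℕ × ℕ) × ℕ => q x.1 x.2) := hqc
    have h3 : Computable (fun y : (List ℕ × ℕ) × ℕ => q (y.1.1, y.1.2) y.2) := hq'
    exact ccond h2 (cconst _) (ccond h3 (cconst _) (cconst _))
  · intro m
    by_cases hm : ∃ n, d n = some m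
    · obtain ⟨n, hn⟩ := hm
      refine ⟨n + 1, 0, ?_⟩
      have : exB (fun k => decide (dvrk (pre (fun k => Nat.pair (encode (d k))
          ({q | ∃ x, q = tp LL M k x}.ncard)) (n + 1)) k = some m)) (pre (fun k => Nat.pair (encode (d k))
          ({q | ∃ x, q = tp LL M k x}.ncard)) (n + 1)).length = true := by
        rw [exB_iff]
        refine ⟨n, by rw [pre_length]; omega, ?_⟩
        rw [dvrk_pre _ _ _ _ (by rw [pre_length]; omega), hn]
        simp
      simp only [this, cond_true, Option.isSome_some]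
    · obtain ⟨s, hs⟩ := complete_rk d P M hM hR hfin hq m
      obtain ⟨w, hw⟩ := (hqA (_, m)).1 hs
      refine ⟨s, w, ?_⟩
      have key : ∀ b : Bool, (bif b then some (1:ℕ) else bif q (pre (fun k => Nat.pair (encode (d k))
          ({q | ∃ x, q = tp LL M k x}.ncard)) s, m) w then some 0 else none).isSome = true := by
        intro b
        have hw' : q (pre (fun k => Nat.pair (encode (d k)) ({q | ∃ x, q = tp LL M k x}.ncard)) s, m) w = true := hw
        rw [hw']
        cases b <;> rfl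
      exact key _
  · intro m s w y hy
    rcases hb : exB (fun k => decide (dvrk (pre (fun k => Nat.pair (encode (d k))
          ({q | ∃ x, q = tp LL M k x}.ncard)) s) k = some m)) (pre (fun k => Nat.pair (encode (d k))
          ({q | ∃ x, q = tp LL M k x}.ncard)) s).length with _ | _
    · simp only [hb, cond_false] at hy
      rcases hw : q (pre (fun k => Nat.pair (encode (d k))
          ({q | ∃ x, q = tp LL M k x}.ncard)) s, m) w with _ | _
      · simp [hw] at hy
      · simp only [hw, cond_true, Option.some.injEq] at hy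
        have hA := (hqA (_, m)).2 ⟨w, hw⟩
        have hno : ∀ n < s, d n ≠ some m := by
          intro n hn hdn
          have : exB (fun k => decide (dvrk (pre (fun k => Nat.pair (encode (d k))
              ({q | ∃ x, q = tp LL M k x}.ncard)) s) k = some m)) (pre (fun k => Nat.pair (encode (d k))
              ({q | ∃ x, q = tp LL M k x}.ncard)) s).length = true := by
            rw [exB_iff]
            refine ⟨n, by rw [pre_length]; exact hn, ?_⟩
            rw [dvrk_pre _ _ _ _ (by rw [pre_length]; exact hn), hdn]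
            simp
          rw [this] at hb
          exact absurd hb (by simp)
        have hfinal := sound_rk d P M hM hR hfin hq s m hA hno
        rw [← hy]
        unfold chi
        rw [if_neg]
        rintro ⟨n, hn⟩
        exact hfinal n hn
    · simp only [hb, cond_true, Option.some.injEq] at hy
      rw [exB_iff] at hb
      obtain ⟨n, hn, hdn⟩ := hb
      rw [dvrk_pre _ _ _ _ hn] at hdn
      rw [← hy]
      unfold chi
      rw [if_pos]
      exact ⟨n, by simpa using hdn⟩

end Pool.Agent.Helper750.CT
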