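import Pool.Agent.Helper750.CT.Base

set_option autoImplicit false

/-!
The structure defined from the state function `p` (`p n u = true` iff the slot `n` is in state 1
at stage `u`), and the tree construction of `p`.
-/

namespace Pool.Agent.Helper750.CT

open Pool.Agent.Helper750.DC Pool.Agent.Helper446.RE Encodable Nat.Partrec

/-! ### The structure -/

/-- maximum of a list -/
def mx (l : List ℕ) : ℕ := l.foldr max 0

/-- coding bits -/
def bit (n : ℕ) (zs : List ℕ) : Bool :=
  decide ((n, zs.map fun z => if z = mx zs then 0 else z + 1) ∈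
    Denumerable.ofNat (List (ℕ × List ℕ)) (mx zs).unpair.1)

/-- The slot `n` has been in state 1 at a stage `≤ a`. -/
def evr (p : ℕ → ℕ → Bool) (n a : ℕ) : Bool := exB (p n) (a + 1)

/-- The relation `Q_n` on tuples of length `n`; `r n` is the number of coordinates on which the
relation depends in state 1. -/
def MR (p : ℕ → ℕ → Bool) (r : ℕ → ℕ) (n : ℕ) (xs : List ℕ) : Bool :=
  decide xs.Nodup &&
    (bif p n (mx xs) then evr p n (mx (xs.take (r n))) && bit n (xs.take (r n))
      else evr p n (mx xs) && bit n xs)

/-- The structure. -/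
def MS (p : ℕ → ℕ → Bool) (r : ℕ → ℕ) : Str := ⟨fun n xs => MR p r n xs = true, fun _ _ => 0⟩

open Classical in
/-- The final number of coordinates on which `Q_n` depends. -/
noncomputable def dd (p : ℕ → ℕ → Bool) (r : ℕ → ℕ) (n : ℕ) : Option ℕ :=
  if ∃ u, p n u = true then (if ∃ t, ∀ u, t ≤ u → p n u = true then some (r n) else some n)
  else none

open Classical in
/-- The final relation. -/
noncomputable def PP (p : ℕ → ℕ → Bool) (r : ℕ → ℕ) (n : ℕ) (zs : List ℕ) : Prop :=
  if ∃ t, ∀ u, t ≤ u → p n u = true then zs.Nodup ∧ evr p n (mx zs) = true ∧ bit n zs = true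
  else MR p r n zs = true

/-- A state function: once a slot has left state 1 it does not come back, and only slots `n` with
`0 < r n < n` are used. -/
def Convex (p : ℕ → ℕ → Bool) : Prop :=
  ∀ n u v w, u < v → v < w → p n u = true → p n v = false → p n w = false

/-! ### The tree construction -/

/-- The memory of a node `γ` of odd length `2 k + 1` (a coding node): `((E, phase), slot)` where
`E` is the number of events counted so far, and `slot = [(n, 0)]` or `[]`. The memory of a node
`η` of even length `2 e` (an isomorphism node): `((c, r), f)` where `f` is the finite partial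
isomorphism, `r` the next request, `c` the lower bound for the size of `f` (and `c = 0` means
that the node has not been visited since its last cancellation). -/
abbrev V := (ℕ × ℕ) × List (ℕ × ℕ)

/-- The record of a stage: outcomes and new memory of the visited nodes. -/
abbrev Rec := List (ℕ × V)

abbrev Hist := List Rec

def dflt : V := ((0, 0), [])

/-- the path visited at stage `u` -/
def outs (h : Hist) (u : ℕ) : List ℕ := ((h[u]?).getD []).map Prod.fst

/-- the node `ρ` is visited if the path is `δ` -/
def vis (δ ρ : List ℕ) : Bool := decide (ρ.length < δ.length) && decide (δ.take ρ.length = ρ)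

/-- the path `δ` is to the left of the node `ρ` -/
def lft (δ ρ : List ℕ) : Bool :=
  exB (fun i => decide (i < δ.length) && (decide (δ.take i = ρ.take i) &&
    decide (δ.getD i 0 < ρ.getD i 0))) ρ.length

/-- the memory of the node `ρ` before stage `u` -/
def lk (h : Hist) (ρ : List ℕ) : ℕ → V
  | 0 => dflt
  | u + 1 => bif vis (outs h u) ρ then ((((h[u]?).getD [])[ρ.length]?).getD (0, dflt)).2
      else bif lft (outs h u) ρ then dflt else lk h ρ u

/-- the number of events before stage `s` -/
def cnt (ev : ℕ → ℕ → Bool) (k : ℕ) : ℕ → ℕ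
  | 0 => 0
  | s + 1 => cnt ev k s + (bif ev k s then 1 else 0)

/-- the slot opened by the node `γ` at stage `s` -/
def nn (γ : List ℕ) (s : ℕ) : ℕ := 2 * Nat.pair (Nat.pair (γ.length / 2) (encode γ)) s + 7

/-- the owner of a slot -/
def own (n : ℕ) : List ℕ := Denumerable.ofNat (List ℕ) ((n - 7) / 2).unpair.1.unpair.2

/-- the number of coordinates on which `Q_n` depends in state 1 -/
def ar (n : ℕ) : ℕ := 2 * ((n - 7) / 2).unpair.1 + 2

/-- the slot in the memory of a coding node (or `0`) -/
def sl (v : V) : ℕ := ((v.2[0]?).getD (0, 0)).1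

/-- The slot `n` is in state 1 at stage `u`. -/
def ph (ev : ℕ → ℕ → Bool) (h : Hist) (n u : ℕ) : Bool :=
  decide (n ≠ 0) && (decide ((own n).length % 2 = 1) && (decide (sl (lk h (own n) u) = n) &&
    (decide ((lk h (own n) u).1.2 = 1) &&
      decide (cnt ev ((own n).length / 2) u = (lk h (own n) u).1.1))))

/-- a bound for the codes of the lists of length `≤ k` with entries `< L` -/
def bd (L : ℕ) : ℕ → ℕ
  | 0 => 1
  | k + 1 => Nat.pair L (bd L k) + 2

/-- For the list `I` of indices of pairs in `f`: the structure with code `e` agrees with our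
structure on the tuples with the indices in `I`, as seen with bound `s`. -/
def chk1 (p : ℕ → ℕ → Bool) (e s : ℕ) (f : List (ℕ × ℕ)) (I : List ℕ) : Bool :=
  decide (Code.evaln s (Denumerable.ofNat Code e)
    (encode (I.length, I.map fun i => ((f[i]?).getD (0, 0)).2)) =
      some (encode (MR p ar I.length (I.map fun i => ((f[i]?).getD (0, 0)).1))))

/-- The finite map `f` is a partial isomorphism onto the structure with code `e`, as seen with
bound `s`. -/
def chk (p : ℕ → ℕ → Bool) (e s : ℕ) (f : List (ℕ × ℕ)) : Bool :=
  allB (fun z => !(decide (Denumerable.ofNat (List ℕ) z).Nodup &&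
      decide (∀ i ∈ Denumerable.ofNat (List ℕ) z, i < f.length)) ||
    chk1 p e s f (Denumerable.ofNat (List ℕ) z)) (bd f.length f.length)

/-- `f` is a good candidate for an extension of the finite map in the memory `v`. -/
def good (p : ℕ → ℕ → Bool) (e s : ℕ) (v : V) (f : List (ℕ × ℕ)) : Bool :=
  decide (f.take v.2.length = v.2) && ((decide (v.2.length = 0) ||
    decide (f.length ≤ v.2.length + 2)) && (decide (v.1.1 ≤ f.length) &&
    (decide (v.1.2 ∈ f.map Prod.fst) && (decide (v.1.2 ∈ f.map Prod.snd) &&
    (decide ((f.map Prod.fst).Nodup) && (decide ((f.map Prod.snd).Nodup) &&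
    (decide (mx (f.map Prod.fst) < s) && chk p e s f)))))))

/-- least `k < n` with `q k` -/
def mu (q : ℕ → Bool) : ℕ → ℕ
  | 0 => 0
  | n + 1 => bif exB q n then mu q n else n

/-- The slot `n` of the node `ρ` is ready for state 1. -/
def ready (h : Hist) (s : ℕ) (ρ : List ℕ) (n : ℕ) : Bool :=
  allB (fun i => !(decide (i % 2 = 0) && decide (ρ.getD i 0 = 0)) ||
    decide (n ≤ (lk h (ρ.take i) s).2.length)) ρ.length

/-- The action of an isomorphism node with memory `v`: outcome and new memory. -/
def stepI (ev : ℕ → ℕ → Bool) (h : Hist) (s e : ℕ) (v : V) : ℕ × V :=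
  bif decide (v.1.1 = 0) then (2, ((encode h + 1, 0), []))
  else bif exB (fun z => good (ph ev h) e s v (Denumerable.ofNat (List (ℕ × ℕ)) z)) s then
    (0, ((v.1.1, v.1.2 + 1), Denumerable.ofNat (List (ℕ × ℕ))
      (mu (fun z => good (ph ev h) e s v (Denumerable.ofNat (List (ℕ × ℕ)) z)) s)))
  else (2, v)

/-- The action of a coding node with memory `v`: outcome and new memory. -/
def stepC (ev : ℕ → ℕ → Bool) (h : Hist) (s : ℕ) (ρ : List ℕ) (v : V) : ℕ × V :=
  bif !(decide (cnt ev (ρ.length / 2) s = v.1.1)) then (0, ((cnt ev (ρ.length / 2) s, 0), []))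
  else bif decide (v.2.length = 0) then (2, ((v.1.1, 0), [(nn ρ s, 0)]))
  else bif decide (v.1.2 = 0) && ready h s ρ (sl v) then (1, ((v.1.1, 1), v.2))
  else (2, v)

/-- The action of the node `ρ` at stage `s = h.length`: outcome and new memory. -/
def stepn (ev : ℕ → ℕ → Bool) (h : Hist) (s : ℕ) (ρ : List ℕ) : ℕ × V :=
  bif decide (ρ.length % 2 = 0) then stepI ev h s (ρ.length / 2) (lk h ρ s)
  else stepC ev h s ρ (lk h ρ s)

/-- The record of a stage, up to level `j`. -/
def recs (ev : ℕ → ℕ → Bool) (h : Hist) (s : ℕ) : ℕ → Rec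
  | 0 => []
  | j + 1 => recs ev h s j ++ [stepn ev h s ((recs ev h s j).map Prod.fst)]

/-- The history before stage `s`. -/
def H (ev : ℕ → ℕ → Bool) : ℕ → Hist
  | 0 => []
  | s + 1 => H ev s ++ [recs ev (H ev s) s s]

/-- The final state function. -/
def pp (ev : ℕ → ℕ → Bool) (n u : ℕ) : Bool := ph ev (H ev u) n u

/-- the numbers coding the question whether `k` has finitely many events -/
def locs (k : ℕ) : List ℕ := (List.range (bd 3 (2 * k + 1))).map fun c => 2 * Nat.pair k c + 2

end Pool.Agent.Helper750.CT
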