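import Pool.Agent.Helper750.CT.Defs
set_option autoImplicit false

namespace Pool.Agent.Helper750.CT

open Pool.Agent.Helper750.DC Pool.Agent.Helper446.RE Encodable Nat.Partrec

theorem gx_evr {p : ℕ → ℕ → Bool} {n a : ℕ} :
    evr p n a = true ↔ ∃ u, u ≤ a ∧ p n u = true := by
  unfold evr
  rw [exB_iff]
  constructor
  · rintro ⟨i, h1, h2⟩
    exact ⟨i, by omega, h2⟩
  · rintro ⟨i, h1, h2⟩
    exact ⟨i, by omega, h2⟩

theorem gx_le_mx {l : List ℕ} {x : ℕ} (h : x ∈ l) : x ≤ mx l := by
  unfold mx
  induction l with
  | nil => simp at h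
  | cons a l ih =>
    rw [List.foldr_cons]
    rcases List.mem_cons.1 h with h1 | h1
    · subst h1; exact le_max_left _ _
    · exact (ih h1).trans (le_max_right _ _)

theorem gx_mx_le {l : List ℕ} {b : ℕ} (h : ∀ x ∈ l, x ≤ b) : mx l ≤ b := by
  unfold mx
  induction l with
  | nil => simp
  | cons a l ih =>
    rw [List.foldr_cons]
    exact max_le (h a (by simp)) (ih fun x hx => h x (by simp [hx]))

theorem gx_mx_take (l : List ℕ) (m : ℕ) : mx (l.take m) ≤ mx l :=
  gx_mx_le fun x hx => gx_le_mx (List.mem_of_mem_take hx)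

theorem gx_map_inj {f : ℕ → ℕ} : ∀ {I J : List ℕ}, (∀ i ∈ I, ∀ j ∈ J, f i = f j → i = j) →
    I.map f = J.map f → I = J
  | [], [], _, _ => rfl
  | [], b :: J, _, h => by simp at h
  | a :: I, [], _, h => by simp at h
  | a :: I, b :: J, hf, h => by
    rw [List.map_cons, List.map_cons, List.cons.injEq] at h
    have h1 : a = b := hf a (by simp) b (by simp) h.1
    have h2 : I = J := gx_map_inj (fun i hi j hj => hf i (by simp [hi]) j (by simp [hj])) h.2
    rw [h1, h2]

theorem gx_fin (k N : ℕ) (Q : ℕ → List ℕ → Prop) :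
    {q : ℕ × List ℕ | q.1 < N ∧ q.2.Nodup ∧ (∀ i ∈ q.2, i ≤ k) ∧ Q q.1 q.2}.Finite := by
  have h1 : (Set.range (fun q : Fin N × {l : List (Fin (k + 1)) // l.Nodup} =>
      ((q.1 : ℕ), (q.2.1 : List (Fin (k + 1))).map (Fin.val : Fin (k + 1) → ℕ)))).Finite := Set.finite_range _
  refine h1.subset ?_
  rintro ⟨n, I⟩ ⟨hn, hI, hk, -⟩
  simp only at hn hI hk
  have h2 : ∃ J : List (Fin (k + 1)), J.map (Fin.val : Fin (k + 1) → ℕ) = I := by
    have h3 : ∀ i ∈ I, ∃ j : Fin (k + 1), (j : ℕ) = i := fun i hi =>
      ⟨⟨i, Nat.lt_succ_of_le (hk i hi)⟩, rfl⟩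
    clear hI hk
    induction I with
    | nil => exact ⟨[], rfl⟩
    | cons a I ih =>
      obtain ⟨J, hJ⟩ := ih (fun i hi => h3 i (by simp [hi]))
      obtain ⟨j, hj⟩ := h3 a (by simp)
      exact ⟨j :: J, by rw [List.map_cons, hJ, hj]⟩
  obtain ⟨J, hJ⟩ := h2
  refine ⟨(⟨n, hn⟩, ⟨J, ?_⟩), ?_⟩
  · rw [← hJ] at hI
    exact List.Nodup.of_map _ hI
  · simp [hJ]

theorem isGen (p : ℕ → ℕ → Bool) (r : ℕ → ℕ) (hc : Convex p)
    (hr : ∀ n u, p n u = true → 0 < r n ∧ r n < n)
    (hfin : ∀ m, {n | (∃ t, ∀ u, t ≤ u → p n u = true) ∧ r n = m}.Finite) :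
    IsGen (dd p r) (PP p r) (MS p r) := by
  classical
  refine ⟨?_, ?_, ?_, ?_⟩
  · -- rel
    intro xs
    show MR p r xs.length xs = true ↔ _
    set n := xs.length with hn
    by_cases hA : ∃ t, ∀ u, t ≤ u → p n u = true
    · have hE : ∃ u, p n u = true := by
        obtain ⟨t, ht⟩ := hA
        exact ⟨t, ht t le_rfl⟩
      have hd : dd p r n = some (r n) := by
        unfold dd; rw [if_pos hE, if_pos hA]
      have hP : ∀ zs, PP p r n zs ↔ (zs.Nodup ∧ evr p n (mx zs) = true ∧ bit n zs = true) := by
        intro zs
        unfold PP; rw [if_pos hA]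
      rw [hd]
      simp only [Option.some.injEq, exists_eq_left', hP]
      unfold MR
      rw [Bool.and_eq_true, decide_eq_true_iff]
      apply and_congr_right
      intro hnd
      by_cases hp : p n (mx xs) = true
      · rw [hp, cond_true, Bool.and_eq_true]
        constructor
        · intro h; exact ⟨hnd.take, h⟩
        · intro h; exact h.2
      · have hp' : p n (mx xs) = false := by simpa using hp
        rw [hp', cond_false, Bool.and_eq_true]
        have hno : ¬ ∃ u, u ≤ mx xs ∧ p n u = true := by
          rintro ⟨u, hu, hpu⟩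
          have hlt : u < mx xs := by
            rcases Nat.lt_or_eq_of_le hu with h | h
            · exact h
            · rw [h] at hpu; exact absurd hpu hp
          obtain ⟨t, ht⟩ := hA
          have h1 := ht (max t (mx xs + 1)) (le_max_left _ _)
          have h2 := hc n u (mx xs) (max t (mx xs + 1)) hlt
            (lt_of_lt_of_le (Nat.lt_succ_self _) (le_max_right _ _)) hpu hp'
          rw [h1] at h2
          exact absurd h2 (by decide)
        constructor
        · rintro ⟨h1, -⟩
          exact absurd (gx_evr.1 h1) hno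
        · rintro ⟨-, h1, -⟩
          obtain ⟨u, hu, hpu⟩ := gx_evr.1 h1
          exact absurd ⟨u, hu.trans (gx_mx_take xs (r n)), hpu⟩ hno
    · by_cases hE : ∃ u, p n u = true
      · have hd : dd p r n = some n := by
          unfold dd; rw [if_pos hE, if_neg hA]
        have hP : ∀ zs, PP p r n zs ↔ MR p r n zs = true := by
          intro zs
          unfold PP; rw [if_neg hA]
        rw [hd]
        simp only [Option.some.injEq, exists_eq_left', hP]
        have ht : xs.take n = xs := by rw [hn]; exact List.take_length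
        rw [ht]
        constructor
        · intro h
          refine ⟨?_, h⟩
          unfold MR at h
          rw [Bool.and_eq_true, decide_eq_true_iff] at h
          exact h.1
        · intro h; exact h.2
      · have hd : dd p r n = Option.none := by
          unfold dd; rw [if_neg hE]
        rw [hd]
        constructor
        · intro h
          exfalso
          unfold MR at h
          rw [Bool.and_eq_true] at h
          have hp' : p n (mx xs) = false := by
            by_contra hcon
            exact hE ⟨mx xs, by simpa using hcon⟩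
          rw [hp', cond_false, Bool.and_eq_true] at h
          obtain ⟨u, -, hpu⟩ := gx_evr.1 h.2.1
          exact hE ⟨u, hpu⟩
        · rintro ⟨-, m, hm, -⟩
          exact absurd hm (by simp)
  · -- le
    intro n m h
    unfold dd at h
    split_ifs at h with hE hA
    · obtain ⟨u, hu⟩ := hE
      obtain ⟨h1, h2⟩ := hr n u hu
      have h3 : r n = m := by simpa using h
      omega
    · obtain ⟨u, hu⟩ := hE
      obtain ⟨h1, h2⟩ := hr n u hu
      have h3 : n = m := by simpa using h
      omega
  · -- fin
    intro m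
    refine ((hfin m).union (Set.finite_singleton m)).subset ?_
    intro n h
    have h : dd p r n = some m := h
    unfold dd at h
    split_ifs at h with hE hA
    · left
      exact ⟨hA, by simpa using h⟩
    · right
      have h3 : n = m := by simpa using h
      exact h3
  · -- ext
    intro as N π has
    have hT : ∀ n, ∃ t, (∃ u, p n u = true) → ∀ u, t ≤ u →
        evr p n u = true ∧ ((∃ t, ∀ u, t ≤ u → p n u = true) ∨ p n u = false) := by
      intro n
      by_cases hE : ∃ u, p n u = true
      · obtain ⟨u0, hu0⟩ := hE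
        by_cases hA : ∃ t, ∀ u, t ≤ u → p n u = true
        · exact ⟨u0, fun _ u hu => ⟨gx_evr.2 ⟨u0, hu, hu0⟩, Or.inl hA⟩⟩
        · have hA' : ∃ v, u0 + 1 ≤ v ∧ p n v = false := by
            by_contra hcon
            push Not at hcon
            exact hA ⟨u0 + 1, fun u hu => by simpa using hcon u hu⟩
          obtain ⟨v, hv, hpv⟩ := hA'
          refine ⟨v + 1, fun _ u hu => ⟨gx_evr.2 ⟨u0, by omega, hu0⟩, Or.inr ?_⟩⟩
          exact hc n u0 v u (by omega) (by omega) hu0 hpv
      · exact ⟨0, fun h => absurd h hE⟩
    choose T hT using hT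
    set k := as.length with hk
    let c : List ℕ → List ℕ := fun I => I.map (fun i => if i = k then 0 else as.getD i 0 + 1)
    have hF := gx_fin k N π
    let X : List (ℕ × List ℕ) := (hF.toFinset.toList).map (fun q => (q.1, c q.2))
    obtain ⟨y, hy1, hy2⟩ : ∃ y, (∀ x ∈ as, x < y) ∧ ∀ n < N, T n ≤ y := by
      refine ⟨mx as + 1 + ∑ n ∈ Finset.range N, T n, fun x hx => ?_, fun n hn => ?_⟩
      · have := gx_le_mx hx
        omega
      · have h1 : T n ≤ ∑ n ∈ Finset.range N, T n :=
          Finset.single_le_sum (f := T) (fun _ _ => Nat.zero_le _) (Finset.mem_range.2 hn)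
        omega
    let a := Nat.pair (encode X) y
    have hya : y ≤ a := Nat.right_le_pair _ _
    have haa : a ∉ as := fun h => absurd (hy1 a h) (by omega)
    refine ⟨a, haa, ?_⟩
    intro n m I hnN hd hIm hInd hIk hkI
    -- the tuple
    have hval : ∀ i, i < k → (as ++ [a]).getD i 0 = as.getD i 0 ∧ as.getD i 0 ∈ as := by
      intro i hi
      rw [hk] at hi
      constructor
      · rw [List.getD_append _ _ _ _ hi]
      · rw [List.getD_eq_getElem _ _ hi]
        exact List.getElem_mem hi
    have hvalk : (as ++ [a]).getD k 0 = a := by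
      rw [List.getD_append_right _ _ _ _ (by omega), hk]
      simp
    set zs := I.map fun i => (as ++ [a]).getD i 0 with hzs
    have hmx : mx zs = a := by
      apply le_antisymm
      · apply gx_mx_le
        intro x hx
        rw [hzs, List.mem_map] at hx
        obtain ⟨i, hi, rfl⟩ := hx
        rcases Nat.lt_or_eq_of_le (hIk i hi) with h | h
        · rw [(hval i h).1]
          have := hy1 _ (hval i h).2
          omega
        · rw [h, hvalk]
      · apply gx_le_mx
        rw [hzs, List.mem_map]
        exact ⟨k, hkI, hvalk⟩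
    have hinj0 : ∀ i, i < k → ∀ j, j < k → as.getD i 0 = as.getD j 0 → i = j := by
      intro i hi j hj h
      rw [hk] at hi hj
      rw [List.getD_eq_getElem _ _ hi, List.getD_eq_getElem _ _ hj] at h
      exact (List.Nodup.getElem_inj_iff has).1 h
    have hnd : zs.Nodup := by
      rw [hzs]
      refine List.Nodup.map_on ?_ hInd
      intro i hi j hj h
      rcases Nat.lt_or_eq_of_le (hIk i hi) with h1 | h1 <;>
        rcases Nat.lt_or_eq_of_le (hIk j hj) with h2 | h2
      · rw [(hval i h1).1, (hval j h2).1] at h
        exact hinj0 i h1 j h2 h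
      · rw [(hval i h1).1, h2, hvalk] at h
        exact absurd (h ▸ (hval i h1).2) haa
      · rw [(hval j h2).1, h1, hvalk] at h
        exact absurd (h ▸ (hval j h2).2) haa
      · omega
    have hcode : (zs.map fun z => if z = mx zs then 0 else z + 1) = c I := by
      rw [hmx, hzs, List.map_map]
      apply List.map_congr_left
      intro i hi
      rcases Nat.lt_or_eq_of_le (hIk i hi) with h | h
      · have h1 : i ≠ k := by omega
        have h2 : as.getD i 0 ≠ a := fun h3 => haa (h3 ▸ (hval i h).2)
        simp only [Function.comp]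
        rw [(hval i h).1, if_neg h2, if_neg h1]
      · simp only [Function.comp]
        rw [h, hvalk, if_pos rfl, if_pos rfl]
    have hcinj : ∀ J : List ℕ, (∀ i ∈ J, i ≤ k) → c I = c J → I = J := by
      intro J hJ h
      refine gx_map_inj ?_ h
      intro i hi j hj h
      rcases Nat.lt_or_eq_of_le (hIk i hi) with h1 | h1 <;>
        rcases Nat.lt_or_eq_of_le (hJ j hj) with h2 | h2
      · rw [if_neg (by omega), if_neg (by omega)] at h
        exact hinj0 i h1 j h2 (by omega)
      · rw [if_neg (by omega), if_pos h2] at h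
        omega
      · rw [if_pos h1, if_neg (by omega)] at h
        omega
      · omega
    have hbit : bit n zs = true ↔ π n I := by
      unfold bit
      rw [decide_eq_true_iff, hcode, hmx]
      show (n, c I) ∈ Denumerable.ofNat (List (ℕ × List ℕ)) (Nat.unpair (Nat.pair (encode X) y)).1 ↔ _
      rw [Nat.unpair_pair, Denumerable.ofNat_encode]
      show (n, c I) ∈ (hF.toFinset.toList).map (fun q => (q.1, c q.2)) ↔ _
      rw [List.mem_map]
      constructor
      · rintro ⟨⟨n', I'⟩, hmem, heq⟩
        rw [Finset.mem_toList, Set.Finite.mem_toFinset] at hmem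
        obtain ⟨h1, h2, h3, h4⟩ := hmem
        simp only [Prod.mk.injEq] at heq
        have h5 : I = I' := hcinj I' h3 heq.2.symm
        rw [h5, ← heq.1]
        exact h4
      · intro h
        refine ⟨(n, I), ?_, rfl⟩
        rw [Finset.mem_toList, Set.Finite.mem_toFinset]
        exact ⟨hnN, hInd, hIk, h⟩
    have hE : ∃ u, p n u = true := by
      unfold dd at hd
      split_ifs at hd with h1 h2
      · exact h1
      · exact h1
    obtain ⟨hev, hfinal⟩ := hT n hE a ((hy2 n hnN).trans hya)
    by_cases hA : ∃ t, ∀ u, t ≤ u → p n u = true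
    · unfold PP
      rw [if_pos hA, hmx, ← hbit]
      exact ⟨fun h => h.2.2, fun h => ⟨hnd, hev, h⟩⟩
    · have hpa : p n a = false := by
        rcases hfinal with h | h
        · exact absurd h hA
        · exact h
      unfold PP
      rw [if_neg hA]
      unfold MR
      rw [hmx, hpa, cond_false, hev, Bool.true_and, Bool.and_eq_true, decide_eq_true_iff, hbit]
      exact ⟨fun h => h.2, fun h => ⟨hnd, h⟩⟩

end Pool.Agent.Helper750.CT
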