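import Pool.Agent.Helper750.CT.TP

set_option autoImplicit false

/-! Invariants of the isomorphism nodes. -/

namespace Pool.Agent.Helper750.CT

open Pool.Agent.Helper750.DC Pool.Agent.Helper446.RE Encodable Nat.Partrec

variable (ev : ℕ → ℕ → Bool)

/-- the possible changes of the memory of an isomorphism node -/
theorem even_step (s : ℕ) (η : List ℕ) (hη : η.length % 2 = 0) :
    (vis (path ev s) η = true ∧ (path ev s).getD η.length 0 = 2 ∧ (mem ev s η).1.1 = 0 ∧
      mem ev (s + 1) η = ((encode (H ev s) + 1, 0), [])) ∨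
    (vis (path ev s) η = true ∧ (path ev s).getD η.length 0 = 0 ∧ (mem ev s η).1.1 ≠ 0 ∧
      ∃ f, Good ev (η.length / 2) s (mem ev s η) f ∧
      mem ev (s + 1) η = (((mem ev s η).1.1, (mem ev s η).1.2 + 1), f)) ∨
    (vis (path ev s) η = true ∧ (path ev s).getD η.length 0 = 2 ∧ (mem ev s η).1.1 ≠ 0 ∧
      (∀ f, encode f < s → ¬ Good ev (η.length / 2) s (mem ev s η) f) ∧
      mem ev (s + 1) η = mem ev s η) ∨
    (vis (path ev s) η = false ∧ lft (path ev s) η = true ∧ mem ev (s + 1) η = dflt) ∨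
    (vis (path ev s) η = false ∧ lft (path ev s) η = false ∧
      mem ev (s + 1) η = mem ev s η) := by
  by_cases hv : vis (path ev s) η = true
  · have h1 := out_eq ev hv
    have h2 := mem_succ ev s η
    rw [if_pos hv] at h2
    rcases act_even ev s η hη with ⟨h3, h4⟩ | ⟨h3, f, h4, h5⟩ | ⟨h3, h4, h5⟩
    · rw [h4] at h1 h2
      exact Or.inl ⟨hv, h1, h3, h2⟩
    · rw [h5] at h1 h2
      exact Or.inr (Or.inl ⟨hv, h1, h3, f, h4, h2⟩)
    · rw [h5] at h1 h2
      exact Or.inr (Or.inr (Or.inl ⟨hv, h1, h3, h4, h2⟩))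
  · have h2 := mem_succ ev s η
    rw [if_neg hv] at h2
    rw [Bool.not_eq_true] at hv
    by_cases h3 : lft (path ev s) η = true
    · rw [if_pos h3] at h2
      exact Or.inr (Or.inr (Or.inr (Or.inl ⟨hv, h3, h2⟩)))
    · rw [if_neg h3] at h2
      rw [Bool.not_eq_true] at h3
      exact Or.inr (Or.inr (Or.inr (Or.inr ⟨hv, h3, h2⟩)))

/-- the invariant of isomorphism nodes -/
structure Inv (e s : ℕ) (v : V) : Prop where
  zero : v.1.1 = 0 → v.1.2 = 0 ∧ v.2 = []
  nod1 : (v.2.map Prod.fst).Nodup
  nod2 : (v.2.map Prod.snd).Nodup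
  lt : v.2 ≠ [] → v.1.1 ≤ v.2.length ∧ mx (v.2.map Prod.fst) < s ∧
    ∃ s', ∀ I : List ℕ, I.Nodup → (∀ i ∈ I, i < v.2.length) → Chk1 ev e s' v.2 I
  req : ∀ x < v.1.2, x ∈ v.2.map Prod.fst ∧ x ∈ v.2.map Prod.snd

theorem inv_empty (e s c : ℕ) : Inv ev e s ((c, 0), []) where
  zero := fun _ => ⟨rfl, rfl⟩
  nod1 := by simp
  nod2 := by simp
  lt := fun h => absurd rfl h
  req := fun x hx => by simp at hx

theorem inv (s : ℕ) (η : List ℕ) (hη : η.length % 2 = 0) :
    Inv ev (η.length / 2) s (mem ev s η) := by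
  induction s with
  | zero => exact inv_empty ev _ _ _
  | succ s ih =>
    have key : Inv ev (η.length / 2) (s + 1) (mem ev s η) :=
      ⟨ih.zero, ih.nod1, ih.nod2, fun h => by
        obtain ⟨h1, h2, h3⟩ := ih.lt h
        exact ⟨h1, by omega, h3⟩, ih.req⟩
    rcases even_step ev s η hη with h | ⟨h1, h2, h3, f, h4, h5⟩ | h | h | h
    · rw [h.2.2.2]; exact inv_empty ev _ _ _
    · rw [h5]
      refine ⟨fun h6 => absurd h6 h3, h4.nod1, h4.nod2, fun _ => ⟨h4.big, ?_, s, h4.chk⟩, ?_⟩
      · have := h4.lt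
        exact lt_trans this (Nat.lt_succ_self s)
      · intro x hx
        rcases Nat.lt_or_ge x (mem ev s η).1.2 with h6 | h6
        · obtain ⟨h7, h8⟩ := ih.req x h6
          have h9 : ∀ p ∈ (mem ev s η).2, p ∈ f := by
            intro p hp
            rw [← h4.pre] at hp
            exact List.mem_of_mem_take hp
          rw [List.mem_map] at h7 h8
          obtain ⟨p, hp, hp2⟩ := h7
          obtain ⟨q, hq, hq2⟩ := h8
          exact ⟨List.mem_map.2 ⟨p, h9 p hp, hp2⟩, List.mem_map.2 ⟨q, h9 q hq, hq2⟩⟩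
        · have : x = (mem ev s η).1.2 := by
            change x < (mem ev s η).1.2 + 1 at hx
            omega
          rw [this]
          exact ⟨h4.dom, h4.ran⟩
    · rw [h.2.2.2.2]; exact key
    · rw [h.2.2]; exact inv_empty ev _ _ _
    · rw [h.2.2]; exact key

/-- Without cancellations the memory grows. -/
theorem even_grow {s s' : ℕ} {η : List ℕ} (hη : η.length % 2 = 0) (hs : s ≤ s')
    (hl : ∀ t, s ≤ t → t < s' → lft (path ev t) η = false) :
    (mem ev s η).2 <+: (mem ev s' η).2 ∧ (mem ev s η).1.2 ≤ (mem ev s' η).1.2 ∧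
      ((mem ev s η).1.1 ≠ 0 → (mem ev s' η).1.1 = (mem ev s η).1.1) := by
  induction s', hs using Nat.le_induction with
  | base => exact ⟨List.prefix_rfl, le_rfl, fun _ => rfl⟩
  | succ s' hs ih =>
    obtain ⟨i1, i2, i3⟩ := ih fun t h1 h2 => hl t h1 (by omega)
    have hinv := inv ev s' η hη
    rcases even_step ev s' η hη with h | ⟨h1, h2, h3, f, h4, h5⟩ | h | h | h
    · rw [h.2.2.2]
      obtain ⟨h6, h7⟩ := hinv.zero h.2.2.1
      rw [h7] at i1
      rw [h6] at i2
      refine ⟨i1, i2, fun h8 => ?_⟩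
      exact absurd (h.2.2.1) (by rw [i3 h8]; exact h8)
    · rw [h5]
      refine ⟨?_, ?_, i3⟩
      · refine i1.trans ?_
        change (mem ev s' η).2 <+: f
        rw [← h4.pre]
        exact List.take_prefix _ _
      · change _ ≤ (mem ev s' η).1.2 + 1
        omega
    · rw [h.2.2.2.2]; exact ⟨i1, i2, i3⟩
    · have := hl s' hs (by omega)
      rw [h.2.1] at this
      exact absurd this (by simp)
    · rw [h.2.2]; exact ⟨i1, i2, i3⟩

/-- Without cancellations and outcome `0` the finite map does not change. -/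
theorem even_const {s s' : ℕ} {η : List ℕ} (hη : η.length % 2 = 0) (hs : s ≤ s')
    (hl : ∀ t, s ≤ t → t < s' → lft (path ev t) η = false ∧
      (vis (path ev t) η = true → (path ev t).getD η.length 0 ≠ 0)) :
    (mem ev s' η).2 = (mem ev s η).2 := by
  induction s', hs using Nat.le_induction with
  | base => rfl
  | succ s' hs ih =>
    have i1 := ih fun t h1 h2 => hl t h1 (by omega)
    have hinv := inv ev s' η hη
    rcases even_step ev s' η hη with h | ⟨h1, h2, h3, f, h4, h5⟩ | h | h | h
    · rw [h.2.2.2, ← i1, (hinv.zero h.2.2.1).2]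
    · exact absurd h2 ((hl s' hs (by omega)).2 h1)
    · rw [h.2.2.2.2, i1]
    · have := (hl s' hs (by omega)).1
      rw [h.2.1] at this
      exact absurd this (by simp)
    · rw [h.2.2, i1]

/-! ### codes -/

theorem mem_le_encode {α : Type} [Primcodable α] {a : α} {l : List α} (h : a ∈ l) :
    encode a ≤ encode l := by
  induction l with
  | nil => simp at h
  | cons b l ih =>
    rw [Encodable.encode_list_cons]
    have h1 := Nat.left_le_pair (encode b) (encode l)
    have h2 := Nat.right_le_pair (encode b) (encode l)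
    rcases List.mem_cons.1 h with rfl | h
    · omega
    · have := ih h
      omega

theorem lk_mem_or (h : Hist) (ρ : List ℕ) (u : ℕ) :
    lk h ρ u = dflt ∨ ∃ r ∈ h, ∃ e ∈ r, lk h ρ u = e.2 := by
  induction u with
  | zero => exact Or.inl rfl
  | succ u ih =>
    simp only [lk]
    by_cases h1 : vis (outs h u) ρ = true
    · rw [h1, cond_true]
      rcases h2 : h[u]? with _ | r
      · left; simp
      · rcases h3 : r[ρ.length]? with _ | e
        · left; simp [h3]
        · right
          refine ⟨r, List.mem_of_getElem? h2, e, List.mem_of_getElem? h3, ?_⟩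
          simp [h3]
    · rw [Bool.not_eq_true] at h1
      rw [h1, cond_false]
      by_cases h2 : lft (outs h u) ρ = true
      · rw [h2, cond_true]; exact Or.inl rfl
      · rw [Bool.not_eq_true] at h2
        rw [h2, cond_false]; exact ih

theorem snd_le_encode {α β : Type} [Primcodable α] [Primcodable β] (x : α × β) :
    encode x.2 ≤ encode x := by
  obtain ⟨a, b⟩ := x
  rw [Encodable.encode_prod_val]
  exact Nat.right_le_pair _ _

theorem slot_le_encode {s : ℕ} {ρ : List ℕ} {n : ℕ} (h : (mem ev s ρ).2 = [(n, 0)]) :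
    n ≤ encode (H ev s) := by
  rcases lk_mem_or (H ev s) ρ s with h1 | ⟨r, h1, e, h2, h3⟩
  · unfold mem at h
    rw [h1] at h
    simp [dflt] at h
  · unfold mem at h
    rw [h3] at h
    have h4 := mem_le_encode h1
    have h5 := mem_le_encode h2
    have h6 : encode e.2 ≤ encode e := snd_le_encode e
    have h7 : encode e.2.2 ≤ encode e.2 := snd_le_encode e.2
    have h8 : encode ((n, 0) : ℕ × ℕ) ≤ encode e.2.2 := by
      rw [h]
      exact mem_le_encode (by simp)
    have h9 : n ≤ encode ((n, 0) : ℕ × ℕ) := by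
      rw [Encodable.encode_prod_val]
      exact Nat.left_le_pair _ _
    omega

end Pool.Agent.Helper750.CT
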