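import Pool.Agent.Helper750.CT.Base
set_option autoImplicit false

namespace Pool.Agent.Helper750.CT

open Pool.Agent.Helper750.DC Pool.Agent.Helper446.RE Encodable Nat.Partrec

/-- composite of a list with a list of indices -/
def QI_ext_sel (as I : List ℕ) : List ℕ := I.map fun i => as.getD i 0

/-- preservation of the relations `P_n`, `n < N` -/
def QI_ext_PP (d : ℕ → Option ℕ) (P : ℕ → List ℕ → Prop) (N : ℕ) (as cs : List ℕ) : Prop :=
  ∀ n m, n < N → d n = some m → ∀ J : List ℕ, J.Nodup → J.length = m →
    (∀ i ∈ J, i < as.length) → (P n (QI_ext_sel as J) ↔ P n (QI_ext_sel cs J))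

/-- preservation of the relations of `M` -/
def QI_ext_QM (M : Str) (as cs : List ℕ) : Prop :=
  ∀ I : List ℕ, I.Nodup → (∀ i ∈ I, i < as.length) →
    (M.R I.length (QI_ext_sel as I) ↔ M.R I.length (QI_ext_sel cs I))

theorem QI_ext_sel_length (as I : List ℕ) : (QI_ext_sel as I).length = I.length :=
  List.length_map _

theorem QI_ext_sel_take (as I : List ℕ) (m : ℕ) :
    (QI_ext_sel as I).take m = QI_ext_sel as (I.take m) := by
  unfold QI_ext_sel
  rw [List.map_take]

theorem QI_ext_sel_nodup {as I : List ℕ} (ha : as.Nodup) (hI : I.Nodup)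
    (hb : ∀ i ∈ I, i < as.length) : (QI_ext_sel as I).Nodup := by
  unfold QI_ext_sel
  refine List.Nodup.map_on ?_ hI
  intro i hi j hj hij
  rw [List.getD_eq_getElem _ _ (hb i hi), List.getD_eq_getElem _ _ (hb j hj)] at hij
  exact (ha.getElem_inj_iff).mp hij

theorem QI_ext_le {J : List ℕ} {L : ℕ} (hJ : J.Nodup) (hb : ∀ i ∈ J, i < L) : J.length ≤ L := by
  have h1 : J ⊆ List.range L := fun i hi => List.mem_range.mpr (hb i hi)
  have := (hJ.subperm h1).length_le
  rwa [List.length_range] at this

theorem QI_ext_index (L : ℕ) : ∀ (k : ℕ) (J : List ℕ), J.Nodup → (∀ i ∈ J, i < L) →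
    J.length + k ≤ L → ∃ I : List ℕ, I.Nodup ∧ (∀ i ∈ I, i < L) ∧ I.length = J.length + k ∧
      I.take J.length = J := by
  intro k
  induction k with
  | zero =>
    intro J h1 h2 _
    exact ⟨J, h1, h2, by simp, by simp⟩
  | succ k ih =>
    intro J h1 h2 h3
    obtain ⟨x, hx, hxJ⟩ : ∃ x, x < L ∧ x ∉ J := by
      by_contra hcon
      push Not at hcon
      have h4 : List.range L ⊆ J := fun i hi => hcon i (List.mem_range.mp hi)
      have := ((List.nodup_range (n := L)).subperm h4).length_le
      rw [List.length_range] at this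
      omega
    obtain ⟨I, i1, i2, i3, i4⟩ := ih (J ++ [x])
      (by
        rw [List.nodup_append]
        refine ⟨h1, by simp, ?_⟩
        intro a ha b hb
        rw [List.mem_singleton] at hb
        rw [hb]
        rintro rfl
        exact hxJ ha)
      (by
        intro i hi
        rw [List.mem_append, List.mem_singleton] at hi
        rcases hi with hi | hi
        · exact h2 i hi
        · rw [hi]; exact hx)
      (by rw [List.length_append, List.length_singleton]; omega)
    refine ⟨I, i1, i2, ?_, ?_⟩
    · rw [i3, List.length_append, List.length_singleton]; omega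
    · have h5 : (I.take (J ++ [x]).length).take J.length = (J ++ [x]).take J.length := by rw [i4]
      rw [List.take_take, List.length_append, List.length_singleton,
        min_eq_left (by omega)] at h5
      rw [h5]
      simp

theorem QI_ext_A {d : ℕ → Option ℕ} {P : ℕ → List ℕ → Prop} {M : Str} (hM : IsGen d P M)
    {as cs : List ℕ} (ha : as.Nodup) (hc : cs.Nodup) (hl : as.length = cs.length)
    (hQ : QI_ext_QM M as cs)
    (hd : ∀ n m, as.length < n → n ≤ as.length + 2 → d n = some m → m = n) :
    QI_ext_PP d P (as.length + 3) as cs := by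
  intro n m hn hdn J hJ hJm hJb
  rcases Nat.lt_or_ge as.length n with h | h
  · have h1 := hd n m h (by omega) hdn
    have h2 := QI_ext_le hJ hJb
    omega
  · have hmn := (hM.le n m hdn).2
    obtain ⟨I, i1, i2, i3, i4⟩ := QI_ext_index as.length (n - m) J hJ hJb (by omega)
    have hIn : I.length = n := by omega
    have key : ∀ xs : List ℕ, xs.Nodup → (∀ i ∈ I, i < xs.length) →
        (M.R I.length (QI_ext_sel xs I) ↔ P n (QI_ext_sel xs J)) := by
      intro xs hx hxb
      have h1 := hM.rel (QI_ext_sel xs I)
      rw [QI_ext_sel_length] at h1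
      rw [h1]
      constructor
      · rintro ⟨_, m', hm', hP⟩
        rw [hIn] at hm' hP
        have : m' = m := by
          rw [hdn] at hm'
          exact (Option.some.inj hm').symm
        rw [this, QI_ext_sel_take, ← hJm, i4] at hP
        exact hP
      · intro hP
        refine ⟨QI_ext_sel_nodup hx i1 hxb, m, by rw [hIn]; exact hdn, ?_⟩
        rw [QI_ext_sel_take, ← hJm, i4, hIn]
        exact hP
    rw [← key as ha i2, ← key cs hc (fun i hi => by rw [← hl]; exact i2 i hi)]
    exact hQ I i1 i2

theorem QI_ext_C {d : ℕ → Option ℕ} {P : ℕ → List ℕ → Prop} {M : Str} (hM : IsGen d P M)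
    {N : ℕ} {as cs : List ℕ} (ha : as.Nodup) (hc : cs.Nodup) (hl : as.length = cs.length)
    (hN : as.length < N) (hP : QI_ext_PP d P N as cs) : QI_ext_QM M as cs := by
  intro I hI hIb
  have h1 := hM.rel (QI_ext_sel as I)
  have h2 := hM.rel (QI_ext_sel cs I)
  rw [QI_ext_sel_length] at h1 h2
  rw [h1, h2]
  have n1 := QI_ext_sel_nodup ha hI hIb
  have n2 := QI_ext_sel_nodup hc hI (fun i hi => by rw [← hl]; exact hIb i hi)
  have hIN : I.length < N := lt_of_le_of_lt (QI_ext_le hI hIb) hN
  have key : ∀ m, d I.length = some m → (P I.length ((QI_ext_sel as I).take m) ↔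
      P I.length ((QI_ext_sel cs I).take m)) := by
    intro m hm
    rw [QI_ext_sel_take, QI_ext_sel_take]
    refine hP I.length m hIN hm (I.take m) (hI.sublist (List.take_sublist _ _)) ?_ ?_
    · rw [List.length_take]
      exact min_eq_left (hM.le _ _ hm).2
    · intro i hi
      exact hIb i (List.mem_of_mem_take hi)
  constructor
  · rintro ⟨_, m, hm, h⟩
    exact ⟨n2, m, hm, (key m hm).mp h⟩
  · rintro ⟨_, m, hm, h⟩
    exact ⟨n1, m, hm, (key m hm).mpr h⟩

theorem QI_ext_sel_append {as u J : List ℕ} (hJ : ∀ i ∈ J, i < as.length) :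
    QI_ext_sel (as ++ u) J = QI_ext_sel as J := by
  unfold QI_ext_sel
  refine List.map_congr_left fun i hi => ?_
  rw [List.getD_eq_getElem _ _ (hJ i hi),
    List.getD_eq_getElem _ _ (by rw [List.length_append]; have := hJ i hi; omega),
    List.getElem_append_left]

theorem QI_ext_step {d : ℕ → Option ℕ} {P : ℕ → List ℕ → Prop} {M : Str} (hM : IsGen d P M)
    {N : ℕ} {as cs : List ℕ} (ha : as.Nodup) (hc : cs.Nodup) (hl : as.length = cs.length)
    (hP : QI_ext_PP d P N as cs) (r : ℕ) :
    ∃ u v : List ℕ, u.length = v.length ∧ u.length ≤ 1 ∧ r ∈ as ++ u ∧ (as ++ u).Nodup ∧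
      (cs ++ v).Nodup ∧ QI_ext_PP d P N (as ++ u) (cs ++ v) := by
  by_cases hr : r ∈ as
  · exact ⟨[], [], rfl, by simp, by simpa using hr, by simpa using ha, by simpa using hc,
      by simpa using hP⟩
  · obtain ⟨c, hcc, hext⟩ := hM.ext cs N (fun n I => P n (QI_ext_sel (as ++ [r]) I)) hc
    have nd : ∀ (xs : List ℕ) (x : ℕ), xs.Nodup → x ∉ xs → (xs ++ [x]).Nodup := by
      intro xs x h1 h2
      rw [List.nodup_append]
      refine ⟨h1, by simp, ?_⟩
      intro a ha b hb
      rw [List.mem_singleton] at hb
      rw [hb]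
      rintro rfl
      exact h2 ha
    refine ⟨[r], [c], rfl, by simp, by simp, nd _ _ ha hr, nd _ _ hc hcc, ?_⟩
    intro n m hn hdn J hJ hJm hJb
    by_cases hJL : cs.length ∈ J
    · refine (hext n m J hn hdn hJm hJ ?_ hJL).symm
      intro i hi
      have := hJb i hi
      rw [List.length_append, List.length_singleton] at this
      omega
    · have hJb' : ∀ i ∈ J, i < as.length := by
        intro i hi
        have h1 := hJb i hi
        rw [List.length_append, List.length_singleton] at h1
        have h2 : i ≠ cs.length := by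
          rintro rfl
          exact hJL hi
        omega
      rw [QI_ext_sel_append hJb', QI_ext_sel_append (fun i hi => by rw [← hl]; exact hJb' i hi)]
      exact hP n m hn hdn J hJ hJm hJb'

theorem QI_ext_PP_symm {d : ℕ → Option ℕ} {P : ℕ → List ℕ → Prop} {N : ℕ} {as cs : List ℕ}
    (hl : as.length = cs.length) (hP : QI_ext_PP d P N as cs) : QI_ext_PP d P N cs as := by
  intro n m hn hdn J hJ hJm hJb
  exact (hP n m hn hdn J hJ hJm (fun i hi => by rw [hl]; exact hJb i hi)).symm

/-- translation between `QI` and `QI_ext_QM` -/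
theorem QI_ext_tr {M B : Str} {g : ℕ → ℕ} (hg : IsIso LL M B g) {f : List (ℕ × ℕ)}
    {as cs : List ℕ} (h1 : f.map Prod.fst = as) (h2 : f.map Prod.snd = cs.map g) :
    QI M B f ↔ QI_ext_QM M as cs := by
  have hl : f.length = as.length := by rw [← h1, List.length_map]
  have hlc : f.length = cs.length := by
    have := congrArg List.length h2
    rwa [List.length_map, List.length_map] at this
  have e1 : ∀ I : List ℕ, (∀ i ∈ I, i < as.length) →
      (I.map fun i => ((f[i]?).getD (0, 0)).1) = QI_ext_sel as I := by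
    intro I hI
    unfold QI_ext_sel
    refine List.map_congr_left fun i hi => ?_
    have hi' : i < f.length := by rw [hl]; exact hI i hi
    rw [List.getElem?_eq_getElem hi', Option.getD_some, List.getD_eq_getElem _ _ (hI i hi)]
    subst h1
    rw [List.getElem_map]
  have e2 : ∀ I : List ℕ, (∀ i ∈ I, i < as.length) →
      (I.map fun i => ((f[i]?).getD (0, 0)).2) = (QI_ext_sel cs I).map g := by
    intro I hI
    unfold QI_ext_sel
    rw [List.map_map]
    refine List.map_congr_left fun i hi => ?_
    have hi' : i < f.length := by rw [hl]; exact hI i hi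
    have hi'' : i < cs.length := by rw [← hlc]; exact hi'
    rw [List.getElem?_eq_getElem hi', Option.getD_some, Function.comp,
      List.getD_eq_getElem _ _ hi'']
    have h3 : (f.map Prod.snd)[i]'(by rw [List.length_map]; exact hi') =
        (cs.map g)[i]'(by rw [List.length_map]; exact hi'') := by
      simp only [h2]
    rw [List.getElem_map, List.getElem_map] at h3
    exact h3
  have e3 : ∀ I : List ℕ, (B.R I.length ((QI_ext_sel cs I).map g) ↔
      M.R I.length (QI_ext_sel cs I)) := by
    intro I
    exact (hg.2.1 I.length (QI_ext_sel cs I) (by rw [QI_ext_sel_length]; rfl)).symm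
  constructor
  · intro hQ I hI hIb
    have := hQ I hI (fun i hi => by rw [hl]; exact hIb i hi)
    rw [e1 I hIb, e2 I hIb, e3] at this
    exact this
  · intro hQ I hI hIb
    have hIb' : ∀ i ∈ I, i < as.length := fun i hi => by rw [← hl]; exact hIb i hi
    rw [e1 I hIb', e2 I hIb', e3]
    exact hQ I hI hIb'

theorem QI_ext (d : ℕ → Option ℕ) (P : ℕ → List ℕ → Prop) (M B : Str) (hM : IsGen d P M)
    (g : ℕ → ℕ) (hg : IsIso LL M B g) (f : List (ℕ × ℕ)) (hf0 : f ≠ [])
    (hf1 : (f.map Prod.fst).Nodup) (hf2 : (f.map Prod.snd).Nodup) (hf : QI M B f)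
    (hd : ∀ n m, f.length < n → n ≤ f.length + 2 → d n = some m → m = n) (r : ℕ) :
    ∃ f' : List (ℕ × ℕ), f'.take f.length = f ∧ f'.length ≤ f.length + 2 ∧
      r ∈ f'.map Prod.fst ∧ r ∈ f'.map Prod.snd ∧ (f'.map Prod.fst).Nodup ∧
      (f'.map Prod.snd).Nodup ∧ QI M B f' := by
  clear hf0
  let e := Equiv.ofBijective g hg.1
  have hge : ∀ y, g (e.symm y) = y := fun y => e.apply_symm_apply y
  set as := f.map Prod.fst with has
  set cs := (f.map Prod.snd).map e.symm with hcs
  have hbs : f.map Prod.snd = cs.map g := by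
    rw [hcs, List.map_map]
    conv_lhs => rw [← List.map_id (f.map Prod.snd)]
    refine List.map_congr_left fun y _ => ?_
    exact (hge y).symm
  have hlas : as.length = f.length := List.length_map _
  have hlcs : cs.length = f.length := by rw [hcs, List.length_map, List.length_map]
  have hl : as.length = cs.length := by rw [hlas, hlcs]
  have hcN : cs.Nodup := hf2.map e.symm.injective
  have hQM : QI_ext_QM M as cs := (QI_ext_tr hg rfl hbs).mp hf
  have hPP := QI_ext_A hM hf1 hcN hl hQM (by rw [hlas]; exact hd)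
  obtain ⟨u, v, huv, hu1, hru, hnu, hnv, hPP1⟩ := QI_ext_step hM hf1 hcN hl hPP r
  have hl1 : (as ++ u).length = (cs ++ v).length := by
    rw [List.length_append, List.length_append, hl, huv]
  obtain ⟨v', u', huv', hu1', hru', hnv', hnu', hPP2⟩ :=
    QI_ext_step hM hnv hnu hl1.symm (QI_ext_PP_symm hl1 hPP1) (e.symm r)
  have hl2 : (cs ++ v ++ v').length = (as ++ u ++ u').length := by
    rw [List.length_append, List.length_append (as := as ++ u), hl1, huv']
  have hPP3 := QI_ext_PP_symm hl2 hPP2
  have hlen : (as ++ u ++ u').length ≤ f.length + 2 := by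
    rw [List.length_append, List.length_append, hlas]
    omega
  have hQM' : QI_ext_QM M (as ++ u ++ u') (cs ++ v ++ v') :=
    QI_ext_C hM hnu' hnv' hl2.symm (by omega) hPP3
  let f' : List (ℕ × ℕ) := f ++ List.zip (u ++ u') ((v ++ v').map g)
  have huu : (u ++ u').length = ((v ++ v').map g).length := by
    rw [List.length_map, List.length_append, List.length_append, huv, huv']
  have hf'1 : f'.map Prod.fst = as ++ u ++ u' := by
    show (f ++ List.zip (u ++ u') ((v ++ v').map g)).map Prod.fst = _
    rw [List.map_append, List.map_fst_zip (le_of_eq huu), ← has, List.append_assoc]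
  have hf'2 : f'.map Prod.snd = (cs ++ v ++ v').map g := by
    show (f ++ List.zip (u ++ u') ((v ++ v').map g)).map Prod.snd = _
    rw [List.map_append, List.map_snd_zip (le_of_eq huu.symm), hbs, ← List.map_append,
      List.append_assoc]
  refine ⟨f', ?_, ?_, ?_, ?_, ?_, ?_, ?_⟩
  · simp [f']
  · have : f'.length = (as ++ u ++ u').length := by rw [← hf'1, List.length_map]
    rw [this]
    exact hlen
  · rw [hf'1]
    exact List.mem_append_left _ hru
  · rw [hf'2, List.mem_map]
    exact ⟨e.symm r, hru', hge r⟩
  · rw [hf'1]; exact hnu'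
  · rw [hf'2]; exact hnv'.map hg.1.1
  · exact (QI_ext_tr hg hf'1 hf'2).mpr hQM'

end Pool.Agent.Helper750.CT
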