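import Pool.Agent.Helper750.CT.Defs
set_option autoImplicit false

namespace Pool.Agent.Helper750.CT

open Pool.Agent.Helper750.DC Pool.Agent.Helper446.RE Encodable Nat.Partrec

/-- approximation of the halting problem -/
def evKs (s i : ℕ) : ℕ := bif (Code.evaln s (Denumerable.ofNat Code i) i).isSome then 1 else 0

theorem evKs_primrec : Primrec₂ evKs := by
  have h1 : Primrec fun q : ℕ × ℕ => Code.evaln q.1 (Denumerable.ofNat Code q.2) q.2 :=
    Code.primrec_evaln.comp (((Primrec.fst).pair ((Primrec.ofNat Code).comp Primrec.snd)).pair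
      Primrec.snd)
  exact Primrec.cond (Primrec.option_isSome.comp h1) (Primrec.const 1) (Primrec.const 0)

theorem evKs_lim (i : ℕ) : ∃ s0, ∀ s, s0 ≤ s → evKs s i = chi K i := by
  classical
  by_cases h : i ∈ K
  · have h' : ((Denumerable.ofNat Code i).eval i).Dom := h
    rw [Part.dom_iff_mem] at h'
    obtain ⟨y, hy⟩ := h'
    obtain ⟨k, hk⟩ := Code.evaln_complete.1 hy
    refine ⟨k, fun s hs => ?_⟩
    have h2 := Code.evaln_mono hs hk
    rw [Option.mem_def] at h2
    have h3 : chi K i = 1 := by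
      unfold chi
      rw [if_pos h]
    rw [h3]
    unfold evKs
    rw [h2]
    rfl
  · refine ⟨0, fun s _ => ?_⟩
    have h3 : chi K i = 0 := by
      unfold chi
      rw [if_neg h]
    rw [h3]
    unfold evKs
    rcases hh : Code.evaln s (Denumerable.ofNat Code i) i with _ | y
    · rfl
    · exfalso
      apply h
      have h4 : y ∈ (Denumerable.ofNat Code i).eval i :=
        Code.evaln_complete.2 ⟨s, Option.mem_def.2 hh⟩
      exact Part.dom_iff_mem.2 ⟨y, h4⟩

theorem evKs_pre_lim (n : ℕ) : ∃ s0, ∀ s, s0 ≤ s →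
    Pool.Agent.Helper743.pre (evKs s) n = Pool.Agent.Helper743.pre (chi K) n := by
  induction n with
  | zero => exact ⟨0, fun s _ => rfl⟩
  | succ n ih =>
    obtain ⟨s0, h0⟩ := ih
    obtain ⟨s1, h1⟩ := evKs_lim n
    refine ⟨max s0 s1, fun s hs => ?_⟩
    rw [Pool.Agent.Helper743.pre_succ, Pool.Agent.Helper743.pre_succ,
      h0 s ((le_max_left _ _).trans hs), h1 s ((le_max_right _ _).trans hs)]

theorem evKs_pre_computable :
    Computable fun s : ℕ => Pool.Agent.Helper743.pre (evKs s) s := by
  unfold Pool.Agent.Helper743.pre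
  exact (Primrec.list_map Primrec.list_range evKs_primrec).to_comp

/-- the limit lemma -/
theorem exists_lim (S : Set ℕ) (hS : TLe (chi S) (chi K)) :
    ∃ h : ℕ → ℕ → ℕ, Computable₂ h ∧ ∀ x, ∃ s0, ∀ s, s0 ≤ s → h x s = chi S x := by
  have h1 : Pool.Agent.Helper743.TR (chi S) (chi K) := Pool.Agent.Helper743.TR_iff.2 hS
  obtain ⟨ev0, hc, hm, hev⟩ := Pool.Agent.Helper743.use_principle (chi K) _ h1
  refine ⟨fun x s => (ev0 (Pool.Agent.Helper743.pre (evKs s) s) x).getD 0, ?_, ?_⟩
  · have h2 : Computable fun q : ℕ × ℕ =>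
        ev0 (Pool.Agent.Helper743.pre (evKs q.2) q.2) q.1 :=
      hc.comp (evKs_pre_computable.comp Computable.snd) Computable.fst
    exact Computable.option_getD h2 (Computable.const 0)
  · intro x
    obtain ⟨n, hn⟩ := (hev x (chi S x)).1 (Part.mem_some _)
    obtain ⟨s0, hs0⟩ := evKs_pre_lim n
    refine ⟨max s0 n, fun s hs => ?_⟩
    have h3 := hs0 s ((le_max_left _ _).trans hs)
    have h4 := Pool.Agent.Helper743.pre_prefix (evKs s) ((le_max_right s0 n).trans hs)
    rw [h3] at h4
    have h5 := hm _ _ x _ h4 hn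
    change (ev0 (Pool.Agent.Helper743.pre (evKs s) s) x).getD 0 = chi S x
    rw [h5]
    rfl

/-- the events: an element enters the domain of the function with code `k` -/
def evD (k u : ℕ) : Bool :=
  (Code.evaln u.unpair.2 (Denumerable.ofNat Code k) u.unpair.1).isSome &&
    !((Code.evaln (u.unpair.2 - 1) (Denumerable.ofNat Code k) u.unpair.1).isSome)

theorem evD_computable : Computable₂ evD := by
  have hc : Computable fun q : ℕ × ℕ => Denumerable.ofNat Code q.1 :=
    (Computable.ofNat Code).comp Computable.fst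
  have hu : Computable fun q : ℕ × ℕ => q.2.unpair := Computable.unpair.comp Computable.snd
  have hu1 : Computable fun q : ℕ × ℕ => q.2.unpair.1 := Computable.fst.comp hu
  have hu2 : Computable fun q : ℕ × ℕ => q.2.unpair.2 := Computable.snd.comp hu
  have hu3 : Computable fun q : ℕ × ℕ => q.2.unpair.2 - 1 := csub hu2 (cconst 1)
  have h1 : Computable fun x : (ℕ × Code) × ℕ => (Code.evaln x.1.1 x.1.2 x.2) :=
    Code.primrec_evaln.to_comp
  have h2 : Computable fun q : ℕ × ℕ =>
      Code.evaln q.2.unpair.2 (Denumerable.ofNat Code q.1) q.2.unpair.1 :=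
    h1.comp ((hu2.pair hc).pair hu1)
  have h3 : Computable fun q : ℕ × ℕ =>
      Code.evaln (q.2.unpair.2 - 1) (Denumerable.ofNat Code q.1) q.2.unpair.1 :=
    h1.comp ((hu3.pair hc).pair hu1)
  exact cand (cisSome h2) (cnot (cisSome h3))

theorem evD_isSome_mono {k t s s' : ℕ} (h : s ≤ s')
    (hs : (Code.evaln s (Denumerable.ofNat Code k) t).isSome) :
    (Code.evaln s' (Denumerable.ofNat Code k) t).isSome := by
  obtain ⟨y, hy⟩ := Option.isSome_iff_exists.1 hs
  have := Code.evaln_mono h (Option.mem_def.2 hy)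
  rw [Option.mem_def] at this
  rw [this]
  rfl

theorem evD_finite (k : ℕ) : {u | evD k u = true}.Finite ↔
    {t | ((Denumerable.ofNat Code k).eval t).Dom}.Finite := by
  have himg : (fun u : ℕ => u.unpair.1) '' {u | evD k u = true} =
      {t | ((Denumerable.ofNat Code k).eval t).Dom} := by
    ext t
    constructor
    · rintro ⟨u, hu, rfl⟩
      have hu' : evD k u = true := hu
      unfold evD at hu'
      rw [Bool.and_eq_true] at hu'
      obtain ⟨y, hy⟩ := Option.isSome_iff_exists.1 hu'.1
      exact Part.dom_iff_mem.2 ⟨y, Code.evaln_complete.2 ⟨_, Option.mem_def.2 hy⟩⟩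
    · intro ht
      have ht' : ((Denumerable.ofNat Code k).eval t).Dom := ht
      rw [Part.dom_iff_mem] at ht'
      obtain ⟨y, hy⟩ := ht'
      have hex : ∃ s, (Code.evaln s (Denumerable.ofNat Code k) t).isSome = true := by
        obtain ⟨s, hs⟩ := Code.evaln_complete.1 hy
        rw [Option.mem_def] at hs
        exact ⟨s, by rw [hs]; rfl⟩
      classical
      refine ⟨Nat.pair t (Nat.find hex), ?_, by simp⟩
      change evD k _ = true
      unfold evD
      rw [Bool.and_eq_true]
      simp only [Nat.unpair_pair]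
      refine ⟨Nat.find_spec hex, ?_⟩
      have hpos : Nat.find hex ≠ 0 := by
        intro h0
        have h1 := Nat.find_spec hex
        rw [h0] at h1
        simp [Code.evaln] at h1
      have hmin := Nat.find_min hex (m := Nat.find hex - 1) (by omega)
      simpa using hmin
  have hinj : Set.InjOn (fun u : ℕ => u.unpair.1) {u | evD k u = true} := by
    intro u hu v hv huv
    have hu' : evD k u = true := hu
    have hv' : evD k v = true := hv
    have huv' : u.unpair.1 = v.unpair.1 := huv
    unfold evD at hu' hv'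
    rw [Bool.and_eq_true] at hu' hv'
    have h2 : u.unpair.2 = v.unpair.2 := by
      rcases lt_trichotomy u.unpair.2 v.unpair.2 with h | h | h
      · exfalso
        have h3 := evD_isSome_mono (show u.unpair.2 ≤ v.unpair.2 - 1 by omega) hu'.1
        rw [huv'] at h3
        have h4 := hv'.2
        rw [h3] at h4
        simp at h4
      · exact h
      · exfalso
        have h3 := evD_isSome_mono (show v.unpair.2 ≤ u.unpair.2 - 1 by omega) hv'.1
        rw [← huv'] at h3
        have h4 := hu'.2
        rw [h3] at h4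
        simp at h4
    rw [← Nat.pair_unpair u, ← Nat.pair_unpair v, huv', h2]
  rw [← himg, Set.finite_image_iff hinj]

theorem exists_ev : ∃ ev : ℕ → ℕ → Bool, Computable₂ ev ∧
    ¬ TLe (chi {k | {u | ev k u = true}.Finite}) (chi K) := by
  classical
  refine ⟨evD, evD_computable, fun hT => ?_⟩
  obtain ⟨h, hh, hlim⟩ := exists_lim _ hT
  have hp : Partrec₂ (fun (c : Code) (t : ℕ) =>
      (bif decide (h (encode c) t = 1) then Part.some 0 else Part.none : Part ℕ)) := by
    have h1 : Computable fun q : Code × ℕ => h (encode q.1) q.2 :=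
      hh.comp (Computable.encode.comp Computable.fst) Computable.snd
    have h2 : Computable fun q : Code × ℕ => decide (h (encode q.1) q.2 = 1) :=
      cdecide (cp_eq h1 (cconst 1))
    exact Partrec.cond h2 (Computable.const 0).partrec Partrec.none
  obtain ⟨c, hc⟩ := Code.fixed_point₂ hp
  have hdom : ∀ t, (c.eval t).Dom ↔ h (encode c) t = 1 := by
    intro t
    rw [hc]
    by_cases ht : h (encode c) t = 1
    · simp [ht]
    · simp [ht]
  obtain ⟨s0, hs0⟩ := hlim (encode c)
  have hfin : (encode c ∈ {k | {u | evD k u = true}.Finite}) ↔ {t | h (encode c) t = 1}.Finite := by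
    change {u | evD (encode c) u = true}.Finite ↔ _
    rw [evD_finite, Denumerable.ofNat_encode]
    simp only [hdom]
  by_cases hmem : encode c ∈ {k | {u | evD k u = true}.Finite}
  · have hf := hfin.1 hmem
    have hval : ∀ s, s0 ≤ s → h (encode c) s = 1 := by
      intro s hs
      rw [hs0 s hs]
      unfold chi
      rw [if_pos hmem]
    exact (Set.Ici_infinite s0) (hf.subset fun s hs => hval s hs)
  · apply hmem
    rw [hfin]
    have hval : ∀ s, s0 ≤ s → h (encode c) s = 0 := by
      intro s hs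
      rw [hs0 s hs]
      unfold chi
      rw [if_neg hmem]
    refine (Set.finite_Iio s0).subset fun s hs => ?_
    have hs1 : h (encode c) s = 1 := hs
    rw [Set.mem_Iio]
    by_contra hcon
    rw [hval s (not_lt.1 hcon)] at hs1
    exact absurd hs1 (by norm_num)

theorem locs_K_bd (L : ℕ) : Computable (bd L) := by
  have h := Computable.nat_rec (f := fun k : ℕ => k) (g := fun _ : ℕ => 1)
    (h := fun (_ : ℕ) (y : ℕ × ℕ) => Nat.pair L y.2 + 2) Computable.id (Computable.const 1)
    (cadd (cnatpair (cconst L) (csnd (csnd cid))) (cconst 2))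
  refine h.of_eq fun k => ?_
  simp only
  induction k with
  | zero => rfl
  | succ k ih => simp only [bd]; rw [← ih]

/-- bounded search -/
def locs_K_F (g : ℕ → ℕ) (k : ℕ) : ℕ → ℕ
  | 0 => 0
  | n + 1 => max (locs_K_F g k n) (g (2 * Nat.pair k n + 2))

open Classical in
theorem locs_K_F_spec (R : Set ℕ) (k n : ℕ) :
    locs_K_F (chi R) k n = if ∃ c < n, 2 * Nat.pair k c + 2 ∈ R then 1 else 0 := by
  induction n with
  | zero => simp [locs_K_F]
  | succ n ih =>
    rw [locs_K_F, ih]
    unfold chi
    by_cases h1 : ∃ c < n, 2 * Nat.pair k c + 2 ∈ R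
    · have h2 : ∃ c < n + 1, 2 * Nat.pair k c + 2 ∈ R := by
        obtain ⟨c, hc, hR⟩ := h1
        exact ⟨c, by omega, hR⟩
      rw [if_pos h1, if_pos h2]
      split_ifs <;> rfl
    · rw [if_neg h1]
      by_cases h3 : 2 * Nat.pair k n + 2 ∈ R
      · rw [if_pos h3, if_pos ⟨n, by omega, h3⟩]
        rfl
      · rw [if_neg h3, if_neg]
        · rfl
        · rintro ⟨c, hc, hR⟩
          rcases Nat.lt_succ_iff_lt_or_eq.1 hc with h4 | h4
          · exact h1 ⟨c, h4, hR⟩
          · subst h4
            exact h3 hR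

theorem locs_K (R : Set ℕ) (hR : TLe (chi R) (chi K)) :
    TLe (chi {k | ∃ m ∈ locs k, m ∈ R}) (chi K) := by
  classical
  have h1 : Pool.Agent.Helper743.TR (chi R) (chi K) := Pool.Agent.Helper743.TR_iff.2 hR
  refine Pool.Agent.Helper743.TR_iff.1 ?_
  have c1 : Computable (fun z : ℕ => 2 * Nat.pair z.unpair.1 z.unpair.2.unpair.1 + 2) :=
    cadd (cmul (cconst 2) (cnatpair (cfst (cunpair cid))
      (cfst (cunpair (csnd (cunpair cid)))))) (cconst 2)
  have c2 : Computable (fun z : ℕ => z.unpair.2.unpair.2) :=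
    csnd (cunpair (csnd (cunpair cid)))
  have c3 : Computable (fun z : ℕ => max z.unpair.1 z.unpair.2) :=
    cmax (cfst (cunpair cid)) (csnd (cunpair cid))
  have h2 : Pool.Agent.Helper743.RecT {((chi K : ℕ → ℕ) : ℕ →. ℕ)} (fun z : ℕ =>
      Nat.pair z.unpair.2.unpair.2
        (chi R (2 * Nat.pair z.unpair.1 z.unpair.2.unpair.1 + 2))) :=
    Pool.Agent.Helper743.RecT.pair (Pool.Agent.Helper743.Computable.recT c2)
      (Pool.Agent.Helper743.RecT.comp h1 (Pool.Agent.Helper743.Computable.recT c1))
  have h3 := Pool.Agent.Helper743.RecT.comp (Pool.Agent.Helper743.Computable.recT c3) h2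
  have h4 := Pool.Agent.Helper743.RecT.prec
    (Pool.Agent.Helper743.Computable.recT (O := {((chi K : ℕ → ℕ) : ℕ →. ℕ)})
      (Computable.const 0)) h3
  have c4 : Computable (fun k : ℕ => Nat.pair k (bd 3 (2 * k + 1))) :=
    cnatpair cid ((locs_K_bd 3).comp (cadd (cmul (cconst 2) cid) (cconst 1)))
  have h5 := Pool.Agent.Helper743.RecT.comp h4 (Pool.Agent.Helper743.Computable.recT c4)
  refine Nat.RecursiveIn.of_eq h5 ?_
  intro k
  congr 1
  simp only [Nat.unpair_pair]
  have h6 : ∀ n, (Nat.rec (motive := fun _ => ℕ) 0 (fun y ih =>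
      max ih (chi R (2 * Nat.pair k y + 2))) n : ℕ) = locs_K_F (chi R) k n := by
    intro n
    induction n with
    | zero => rfl
    | succ n ih => simp only [locs_K_F]; rw [← ih]
  rw [h6, locs_K_F_spec]
  unfold chi
  have h7 : (∃ c < bd 3 (2 * k + 1), 2 * Nat.pair k c + 2 ∈ R) ↔
      k ∈ {k | ∃ m ∈ locs k, m ∈ R} := by
    change _ ↔ ∃ m ∈ locs k, m ∈ R
    unfold locs
    constructor
    · rintro ⟨c, hc, hR⟩
      exact ⟨_, List.mem_map.2 ⟨c, List.mem_range.2 hc, rfl⟩, hR⟩
    · rintro ⟨m, hm, hR⟩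
      obtain ⟨c, hc, rfl⟩ := List.mem_map.1 hm
      exact ⟨c, List.mem_range.1 hc, hR⟩
  by_cases h8 : k ∈ {k | ∃ m ∈ locs k, m ∈ R}
  · rw [if_pos h8, if_pos (h7.2 h8)]
  · rw [if_neg h8, if_neg (fun h => h8 (h7.1 h))]

end Pool.Agent.Helper750.CT
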