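import Pool.Agent.Helper750.CT.Even
import Pool.Agent.Helper750.CT.EP
import Pool.Agent.Helper750.CT.Ext

set_option autoImplicit false

/-! The verification of the construction. -/

namespace Pool.Agent.Helper750.CT

open Pool.Agent.Helper750.DC Pool.Agent.Helper446.RE Encodable Nat.Partrec

variable (ev : ℕ → ℕ → Bool)

/-- Facts about a slot which is in state 1 forever. -/
theorem perm_facts {n : ℕ} (h : ∃ t, ∀ u, t ≤ u → pp ev n u = true) :
    (own n).length % 2 = 1 ∧ ∃ t0 t1, n = nn (own n) t0 ∧ t0 < t1 ∧
      vis (path ev t0) (own n) = true ∧ (path ev t0).getD (own n).length 0 = 2 ∧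
      vis (path ev t1) (own n) = true ∧ (path ev t1).getD (own n).length 0 = 1 ∧
      Ready ev t1 (own n) n ∧ (∀ s, t0 < s → (mem ev s (own n)).2 = [(n, 0)]) ∧
      (∀ s, t0 < s → lft (path ev s) (own n) = false ∧
        (vis (path ev s) (own n) = true → (path ev s).getD (own n).length 0 ≠ 0)) ∧
      ∀ s, t1 < s → vis (path ev s) (own n) = true → (path ev s).getD (own n).length 0 = 2 := by
  obtain ⟨t, ht⟩ := h
  obtain ⟨a1, t0, a2, a3, a4, a5⟩ := pp_slot ev (ht t le_rfl)
  have b : ∀ u, t ≤ u → (mem ev u (own n)).2 = [(nn (own n) t0, 0)] ∧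
      (mem ev u (own n)).1.2 = 1 := by
    intro u hu
    obtain ⟨-, t', b2, b3, b4, b5⟩ := pp_slot ev (ht u hu)
    have htt : t0 = t' := nn_inj (a2.symm.trans b2)
    rw [← htt] at b3
    exact ⟨b3, b4⟩
  obtain ⟨c1, c2, c3, c4, c5, c6⟩ := life ev a1 a3
  obtain ⟨t1, d1, d2, d3, d4, d5, d6⟩ := transition ev a1 a3 a4
  have e : ∀ s, t0 < s → (mem ev s (own n)).2 = [(nn (own n) t0, 0)] := by
    intro s hs
    obtain ⟨-, -, -, -, -, f6⟩ := life ev a1 (b (max s t) (le_max_right _ _)).1
    exact (f6 s hs (le_max_left _ _)).1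
  have f : ∀ s, t0 < s → lft (path ev s) (own n) = false ∧
      (vis (path ev s) (own n) = true → (path ev s).getD (own n).length 0 ≠ 0) := by
    intro s hs
    exact life_path ev a1 (e (s + 1) (by omega)) s hs (by omega)
  refine ⟨a1, t0, t1, a2, d1, c2, c3, d3, d4, ?_, ?_, f, ?_⟩
  · rw [← a2] at d5; exact d5
  · intro s hs
    have := e s hs
    rw [← a2] at this
    exact this
  · intro s hs hv
    have g1 : (mem ev s (own n)).1.2 = 1 := by
      rcases Nat.lt_or_ge t s with h1 | h1
      · exact (b s h1.le).2
      · exact d6 s hs h1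
    have g2 := (f s (by omega)).2 hv
    rcases odd_step ev s (own n) a1 with h3 | h3 | h3 | h3 | h3 | h3
    · exact absurd h3.2.1 g2
    · exact h3.2.1
    · have := h3.2.2.2.2.1
      omega
    · exact h3.2.1
    · rw [h3.1] at hv; simp at hv
    · rw [h3.1] at hv; simp at hv

/-- After a cancellation at a transition stage the bound of the isomorphism node is larger than
the slot. -/
theorem bound_of_lft {n t0 t1 : ℕ} {ρ η : List ℕ} (hη : η.length % 2 = 0)
    (h1 : ∀ s, t0 < s → (mem ev s ρ).2 = [(n, 0)]) (h01 : t0 < t1)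
    (hl : lft (path ev t1) η = true) (s : ℕ) (hs : t1 < s) (hc : (mem ev s η).1.1 ≠ 0) :
    n < (mem ev s η).1.1 := by
  induction s, hs using Nat.le_induction with
  | base =>
    exfalso
    apply hc
    rcases even_step ev t1 η hη with h | ⟨h, -⟩ | h | h | h
    · have := vis_lft h.1
      rw [this] at hl; simp at hl
    · have := vis_lft h
      rw [this] at hl; simp at hl
    · have := vis_lft h.1
      rw [this] at hl; simp at hl
    · rw [h.2.2]; rfl
    · rw [h.2.1] at hl; simp at hl
  | succ s hs ih =>
    rcases even_step ev s η hη with h | ⟨h4, h5, h6, f, h7, h8⟩ | h | h | h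
    · rw [h.2.2.2]
      have := slot_le_encode ev (h1 s (by omega))
      change n < encode (H ev s) + 1
      omega
    · rw [h8]
      exact ih h6
    · rw [h.2.2.2.2] at hc ⊢
      exact ih hc
    · rw [h.2.2] at hc
      exact absurd rfl hc
    · rw [h.2.2] at hc ⊢
      exact ih hc

theorem lft_prefix {δ η ρ : List ℕ} (h1 : η.length ≤ ρ.length) (h2 : ρ.take η.length = η)
    (h : lft δ η = true) : lft δ ρ = true := by
  rw [lft_iff] at *
  obtain ⟨i, h3, h4, h5, h6⟩ := h
  refine ⟨i, by omega, h4, ?_, ?_⟩
  · rw [h5, ← h2, List.take_take, min_eq_left h3.le]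
  · have : ρ.getD i 0 = η.getD i 0 := by
      conv_rhs => rw [← h2]
      simp [List.getD_eq_getElem?_getD, List.getElem?_take, h3]
    rw [this]
    exact h6

theorem vis_of_prefix {δ η ρ : List ℕ} (h1 : η.length ≤ ρ.length) (h2 : ρ.take η.length = η)
    (h : vis δ ρ = true) : vis δ η = true := by
  have := vis_prefix h η.length h1
  rw [h2] at this
  exact this

/-- On the true path: if the isomorphism node `η` has outcome `0` only finitely often then no slot
slightly larger than the final map is in state 1 forever. -/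
theorem no_perm {η : List ℕ} (hη : η.length % 2 = 0) (h1 : InfV ev η)
    {s0 : ℕ} (hs0 : ∀ s, s0 ≤ s → lft (path ev s) η = false)
    {S : ℕ} (hS : s0 ≤ S) (f : List (ℕ × ℕ)) (hf : f ≠ [])
    (hfS : ∀ s, S ≤ s → (mem ev s η).2 = f) (hc : ∀ s, S ≤ s → (mem ev s η).1.1 ≠ 0)
    {n : ℕ} (hp : ∃ t, ∀ u, t ≤ u → pp ev n u = true) (hn1 : f.length < n)
    (hn2 : n ≤ f.length + 2) : False := by
  obtain ⟨a1, t0, t1, a2, a3, a4, a5, a6, a7, a8, a9, a10, a11⟩ := perm_facts ev hp
  generalize own n = ρ at *
  -- lengths
  have hlen : ∀ s, S ≤ s → (mem ev s η).1.1 ≤ f.length := by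
    intro s hs
    have h2 := (inv ev s η hη).lt (by rw [hfS s hs]; exact hf)
    rw [hfS s hs] at h2
    exact h2.1
  -- case: the transition is to the left of η
  have caseL : lft (path ev t1) η = true → False := by
    intro hl
    have h2 := bound_of_lft ev hη a9 a3 hl (max S (t1 + 1))
      (by have := le_max_right S (t1 + 1); omega) (hc _ (le_max_left _ _))
    have h3 := hlen (max S (t1 + 1)) (le_max_left _ _)
    omega
  rcases node_cases ρ η with ⟨h2, h3⟩ | ⟨h2, h3⟩ | ⟨i, h2, h3, h4, h5⟩
  · -- ρ is a proper initial segment of η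
    have h4 : ρ.length < η.length := by
      rcases Nat.lt_or_ge ρ.length η.length with h | h
      · exact h
      · have : ρ.length = η.length := by omega
        omega
    obtain ⟨s, hs1, hs2⟩ := h1 (t1 + 1)
    have h5 := vis_of_prefix h2 h3 hs2
    have h6 := a11 s (by omega) h5
    rw [← vis_getD hs2 h4] at h6
    apply caseL
    refine lft_of_out h4 (by rw [h3]; exact a6) ?_
    rw [a7, h6]
    decide
  · have h4 : η.length < ρ.length := by
      rcases Nat.lt_or_ge η.length ρ.length with h | h
      · exact h
      · have : ρ.length = η.length := by omega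
        omega
    have hv1 : vis (path ev t1) η = true := vis_of_prefix h2 h3 a6
    have ho1 : ρ.getD η.length 0 = (path ev t1).getD η.length 0 := vis_getD a6 h4
    have nolft : ∀ s, t0 < s → lft (path ev s) η = false := by
      intro s hs
      rw [← Bool.not_eq_true]
      intro h
      have := lft_prefix h2 h3 h
      rw [(a10 s hs).1] at this
      simp at this
    have hout : (path ev t1).getD η.length 0 = 0 ∨ (path ev t1).getD η.length 0 = 2 := by
      rcases even_step ev t1 η hη with h | h | h | h | h
      · exact Or.inr h.2.1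
      · exact Or.inl h.2.1
      · exact Or.inr h.2.1
      · rw [h.1] at hv1; simp at hv1
      · rw [h.1] at hv1; simp at hv1
    rcases hout with hout | hout
    · -- ρ extends η with outcome 0
      have h5 := a8 η.length h4 hη (by rw [ho1, hout])
      rw [h3] at h5
      have h6 := (even_grow ev hη (le_max_right S t1) (fun t h _ => nolft t (by omega))).1.length_le
      rw [hfS _ (le_max_left _ _)] at h6
      omega
    · -- ρ extends η with outcome 2
      have hv0 : vis (path ev t0) η = true := vis_of_prefix h2 h3 a4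
      have ho0 : (path ev t0).getD η.length 0 = 2 := by
        rw [← vis_getD a4 h4, ho1, hout]
      have h6 : ∀ t, t0 ≤ t → t < max S t0 → lft (path ev t) η = false ∧
          (vis (path ev t) η = true → (path ev t).getD η.length 0 ≠ 0) := by
        intro t ht _
        rcases Nat.lt_or_ge t0 t with h7 | h7
        · refine ⟨nolft t h7, fun hv h0 => ?_⟩
          have h8 : lft (path ev t) ρ = true := by
            refine lft_of_out h4 (by rw [h3]; exact hv) ?_
            rw [h0, ho1, hout]
            decide
          rw [(a10 t h7).1] at h8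
          simp at h8
        · obtain rfl : t = t0 := by omega
          exact ⟨vis_lft hv0, fun _ => by rw [ho0]; decide⟩
      have h7 := even_const ev hη (le_max_right S t0) h6
      rw [hfS _ (le_max_left _ _)] at h7
      have h8 := inv ev t0 η hη
      have h9 : f.length ≤ t0 := by
        have h10 := (h8.lt (by rw [← h7]; exact hf)).2.1
        have h11 := nodup_length_le (L := t0) h8.nod1 fun a ha =>
          lt_of_le_of_lt (le_mx ha) h10
        rw [List.length_map, ← h7] at h11
        exact h11
      have h10 := le_nn ρ t0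
      omega
  · rcases Nat.lt_or_ge (ρ.getD i 0) (η.getD i 0) with h6 | h6
    · exact caseL (lft_of_vis a6 ⟨i, h2, h3, h4, h6⟩)
    · obtain ⟨s, hs1, hs2⟩ := h1 (t0 + 1)
      have h7 : lft (path ev s) ρ = true :=
        lft_of_vis hs2 ⟨i, h3, h2, h4.symm, by omega⟩
      rw [(a10 s (by omega)).1] at h7
      simp at h7

end Pool.Agent.Helper750.CT
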