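import Pool.Agent.Helper750.CT.Base
set_option autoImplicit false

namespace Pool.Agent.Helper750.CT

open Pool.Agent.Helper750.DC Pool.Agent.Helper446.RE Encodable Nat.Partrec

theorem PI_comp {d : ℕ → Option ℕ} {P P' : ℕ → List ℕ → Prop} {N : ℕ} {V V' : Finset ℕ}
    {x y : ℕ → ℕ} (h : PI d P P' N V x y) (σ : ℕ → ℕ) (hσ : ∀ u ∈ V', σ u ∈ V) :
    PI d P P' N V' (x ∘ σ) (y ∘ σ) := by
  refine ⟨fun u hu v hv => h.1 _ (hσ u hu) _ (hσ v hv), ?_⟩
  intro n m hn hd vs hvs hV hnd
  have := h.2 n m hn hd (vs.map σ) (by simpa using hvs) (by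
    intro v hv
    obtain ⟨u, hu, rfl⟩ := List.mem_map.1 hv
    exact hσ u (hV u hu)) (by rwa [List.map_map])
  rwa [List.map_map, List.map_map] at this

theorem PI_mono {d : ℕ → Option ℕ} {P P' : ℕ → List ℕ → Prop} {N : ℕ} {V V' : Finset ℕ}
    {x y : ℕ → ℕ} (h : PI d P P' N V x y) (hV : V' ⊆ V) : PI d P P' N V' x y :=
  PI_comp h id fun _ hu => hV hu

theorem PI_congr {d : ℕ → Option ℕ} {P P' : ℕ → List ℕ → Prop} {N : ℕ} {V : Finset ℕ}
    {x y x' y' : ℕ → ℕ} (h : PI d P P' N V x y) (hx : ∀ v ∈ V, x' v = x v)
    (hy : ∀ v ∈ V, y' v = y v) : PI d P P' N V x' y' := by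
  refine ⟨fun u hu v hv => ?_, ?_⟩
  · rw [hx u hu, hx v hv, hy u hu, hy v hv]
    exact h.1 u hu v hv
  · intro n m hn hd vs hvs hV hnd
    have e1 : vs.map x' = vs.map x := List.map_congr_left fun v hv => hx v (hV v hv)
    have e2 : vs.map y' = vs.map y := List.map_congr_left fun v hv => hy v (hV v hv)
    rw [e1, e2]
    rw [e1] at hnd
    exact h.2 n m hn hd vs hvs hV hnd

theorem PI_nodup {V : Finset ℕ} {x y : ℕ → ℕ}
    (h : ∀ u ∈ V, ∀ v ∈ V, (x u = x v ↔ y u = y v)) (vs : List ℕ)
    (hV : ∀ v ∈ vs, v ∈ V) (hnd : (vs.map x).Nodup) : (vs.map y).Nodup := by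
  have h1 : vs.Nodup := List.Nodup.of_map _ hnd
  refine List.Nodup.map_on ?_ h1
  intro u hu v hv huv
  have h2 := (h u (hV u hu) v (hV v hv)).2 huv
  exact List.inj_on_of_nodup_map hnd hu hv h2

theorem PI_symm {d : ℕ → Option ℕ} {P P' : ℕ → List ℕ → Prop} {N : ℕ} {V : Finset ℕ}
    {x y : ℕ → ℕ} (h : PI d P P' N V x y) : PI d P' P N V y x := by
  refine ⟨fun u hu v hv => (h.1 u hu v hv).symm, ?_⟩
  intro n m hn hd vs hvs hV hnd
  exact (h.2 n m hn hd vs hvs hV
    (PI_nodup (fun u hu v hv => (h.1 u hu v hv).symm) vs hV hnd)).symm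

theorem PI_ext {d : ℕ → Option ℕ} {P P' : ℕ → List ℕ → Prop} {M M' : Str} (hM : IsGen d P M)
    (hM' : IsGen d P' M') {N : ℕ} {V : Finset ℕ} {x y : ℕ → ℕ} (h : PI d P P' N V x y)
    (w : ℕ) (hw : w ∉ V) (a : ℕ) :
    ∃ b, PI d P P' N (insert w V) (Function.update x w a) (Function.update y w b) := by
  classical
  by_cases hc : ∃ v ∈ V, x v = a
  · obtain ⟨v, hv, hva⟩ := hc
    refine ⟨y v, ?_⟩
    have h1 := PI_comp h (V' := insert w V) (fun u => if u = w then v else u) (by
      intro u hu
      by_cases huw : u = w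
      · simpa [huw] using hv
      · simpa [huw] using (Finset.mem_insert.1 hu).resolve_left huw)
    refine PI_congr h1 ?_ ?_
    · intro u _
      by_cases huw : u = w
      · subst huw; simp [hva]
      · simp [huw]
    · intro u _
      by_cases huw : u = w
      · subst huw; simp
      · simp [huw]
  · push Not at hc
    -- the x-value belonging to a y-value
    have hX : ∃ X : ℕ → ℕ, ∀ v ∈ V, X (y v) = x v := by
      refine ⟨fun c => if hcc : ∃ v ∈ V, y v = c then x hcc.choose else 0, fun v hv => ?_⟩
      have hcc : ∃ v' ∈ V, y v' = y v := ⟨v, hv, rfl⟩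
      simp only [dif_pos hcc]
      exact (h.1 _ hcc.choose_spec.1 _ hv).2 hcc.choose_spec.2
    obtain ⟨X, hX⟩ := hX
    let as : List ℕ := (V.image y).toList
    have has : as.Nodup := Finset.nodup_toList _
    have hmem : ∀ v ∈ V, y v ∈ as := fun v hv => by
      simp only [as, Finset.mem_toList, Finset.mem_image]
      exact ⟨v, hv, rfl⟩
    have hmem' : ∀ c ∈ as, ∃ v ∈ V, y v = c := fun c hc => by
      simpa only [as, Finset.mem_toList, Finset.mem_image] using hc
    obtain ⟨b, hb, hext⟩ := hM'.ext as N
      (fun n I => P n (I.map fun i => if i < as.length then X (as.getD i 0) else a)) has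
    refine ⟨b, ?_, ?_⟩
    · have hne : ∀ v ∈ V, y v ≠ b := fun v hv hvb => hb (hvb ▸ hmem v hv)
      intro u hu0 v hv0
      rcases Finset.mem_insert.1 hu0 with rfl | hu
      · rcases Finset.mem_insert.1 hv0 with rfl | hv
        · simp
        · have hvw : v ≠ u := fun e => hw (e ▸ hv)
          simp only [Function.update_self, Function.update_of_ne hvw]
          constructor
          · intro e; exact absurd e.symm (hc v hv)
          · intro e; exact absurd e.symm (hne v hv)
      · have huw : u ≠ w := fun e => hw (e ▸ hu)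
        rcases Finset.mem_insert.1 hv0 with rfl | hv
        · simp only [Function.update_self, Function.update_of_ne huw]
          constructor
          · intro e; exact absurd e (hc u hu)
          · intro e; exact absurd e (hne u hu)
        · have hvw : v ≠ w := fun e => hw (e ▸ hv)
          simp only [Function.update_of_ne hvw, Function.update_of_ne huw]
          exact h.1 u hu v hv
    · intro n m hn hd vs hvs hV hnd
      by_cases hwv : w ∈ vs
      · let idx : ℕ → ℕ := fun u => if u = w then as.length else as.idxOf (y u)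
        have e1 : (vs.map idx).map (fun i => (as ++ [b]).getD i 0)
            = vs.map (Function.update y w b) := by
          rw [List.map_map]
          refine List.map_congr_left fun u hu => ?_
          simp only [Function.comp, idx]
          by_cases huw : u = w
          · subst huw
            simp
          · have huV : u ∈ V := (Finset.mem_insert.1 (hV u hu)).resolve_left huw
            have hlt : as.idxOf (y u) < as.length := List.idxOf_lt_length_of_mem (hmem u huV)
            rw [if_neg huw, Function.update_of_ne huw, List.getD_append _ _ _ _ hlt,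
              List.getD_eq_getElem _ _ hlt]
            exact List.getElem_idxOf hlt
        have e2 : (vs.map idx).map (fun i => if i < as.length then X (as.getD i 0) else a)
            = vs.map (Function.update x w a) := by
          rw [List.map_map]
          refine List.map_congr_left fun u hu => ?_
          simp only [Function.comp, idx]
          by_cases huw : u = w
          · subst huw
            simp
          · have huV : u ∈ V := (Finset.mem_insert.1 (hV u hu)).resolve_left huw
            have hlt : as.idxOf (y u) < as.length := List.idxOf_lt_length_of_mem (hmem u huV)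
            rw [if_neg huw, Function.update_of_ne huw, if_pos hlt,
              List.getD_eq_getElem _ _ hlt, List.getElem_idxOf hlt]
            exact hX u huV
        have h3 := hext n m (vs.map idx) hn hd (by simpa using hvs)
          (by
            rw [← e2] at hnd
            exact List.Nodup.of_map _ hnd)
          (by
            intro i hi
            obtain ⟨u, hu, rfl⟩ := List.mem_map.1 hi
            simp only [idx]
            split_ifs with huw
            · exact le_rfl
            · exact List.idxOf_le_length)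
          (by
            refine List.mem_map.2 ⟨w, hwv, ?_⟩
            simp [idx])
        simp only [e1, e2] at h3
        exact h3.symm
      · have hV' : ∀ v ∈ vs, v ∈ V := by
          intro v hv
          rcases Finset.mem_insert.1 (hV v hv) with rfl | h'
          · exact absurd hv hwv
          · exact h'
        have hne : ∀ v ∈ vs, v ≠ w := fun v hv e => hwv (e ▸ hv)
        have e1 : vs.map (Function.update x w a) = vs.map x :=
          List.map_congr_left fun v hv => Function.update_of_ne (hne v hv) _ _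
        have e2 : vs.map (Function.update y w b) = vs.map y :=
          List.map_congr_left fun v hv => Function.update_of_ne (hne v hv) _ _
        rw [e1] at hnd
        rw [e1, e2]
        exact h.2 n m hn hd vs hvs hV' hnd

theorem qe {d : ℕ → Option ℕ} {P P' : ℕ → List ℕ → Prop} {M M' : Str} (hM : IsGen d P M)
    (hM' : IsGen d P' M') (φ : Fml) (N : ℕ) (V : Finset ℕ) (x y : ℕ → ℕ)
    (h : PI d P P' N V x y) (hN : symBd φ ≤ N) (hV : ∀ v, Free φ v → v ∈ V) :
    Sat LL M φ x ↔ Sat LL M' φ y := by
  induction φ generalizing V x y with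
  | rel i vs =>
    have hvV : ∀ v ∈ vs, v ∈ V := fun v hv => hV v hv
    simp only [Sat, LL, Option.some.injEq]
    refine and_congr_right fun hi => ?_
    subst hi
    have h1 := hM.rel (vs.map x)
    have h2 := hM'.rel (vs.map y)
    rw [List.length_map] at h1 h2
    rw [h1, h2]
    have hn1 : (vs.map x).Nodup ↔ (vs.map y).Nodup :=
      ⟨PI_nodup h.1 vs hvV, PI_nodup (fun u hu v hv => (h.1 u hu v hv).symm) vs hvV⟩
    rw [← hn1]
    refine and_congr_right fun hnd => ?_
    refine exists_congr fun m => and_congr_right fun hd => ?_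
    rw [← List.map_take, ← List.map_take]
    have hm := (hM.le _ _ hd).2
    refine h.2 _ m ?_ hd (vs.take m) ?_ ?_ ?_
    · simp only [symBd] at hN; omega
    · rw [List.length_take]; omega
    · intro v hv
      exact hvV v (List.mem_of_mem_take hv)
    · rw [List.map_take]
      exact hnd.sublist (List.take_sublist _ _)
  | fn i vs w => simp [Sat, LL]
  | eq u v =>
    simp only [Sat]
    exact h.1 u (hV u (Or.inl rfl)) v (hV v (Or.inr rfl))
  | not φ ih =>
    simp only [Sat]
    exact not_congr (ih V x y h hN hV)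
  | and φ ψ ih1 ih2 =>
    simp only [Sat]
    simp only [symBd] at hN
    exact and_congr (ih1 V x y h (le_trans (le_max_left _ _) hN) fun v hv => hV v (Or.inl hv))
      (ih2 V x y h (le_trans (le_max_right _ _) hN) fun v hv => hV v (Or.inr hv))
  | ex v φ ih =>
    simp only [Sat]
    have h0 : PI d P P' N (V.erase v) x y := PI_mono h (Finset.erase_subset _ _)
    have hF : ∀ u, Free φ u → u ∈ insert v (V.erase v) := by
      intro u hu
      by_cases huv : u = v
      · rw [huv]; exact Finset.mem_insert_self _ _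
      · exact Finset.mem_insert_of_mem (Finset.mem_erase.2 ⟨huv, hV u ⟨hu, huv⟩⟩)
    constructor
    · rintro ⟨a, ha⟩
      obtain ⟨b, hb⟩ := PI_ext hM hM' h0 v (Finset.notMem_erase _ _) a
      exact ⟨b, (ih _ _ _ hb hN hF).1 ha⟩
    · rintro ⟨b, hb⟩
      obtain ⟨a, ha⟩ := PI_ext hM' hM (PI_symm h0) v (Finset.notMem_erase _ _) b
      exact ⟨a, (ih _ _ _ (PI_symm ha) hN hF).2 hb⟩

/-- iterated existential quantifiers -/
def exs (l : List ℕ) (φ : Fml) : Fml := l.foldr Fml.ex φ

theorem sat_exs (L : Lang) (M : Str) (φ : Fml) (l : List ℕ) (x : ℕ → ℕ) :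
    Sat L M (exs l φ) x ↔ ∃ z : ℕ → ℕ, (∀ v, v ∉ l → z v = x v) ∧ Sat L M φ z := by
  induction l generalizing x with
  | nil =>
    constructor
    · intro h
      exact ⟨x, fun _ _ => rfl, h⟩
    · rintro ⟨z, hz, h⟩
      have : z = x := funext fun v => hz v (by simp)
      rw [← this]
      exact h
  | cons v l ih =>
    have e : Sat L M (exs (v :: l) φ) x ↔ ∃ a, Sat L M (exs l φ) (Function.update x v a) := Iff.rfl
    rw [e]
    constructor
    · rintro ⟨a, ha⟩
      obtain ⟨z, hz, h⟩ := (ih _).1 ha
      refine ⟨z, fun u hu => ?_, h⟩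
      rw [List.mem_cons, not_or] at hu
      rw [hz u hu.2, Function.update_of_ne hu.1]
    · rintro ⟨z, hz, h⟩
      refine ⟨z v, (ih _).2 ⟨z, fun u hu => ?_, h⟩⟩
      by_cases huv : u = v
      · subst huv; simp
      · rw [Function.update_of_ne huv]
        exact hz u (by simp [huv, hu])

theorem free_exs (φ : Fml) (l : List ℕ) (v : ℕ) : Free (exs l φ) v ↔ Free φ v ∧ v ∉ l := by
  induction l with
  | nil => simp [exs]
  | cons u l ih =>
    have e : Free (exs (u :: l) φ) v ↔ Free (exs l φ) v ∧ v ≠ u := Iff.rfl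
    rw [e, ih, List.mem_cons, not_or]
    tauto

/-- the formula expressing `P_n` -/
def pf (k n m : ℕ) (vs : List ℕ) : Fml :=
  exs (List.range' k (n - m)) (Fml.rel n (vs ++ List.range' k (n - m)))

theorem free_pf (k n m : ℕ) (vs : List ℕ) (hvs : ∀ v ∈ vs, v < k) (v : ℕ)
    (h : Free (pf k n m vs) v) : v < k := by
  unfold pf at h
  rw [free_exs] at h
  obtain ⟨h1, h2⟩ := h
  have h3 : v ∈ vs ++ List.range' k (n - m) := h1
  rcases List.mem_append.1 h3 with h4 | h4
  · exact hvs v h4
  · exact absurd h4 h2

theorem sat_pf {d : ℕ → Option ℕ} {P : ℕ → List ℕ → Prop} {M : Str} (hM : IsGen d P M)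
    (k n m : ℕ) (vs : List ℕ) (hd : d n = some m) (hlen : vs.length = m)
    (hvs : ∀ v ∈ vs, v < k) (x : ℕ → ℕ) (hnd : (vs.map x).Nodup) :
    Sat LL M (pf k n m vs) x ↔ P n (vs.map x) := by
  have hmn := (hM.le n m hd).2
  unfold pf
  rw [sat_exs]
  set l := List.range' k (n - m) with hl
  have hll : l.length = n - m := by rw [hl]; exact List.length_range'
  have hlk : ∀ v ∈ l, k ≤ v := fun v hv => (List.mem_range'_1.1 hv).1
  have hlnd : l.Nodup := List.nodup_range'
  have hnl : ∀ v ∈ vs, v ∉ l := fun v hv hv' => absurd (hvs v hv) (not_lt.2 (hlk v hv'))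
  have hlen' : (vs ++ l).length = n := by rw [List.length_append, hll, hlen]; omega
  have key : ∀ z : ℕ → ℕ, (∀ v, v ∉ l → z v = x v) →
      (Sat LL M (Fml.rel n (vs ++ l)) z ↔ ((vs ++ l).map z).Nodup ∧ P n (vs.map x)) := by
    intro z hz
    have e1 : vs.map z = vs.map x := List.map_congr_left fun v hv => hz v (hnl v hv)
    have h1 := hM.rel ((vs ++ l).map z)
    rw [List.length_map, hlen'] at h1
    simp only [Sat, LL, hlen', true_and]
    rw [h1]
    refine and_congr_right fun _ => ?_
    have e2 : ((vs ++ l).map z).take m = vs.map x := by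
      rw [List.map_append, e1, ← hlen]
      have : vs.length = (vs.map x).length := by simp
      rw [this, List.take_left']
      simp
    constructor
    · rintro ⟨m', hd', h'⟩
      rw [hd] at hd'
      cases hd'
      rwa [e2] at h'
    · intro h'
      exact ⟨m, hd, by rwa [e2]⟩
  constructor
  · rintro ⟨z, hz, h⟩
    exact ((key z hz).1 h).2
  · intro h
    let B : ℕ := (vs.map x).sum + 1
    have hB : ∀ v ∈ vs, x v < B := fun v hv =>
      Nat.lt_succ_of_le (List.single_le_sum (fun _ _ => Nat.zero_le _) _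
        (List.mem_map.2 ⟨v, hv, rfl⟩))
    refine ⟨fun v => if v ∈ l then B + v else x v, fun v hv => by simp [hv], ?_⟩
    rw [key _ fun v hv => by simp [hv]]
    refine ⟨?_, h⟩
    have e1 : vs.map (fun v => if v ∈ l then B + v else x v) = vs.map x :=
      List.map_congr_left fun v hv => by simp [hnl v hv]
    have e2 : l.map (fun v => if v ∈ l then B + v else x v) = l.map fun v => B + v :=
      List.map_congr_left fun v hv => by simp [hv]
    rw [List.map_append, e1, e2, List.nodup_append]
    refine ⟨hnd, hlnd.map (fun a b hab => by simpa using hab), ?_⟩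
    intro c hc c' hc'
    obtain ⟨u, hu, rfl⟩ := List.mem_map.1 hc
    obtain ⟨v, hv, rfl⟩ := List.mem_map.1 hc'
    have := hB u hu
    omega

theorem tp_eq_iff {d : ℕ → Option ℕ} {P P' : ℕ → List ℕ → Prop} {M M' : Str} (hM : IsGen d P M)
    (hM' : IsGen d P' M') (k : ℕ) (x y : ℕ → ℕ) :
    tp LL M k x = tp LL M' k y ↔ ∀ N, PI d P P' N (Finset.range k) x y := by
  constructor
  · intro h N
    have hiff : ∀ φ : Fml, (∀ v, Free φ v → v < k) → (Sat LL M φ x ↔ Sat LL M' φ y) := by
      intro φ hφ
      have h1 : φ ∈ tp LL M k x ↔ φ ∈ tp LL M' k y := by rw [h]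
      constructor
      · intro hs
        exact (h1.1 ⟨hφ, hs⟩).2
      · intro hs
        exact (h1.2 ⟨hφ, hs⟩).2
    have h1 : ∀ u ∈ Finset.range k, ∀ v ∈ Finset.range k, (x u = x v ↔ y u = y v) := by
      intro u hu v hv
      rw [Finset.mem_range] at hu hv
      exact hiff (Fml.eq u v) (by
        rintro w (rfl | rfl)
        · exact hu
        · exact hv)
    refine ⟨h1, ?_⟩
    intro n m _ hd vs hvs hV hnd
    have hV' : ∀ v ∈ vs, v < k := fun v hv => Finset.mem_range.1 (hV v hv)
    rw [← sat_pf hM k n m vs hd hvs hV' x hnd,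
      ← sat_pf hM' k n m vs hd hvs hV' y (PI_nodup h1 vs hV hnd)]
    exact hiff _ (free_pf k n m vs hV')
  · intro h
    ext φ
    simp only [tp, Set.mem_ofPred_eq]
    refine and_congr_right fun hφ => ?_
    exact qe hM hM' φ (symBd φ) (Finset.range k) x y (h _) le_rfl
      fun v hv => Finset.mem_range.2 (hφ v hv)

theorem fin_lists (k : ℕ) : {vs : List ℕ | vs.Nodup ∧ ∀ v ∈ vs, v < k}.Finite := by
  have h1 : {l : List (Fin k) | l.length ≤ k}.Finite := List.finite_length_le (Fin k) k
  refine (h1.image (List.map Fin.val)).subset ?_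
  rintro vs ⟨hnd, hlt⟩
  lift vs to List (Fin k) using hlt
  refine ⟨vs, ?_, rfl⟩
  have h2 : vs.Nodup := List.Nodup.of_map _ hnd
  simpa using h2.length_le_card

theorem fin_types {d : ℕ → Option ℕ} {P : ℕ → List ℕ → Prop} {M : Str} (hM : IsGen d P M)
    (k : ℕ) : {q | ∃ x, q = tp LL M k x}.Finite := by
  classical
  let F : Set ℕ := ⋃ m ∈ Finset.range (k + 1), {n | d n = some m}
  have hF : F.Finite := by
    refine Set.Finite.biUnion (Finset.finite_toSet _) fun m _ => hM.fin m
  let E : Set (ℕ × ℕ) := ↑(Finset.range k ×ˢ Finset.range k)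
  have hE : E.Finite := Finset.finite_toSet _
  let Q : Set (ℕ × List ℕ) := F ×ˢ {vs : List ℕ | vs.Nodup ∧ ∀ v ∈ vs, v < k}
  have hQ : Q.Finite := hF.prod (fin_lists k)
  let data : (ℕ → ℕ) → Set (ℕ × ℕ) × Set (ℕ × List ℕ) := fun x =>
    ({p | p ∈ E ∧ x p.1 = x p.2}, {p | p ∈ Q ∧ P p.1 (p.2.map x)})
  have hdata : (Set.range data).Finite := by
    refine (hE.finite_subsets.prod hQ.finite_subsets).subset ?_
    rintro _ ⟨x, rfl⟩
    exact ⟨fun p hp => hp.1, fun p hp => hp.1⟩
  have hfac : ∀ x y, data x = data y → tp LL M k x = tp LL M k y := by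
    intro x y hxy
    rw [tp_eq_iff hM hM]
    intro N
    have h1 : ∀ p : ℕ × ℕ, (p ∈ E ∧ x p.1 = x p.2) ↔ (p ∈ E ∧ y p.1 = y p.2) := by
      intro p
      have := congrArg Prod.fst hxy
      exact Set.ext_iff.1 this p
    have h2 : ∀ p : ℕ × List ℕ, (p ∈ Q ∧ P p.1 (p.2.map x)) ↔ (p ∈ Q ∧ P p.1 (p.2.map y)) := by
      intro p
      have := congrArg Prod.snd hxy
      exact Set.ext_iff.1 this p
    constructor
    · intro u hu v hv
      have hp : (u, v) ∈ E := by
        simp only [E, Finset.coe_product, Set.mem_prod, Finset.mem_coe]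
        exact ⟨hu, hv⟩
      have := h1 (u, v)
      simp only [hp, true_and] at this
      exact this
    · intro n m _ hd vs hvs hV hnd
      have hvn : vs.Nodup := List.Nodup.of_map _ hnd
      have hlt : ∀ v ∈ vs, v < k := fun v hv => Finset.mem_range.1 (hV v hv)
      have hmk : m ≤ k := by
        rw [← hvs]
        have h3 : vs.toFinset ⊆ Finset.range k := by
          intro v hv
          exact Finset.mem_range.2 (hlt v (List.mem_toFinset.1 hv))
        have h4 := Finset.card_le_card h3
        rwa [List.toFinset_card_of_nodup hvn, Finset.card_range] at h4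
      have hp : (n, vs) ∈ Q := by
        refine ⟨?_, hvn, hlt⟩
        simp only [F, Set.mem_iUnion]
        exact ⟨m, Finset.mem_range.2 (by omega), hd⟩
      have := h2 (n, vs)
      simp only [hp, true_and] at this
      exact this
  refine (hdata.image fun D => tp LL M k (Function.invFun data D)).subset ?_
  rintro _ ⟨x, rfl⟩
  refine ⟨data x, ⟨x, rfl⟩, ?_⟩
  apply hfac
  exact Function.invFun_eq ⟨x, rfl⟩

end Pool.Agent.Helper750.CT
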