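import Pool.Agent.Helper750.CT.Base
set_option autoImplicit false

namespace Pool.Agent.Helper750.CT

open Pool.Agent.Helper750.DC Pool.Agent.Helper446.RE Encodable Nat.Partrec

/-! ### Ryll-Nardzewski: auxiliary lemmas -/

theorem ryll_congr (L : Lang) (A : Str) (φ : Fml) : ∀ x y : ℕ → ℕ,
    (∀ v, Free φ v → x v = y v) → (Sat L A φ x ↔ Sat L A φ y) := by
  induction φ with
  | rel i vs =>
    intro x y h
    have h1 : vs.map x = vs.map y := List.map_congr_left fun v hv => h v hv
    simp only [Sat, h1]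
  | fn i vs w =>
    intro x y h
    have h1 : vs.map x = vs.map y := List.map_congr_left fun v hv => h v (Or.inl hv)
    have h2 : x w = y w := h w (Or.inr rfl)
    simp only [Sat, h1, h2]
  | eq u w =>
    intro x y h
    have h1 : x u = y u := h u (Or.inl rfl)
    have h2 : x w = y w := h w (Or.inr rfl)
    simp only [Sat, h1, h2]
  | not φ ih =>
    intro x y h
    simp only [Sat]
    exact not_congr (ih x y h)
  | and φ ψ ih1 ih2 =>
    intro x y h
    simp only [Sat]
    exact and_congr (ih1 x y fun v hv => h v (Or.inl hv)) (ih2 x y fun v hv => h v (Or.inr hv))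
  | ex u φ ih =>
    intro x y h
    simp only [Sat]
    refine exists_congr fun a => ih _ _ fun v hv => ?_
    by_cases hvu : v = u
    · subst hvu
      simp
    · rw [Function.update_of_ne hvu, Function.update_of_ne hvu]
      exact h v ⟨hv, hvu⟩

theorem ryll_sent (L : Lang) (A : Str) {φ : Fml} (h : IsSent φ) (x y : ℕ → ℕ) :
    Sat L A φ x ↔ Sat L A φ y :=
  ryll_congr L A φ x y fun v hv => absurd hv (h v)

theorem ryll_tp_congr (L : Lang) (A : Str) (k : ℕ) {x y : ℕ → ℕ} (h : ∀ i < k, x i = y i) :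
    tp L A k x = tp L A k y := by
  ext φ
  simp only [tp, Set.mem_setOf_eq]
  constructor
  · rintro ⟨h1, h2⟩
    exact ⟨h1, (ryll_congr L A φ x y fun v hv => h v (h1 v hv)).1 h2⟩
  · rintro ⟨h1, h2⟩
    exact ⟨h1, (ryll_congr L A φ x y fun v hv => h v (h1 v hv)).2 h2⟩

/-- a true sentence -/
def ryll_T : Fml := .ex 0 (.eq 0 0)

theorem ryll_T_free (v : ℕ) : ¬ Free ryll_T v := by
  simp [ryll_T, Free]

theorem ryll_T_sat (L : Lang) (A : Str) (x : ℕ → ℕ) : Sat L A ryll_T x := by
  simp [ryll_T, Sat]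

/-- distinguishing formulas -/
theorem ryll_dist (L : Lang) (A : Str) (k : ℕ) (x y : ℕ → ℕ) (h : tp L A k y ≠ tp L A k x) :
    ∃ φ, φ ∈ tp L A k x ∧ φ ∉ tp L A k y := by
  by_contra hcon
  push Not at hcon
  apply h
  ext φ
  constructor
  · rintro ⟨h1, h2⟩
    by_contra h3
    have h4 : Fml.not φ ∈ tp L A k x := ⟨h1, fun h5 => h3 ⟨h1, h5⟩⟩
    exact (hcon _ h4).2 h2
  · exact hcon φ

/-- isolating formulas -/
theorem ryll_isol (A : Str) (hfin : ∀ k, {q | ∃ x, q = tp LL A k x}.Finite) (k : ℕ)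
    (x : ℕ → ℕ) : ∃ χ, χ ∈ tp LL A k x ∧ ∀ y, Sat LL A χ y → tp LL A k y = tp LL A k x := by
  have key : ∀ Q : Set (Set Fml), Q.Finite → ∃ χ, χ ∈ tp LL A k x ∧
      ∀ y, Sat LL A χ y → tp LL A k y ∈ Q → tp LL A k y = tp LL A k x := by
    intro Q hQ
    induction Q, hQ using Set.Finite.induction_on with
    | empty =>
      exact ⟨ryll_T, ⟨fun v hv => absurd hv (ryll_T_free v), ryll_T_sat _ _ _⟩,
        fun y _ h => absurd h (Set.notMem_empty _)⟩
    | @insert q Q _ _ ih =>
      obtain ⟨χ, h1, h2⟩ := ih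
      by_cases hq : ∃ y, tp LL A k y = q ∧ q ≠ tp LL A k x
      · obtain ⟨y0, hy0, hne⟩ := hq
        obtain ⟨φ, h3, h4⟩ := ryll_dist LL A k x y0 (hy0 ▸ hne)
        refine ⟨.and χ φ, ⟨fun v hv => ?_, h1.2, h3.2⟩, fun y hy hyq => ?_⟩
        · rcases hv with hv | hv
          · exact h1.1 v hv
          · exact h3.1 v hv
        · rcases hyq with hyq | hyq
          · exfalso
            apply h4
            rw [hy0, ← hyq]
            exact ⟨h3.1, hy.2⟩
          · exact h2 y hy.1 hyq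
      · push Not at hq
        refine ⟨χ, h1, fun y hy hyq => ?_⟩
        rcases hyq with hyq | hyq
        · have := hq y hyq
          rw [hyq, this]
        · exact h2 y hy hyq
  obtain ⟨χ, h1, h2⟩ := key _ (hfin k)
  exact ⟨χ, h1, fun y hy => h2 y hy ⟨y, rfl⟩⟩

/-- the step -/
theorem ryll_step (A B : Str) (k : ℕ) (x y : ℕ → ℕ) (hR : tp LL A k x = tp LL B k y) (a b : ℕ)
    (χ : Fml) (h1 : ∀ v, Free χ v → v < k + 1)
    (h2 : ∀ z, Sat LL A χ z → tp LL A (k + 1) z = tp LL A (k + 1) (Function.update x k a))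
    (h3 : Sat LL B χ (Function.update y k b)) :
    tp LL A (k + 1) (Function.update x k a) = tp LL B (k + 1) (Function.update y k b) := by
  have key : ∀ φ, φ ∈ tp LL A (k + 1) (Function.update x k a) →
      Sat LL B φ (Function.update y k b) := by
    intro φ hφ
    have hψ : Fml.not (.ex k (.and χ (.not φ))) ∈ tp LL A k x := by
      refine ⟨fun v hv => ?_, ?_⟩
      · obtain ⟨hv1, hv2⟩ := hv
        have : v < k + 1 := by
          rcases hv1 with hv1 | hv1
          · exact h1 v hv1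
          · exact hφ.1 v hv1
        omega
      · rintro ⟨a', h4, h5⟩
        apply h5
        have := h2 _ h4
        have h6 : φ ∈ tp LL A (k + 1) (Function.update x k a') := by rw [this]; exact hφ
        exact h6.2
    rw [hR] at hψ
    by_contra h7
    exact hψ.2 ⟨b, h3, h7⟩
  ext φ
  constructor
  · intro hφ
    exact ⟨hφ.1, key φ hφ⟩
  · rintro ⟨h4, h5⟩
    by_contra h6
    have h7 : Fml.not φ ∈ tp LL A (k + 1) (Function.update x k a) :=
      ⟨h4, fun h8 => h6 ⟨h4, h8⟩⟩
    exact key _ h7 h5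

theorem ryll_forth (A : Str) (hfin : ∀ k, {q | ∃ x, q = tp LL A k x}.Finite) (B : Str) (k : ℕ)
    (x y : ℕ → ℕ) (hR : tp LL A k x = tp LL B k y) (a : ℕ) :
    ∃ b, tp LL A (k + 1) (Function.update x k a) = tp LL B (k + 1) (Function.update y k b) := by
  obtain ⟨χ, h1, h2⟩ := ryll_isol A hfin (k + 1) (Function.update x k a)
  have h3 : Fml.ex k χ ∈ tp LL A k x := by
    refine ⟨fun v hv => ?_, a, h1.2⟩
    have := h1.1 v hv.1
    have := hv.2
    omega
  rw [hR] at h3
  obtain ⟨b, hb⟩ := h3.2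
  exact ⟨b, ryll_step A B k x y hR a b χ h1.1 h2 hb⟩

theorem ryll_back (A : Str) (hfin : ∀ k, {q | ∃ x, q = tp LL A k x}.Finite) (B : Str) (k : ℕ)
    (x y : ℕ → ℕ) (hR : tp LL A k x = tp LL B k y) (b : ℕ) :
    ∃ a, tp LL A (k + 1) (Function.update x k a) = tp LL B (k + 1) (Function.update y k b) := by
  have key : ∀ Q : Set (Set Fml), Q.Finite → ∃ θ, (∀ v, Free θ v → v < k + 1) ∧
      (∀ z, tp LL A (k + 1) z ∈ Q → Sat LL A θ z) ∧
      (∀ y', Sat LL B θ y' → ∃ χ, (∀ v, Free χ v → v < k + 1) ∧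
        (∀ z z', Sat LL A χ z → Sat LL A χ z' → tp LL A (k + 1) z = tp LL A (k + 1) z') ∧
        Sat LL B χ y') := by
    intro Q hQ
    induction Q, hQ using Set.Finite.induction_on with
    | empty =>
      exact ⟨.not ryll_T, fun v hv => absurd hv (ryll_T_free v),
        fun z h => absurd h (Set.notMem_empty _), fun y' h => absurd (ryll_T_sat _ _ _) h⟩
    | @insert q Q _ _ ih =>
      obtain ⟨θ, h1, h2, h3⟩ := ih
      by_cases hq : ∃ z0, tp LL A (k + 1) z0 = q
      · obtain ⟨z0, hz0⟩ := hq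
        obtain ⟨χ, h4, h5⟩ := ryll_isol A hfin (k + 1) z0
        refine ⟨.not (.and (.not θ) (.not χ)), ?_, ?_, ?_⟩
        · intro v hv
          rcases hv with hv | hv
          · exact h1 v hv
          · exact h4.1 v hv
        · rintro z hz ⟨h6, h7⟩
          rcases hz with hz | hz
          · apply h7
            have h8 : χ ∈ tp LL A (k + 1) z := by rw [hz, ← hz0]; exact h4
            exact h8.2
          · exact h6 (h2 z hz)
        · intro y' hy'
          by_cases h6 : Sat LL B θ y'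
          · exact h3 y' h6
          · refine ⟨χ, h4.1, fun z z' hz hz' => (h5 z hz).trans (h5 z' hz').symm, ?_⟩
            by_contra h7
            exact hy' ⟨h6, h7⟩
      · refine ⟨θ, h1, fun z hz => ?_, h3⟩
        rcases hz with hz | hz
        · exact absurd ⟨z, hz⟩ hq
        · exact h2 z hz
  obtain ⟨θ, h1, h2, h3⟩ := key _ (hfin (k + 1))
  have h4 : Fml.not (.ex k (.not θ)) ∈ tp LL A k x := by
    refine ⟨fun v hv => ?_, ?_⟩
    · have := h1 v hv.1
      have := hv.2
      omega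
    · rintro ⟨a', h5⟩
      exact h5 (h2 _ ⟨_, rfl⟩)
  rw [hR] at h4
  have h5 : Sat LL B θ (Function.update y k b) := by
    by_contra h6
    exact h4.2 ⟨b, h6⟩
  obtain ⟨χ, h6, h7, h8⟩ := h3 _ h5
  have h9 : Fml.ex k χ ∈ tp LL B k y := by
    refine ⟨fun v hv => ?_, b, h8⟩
    have := h6 v hv.1
    have := hv.2
    omega
  rw [← hR] at h9
  obtain ⟨a, ha⟩ := h9.2
  exact ⟨a, ryll_step A B k x y hR a b χ h6 (fun z hz => h7 z _ hz ha) h8⟩

theorem ryll_zero (A B : Str) (hB : IsModel LL (Th LL A) B) (x y : ℕ → ℕ) :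
    tp LL A 0 x = tp LL B 0 y := by
  have h1 : ∀ φ, (∀ v, Free φ v → v < 0) → IsSent φ := fun φ h v hv => absurd (h v hv) (by omega)
  have h2 : ∀ φ, IsSent φ → Sat LL A φ x → Sat LL B φ y := by
    intro φ hs h
    have h3 : φ ∈ Th LL A := ⟨hs, (ryll_sent LL A hs _ _).1 h⟩
    exact (ryll_sent LL B hs _ _).1 (hB φ h3)
  ext φ
  constructor
  · rintro ⟨h3, h4⟩
    exact ⟨h3, h2 φ (h1 φ h3) h4⟩
  · rintro ⟨h3, h4⟩
    refine ⟨h3, ?_⟩
    by_contra h5
    exact h2 (.not φ) (h1 φ h3) h5 h4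

theorem ryll_enum (A : Str) (hfin : ∀ k, {q | ∃ x, q = tp LL A k x}.Finite) (B : Str)
    (hB : IsModel LL (Th LL A) B) : ∃ x y : ℕ → ℕ, Function.Surjective x ∧
      Function.Surjective y ∧ ∀ k, tp LL A k x = tp LL B k y := by
  have hstep : ∀ (k : ℕ) (p : (ℕ → ℕ) × (ℕ → ℕ)), ∃ ab : ℕ × ℕ,
      tp LL A k p.1 = tp LL B k p.2 →
      (tp LL A (k + 1) (Function.update p.1 k ab.1) =
        tp LL B (k + 1) (Function.update p.2 k ab.2)) ∧
      (k % 2 = 0 → ab.1 = k / 2) ∧ (k % 2 = 1 → ab.2 = k / 2) := by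
    intro k p
    by_cases hR : tp LL A k p.1 = tp LL B k p.2
    · rcases Nat.mod_two_eq_zero_or_one k with hk | hk
      · obtain ⟨b, hb⟩ := ryll_forth A hfin B k p.1 p.2 hR (k / 2)
        exact ⟨(k / 2, b), fun _ => ⟨hb, fun _ => rfl, fun h => by omega⟩⟩
      · obtain ⟨a, ha⟩ := ryll_back A hfin B k p.1 p.2 hR (k / 2)
        exact ⟨(a, k / 2), fun _ => ⟨ha, fun h => by omega, fun _ => rfl⟩⟩
    · exact ⟨(0, 0), fun h => absurd h hR⟩
  choose ab hab using hstep
  let s : ℕ → (ℕ → ℕ) × (ℕ → ℕ) := fun n =>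
    Nat.rec (fun _ => 0, fun _ => 0)
      (fun k p => (Function.update p.1 k (ab k p).1, Function.update p.2 k (ab k p).2)) n
  have hs : ∀ k, s (k + 1) = (Function.update (s k).1 k (ab k (s k)).1,
      Function.update (s k).2 k (ab k (s k)).2) := fun k => rfl
  have hR : ∀ k, tp LL A k (s k).1 = tp LL B k (s k).2 := by
    intro k
    induction k with
    | zero => exact ryll_zero A B hB _ _
    | succ k ih =>
      rw [hs]
      exact (hab k (s k) ih).1
  let x : ℕ → ℕ := fun k => (ab k (s k)).1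
  let y : ℕ → ℕ := fun k => (ab k (s k)).2
  have hx : ∀ k, ∀ i < k, (s k).1 i = x i := by
    intro k
    induction k with
    | zero => intro i hi; omega
    | succ k ih =>
      intro i hi
      rw [hs]
      show Function.update (s k).1 k (ab k (s k)).1 i = x i
      by_cases hik : i = k
      · subst hik
        simp [x]
      · rw [Function.update_of_ne hik]
        exact ih i (by omega)
  have hy : ∀ k, ∀ i < k, (s k).2 i = y i := by
    intro k
    induction k with
    | zero => intro i hi; omega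
    | succ k ih =>
      intro i hi
      rw [hs]
      show Function.update (s k).2 k (ab k (s k)).2 i = y i
      by_cases hik : i = k
      · subst hik
        simp [y]
      · rw [Function.update_of_ne hik]
        exact ih i (by omega)
  refine ⟨x, y, fun a => ⟨2 * a, ?_⟩, fun b => ⟨2 * b + 1, ?_⟩, fun k => ?_⟩
  · have := (hab (2 * a) (s (2 * a)) (hR _)).2.1 (by omega)
    show (ab (2 * a) (s (2 * a))).1 = a
    omega
  · have := (hab (2 * b + 1) (s (2 * b + 1)) (hR _)).2.2 (by omega)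
    show (ab (2 * b + 1) (s (2 * b + 1))).2 = b
    omega
  · rw [← ryll_tp_congr LL A k (hx k), ← ryll_tp_congr LL B k (hy k)]
    exact hR k

/-- Theories with a model realizing finitely many types are countably categorical. -/
theorem ryll (A : Str) (hfin : ∀ k, {q | ∃ x, q = tp LL A k x}.Finite) (B : Str)
    (hB : IsModel LL (Th LL A) B) : ∃ f, IsIso LL A B f := by
  obtain ⟨x, y, hx, hy, hR⟩ := ryll_enum A hfin B hB
  have hsat : ∀ φ : Fml, (∃ k, ∀ v, Free φ v → v < k) → (Sat LL A φ x ↔ Sat LL B φ y) := by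
    rintro φ ⟨k, hk⟩
    have h := Set.ext_iff.1 (hR k) φ
    constructor
    · intro h1
      exact (h.1 ⟨hk, h1⟩).2
    · intro h1
      exact (h.2 ⟨hk, h1⟩).2
  have heq : ∀ i j, x i = x j ↔ y i = y j := by
    intro i j
    have := hsat (.eq i j) ⟨max i j + 1, fun v hv => by
      rcases hv with hv | hv <;> subst hv <;> omega⟩
    simpa only [Sat] using this
  let g : ℕ → ℕ := Function.surjInv hx
  have hg : ∀ a, x (g a) = a := Function.surjInv_eq hx
  refine ⟨fun a => y (g a), ⟨fun a b hab => ?_, fun b => ?_⟩, fun i xs hi => ?_, fun i xs hi => ?_⟩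
  · have h1 := (heq (g a) (g b)).2 hab
    rwa [hg, hg] at h1
  · obtain ⟨j, hj⟩ := hy b
    refine ⟨x j, ?_⟩
    show y (g (x j)) = b
    rw [← hj]
    exact (heq _ _).1 (hg (x j))
  · have h1 := hsat (.rel i (xs.map g)) ⟨(xs.map g).sum + 1, fun v hv => by
      have : v ≤ (xs.map g).sum := List.le_sum_of_mem hv
      omega⟩
    simp only [Sat, List.length_map, List.map_map] at h1
    have h2 : xs.map (x ∘ g) = xs := by
      have : x ∘ g = id := funext hg
      rw [this, List.map_id]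
    rw [h2] at h1
    have h3 : (y ∘ g) = fun a => y (g a) := rfl
    rw [h3] at h1
    constructor
    · intro h4
      exact (h1.1 ⟨hi, h4⟩).2
    · intro h4
      exact (h1.2 ⟨hi, h4⟩).2
  · exact absurd hi (by simp [LL])

/-- isomorphisms preserve satisfaction -/
theorem ryll_iso_sat (L : Lang) (A B : Str) (f : ℕ → ℕ) (hf : IsIso L A B f) (φ : Fml) :
    ∀ x : ℕ → ℕ, Sat L A φ x ↔ Sat L B φ (f ∘ x) := by
  induction φ with
  | rel i vs =>
    intro x
    simp only [Sat]
    refine and_congr_right fun h => ?_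
    have := hf.2.1 i (vs.map x) (by rw [List.length_map]; exact h)
    rwa [List.map_map] at this
  | fn i vs w =>
    intro x
    simp only [Sat]
    refine and_congr_right fun h => ?_
    have := hf.2.2 i (vs.map x) (by rw [List.length_map]; exact h)
    rw [List.map_map] at this
    rw [← this]
    exact hf.1.1.eq_iff.symm
  | eq u w =>
    intro x
    simp only [Sat]
    exact hf.1.1.eq_iff.symm
  | not φ ih =>
    intro x
    simp only [Sat]
    exact not_congr (ih x)
  | and φ ψ ih1 ih2 =>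
    intro x
    simp only [Sat]
    exact and_congr (ih1 x) (ih2 x)
  | ex u φ ih =>
    intro x
    simp only [Sat]
    constructor
    · rintro ⟨a, ha⟩
      refine ⟨f a, ?_⟩
      rw [ih, Function.comp_update] at ha
      exact ha
    · rintro ⟨b, hb⟩
      obtain ⟨a, rfl⟩ := hf.1.2 b
      refine ⟨a, ?_⟩
      rw [ih, Function.comp_update]
      exact hb

theorem types_eq (A : Str) (hfin : ∀ k, {q | ∃ x, q = tp LL A k x}.Finite) (k : ℕ) :
    types LL (Th LL A) k = {q | ∃ x, q = tp LL A k x} := by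
  ext q
  constructor
  · rintro ⟨B, y, hB, rfl⟩
    obtain ⟨f, hf⟩ := ryll A hfin B hB
    obtain ⟨g, hg⟩ := hf.1.2.hasRightInverse
    refine ⟨g ∘ y, ?_⟩
    have h1 : f ∘ (g ∘ y) = y := funext fun i => hg (y i)
    ext φ
    simp only [tp, Set.mem_setOf_eq]
    rw [ryll_iso_sat LL A B f hf φ (g ∘ y), h1]
  · rintro ⟨x, rfl⟩
    exact ⟨A, x, fun φ hφ => hφ.2, rfl⟩

theorem Th_complete (A : Str) : IsComplete (Th LL A) := by
  refine ⟨fun φ hφ => hφ.1, fun φ hφ => ⟨fun h => ⟨hφ, fun h1 => h ⟨hφ, h1⟩⟩, fun h h1 => ?_⟩⟩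
  exact h.2 h1.2

end Pool.Agent.Helper750.CT
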