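import Pool.Agent.Helper750.CT.Steps

set_option autoImplicit false

/-! Properties of the slots. -/

namespace Pool.Agent.Helper750.CT

open Pool.Agent.Helper750.DC Pool.Agent.Helper446.RE Encodable Nat.Partrec

variable (ev : ℕ → ℕ → Bool)

theorem vis_lft {δ ρ : List ℕ} (h : vis δ ρ = true) : lft δ ρ = false := by
  rw [← Bool.not_eq_true]
  intro h2
  rw [lft_iff] at h2
  obtain ⟨i, h3, h4, h5, h6⟩ := h2
  rw [vis_getD h h3] at h6
  exact lt_irrefl _ h6

theorem cnt_mono (k : ℕ) : Monotone (cnt ev k) := by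
  apply monotone_nat_of_le_succ
  intro s
  simp [cnt]

/-- the possible changes of the memory of a coding node -/
theorem odd_step (s : ℕ) (ρ : List ℕ) (hρ : ρ.length % 2 = 1) :
    (vis (path ev s) ρ = true ∧ (path ev s).getD ρ.length 0 = 0 ∧
      cnt ev (ρ.length / 2) s ≠ (mem ev s ρ).1.1 ∧
      mem ev (s + 1) ρ = ((cnt ev (ρ.length / 2) s, 0), [])) ∨
    (vis (path ev s) ρ = true ∧ (path ev s).getD ρ.length 0 = 2 ∧
      cnt ev (ρ.length / 2) s = (mem ev s ρ).1.1 ∧ (mem ev s ρ).2 = [] ∧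
      mem ev (s + 1) ρ = (((mem ev s ρ).1.1, 0), [(nn ρ s, 0)])) ∨
    (vis (path ev s) ρ = true ∧ (path ev s).getD ρ.length 0 = 1 ∧
      cnt ev (ρ.length / 2) s = (mem ev s ρ).1.1 ∧ (mem ev s ρ).2 ≠ [] ∧
      (mem ev s ρ).1.2 = 0 ∧ Ready ev s ρ (sl (mem ev s ρ)) ∧
      mem ev (s + 1) ρ = (((mem ev s ρ).1.1, 1), (mem ev s ρ).2)) ∨
    (vis (path ev s) ρ = true ∧ (path ev s).getD ρ.length 0 = 2 ∧
      cnt ev (ρ.length / 2) s = (mem ev s ρ).1.1 ∧ (mem ev s ρ).2 ≠ [] ∧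
      ¬ ((mem ev s ρ).1.2 = 0 ∧ Ready ev s ρ (sl (mem ev s ρ))) ∧
      mem ev (s + 1) ρ = mem ev s ρ) ∨
    (vis (path ev s) ρ = false ∧ lft (path ev s) ρ = true ∧ mem ev (s + 1) ρ = dflt) ∨
    (vis (path ev s) ρ = false ∧ lft (path ev s) ρ = false ∧
      mem ev (s + 1) ρ = mem ev s ρ) := by
  by_cases hv : vis (path ev s) ρ = true
  · have h1 := out_eq ev hv
    have h2 := mem_succ ev s ρ
    rw [if_pos hv] at h2
    rw [act_odd ev s ρ hρ] at h1 h2
    by_cases h3 : cnt ev (ρ.length / 2) s = (mem ev s ρ).1.1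
    · rw [if_neg (by simpa using h3)] at h1 h2
      by_cases h4 : (mem ev s ρ).2 = []
      · rw [if_pos h4] at h1 h2
        exact Or.inr (Or.inl ⟨hv, h1, h3, h4, h2⟩)
      · rw [if_neg h4] at h1 h2
        by_cases h5 : (mem ev s ρ).1.2 = 0 ∧ Ready ev s ρ (sl (mem ev s ρ))
        · rw [if_pos h5] at h1 h2
          exact Or.inr (Or.inr (Or.inl ⟨hv, h1, h3, h4, h5.1, h5.2, h2⟩))
        · rw [if_neg h5] at h1 h2
          exact Or.inr (Or.inr (Or.inr (Or.inl ⟨hv, h1, h3, h4, h5, h2⟩)))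
    · rw [if_pos h3] at h1 h2
      exact Or.inl ⟨hv, h1, h3, h2⟩
  · have h2 := mem_succ ev s ρ
    rw [if_neg hv] at h2
    rw [Bool.not_eq_true] at hv
    by_cases h3 : lft (path ev s) ρ = true
    · rw [if_pos h3] at h2
      exact Or.inr (Or.inr (Or.inr (Or.inr (Or.inl ⟨hv, h3, h2⟩))))
    · rw [if_neg h3] at h2
      rw [Bool.not_eq_true] at h3
      exact Or.inr (Or.inr (Or.inr (Or.inr (Or.inr ⟨hv, h3, h2⟩))))

theorem slot_form (s : ℕ) (ρ : List ℕ) (hρ : ρ.length % 2 = 1) :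
    ((mem ev s ρ).2 = [] ∨ ∃ t, (mem ev s ρ).2 = [(nn ρ t, 0)]) ∧
      ((mem ev s ρ).1.2 = 0 ∨ (mem ev s ρ).1.2 = 1) := by
  induction s with
  | zero => exact ⟨Or.inl rfl, Or.inl rfl⟩
  | succ s ih =>
    rcases odd_step ev s ρ hρ with h | h | h | h | h | h
    · rw [h.2.2.2]; exact ⟨Or.inl rfl, Or.inl rfl⟩
    · rw [h.2.2.2.2]; exact ⟨Or.inr ⟨s, rfl⟩, Or.inl rfl⟩
    · rw [h.2.2.2.2.2.2]; exact ⟨ih.1, Or.inr rfl⟩
    · rw [h.2.2.2.2.2]; exact ih
    · rw [h.2.2]; exact ⟨Or.inl rfl, Or.inl rfl⟩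
    · rw [h.2.2]; exact ih

theorem life {s : ℕ} {ρ : List ℕ} {t : ℕ} (hρ : ρ.length % 2 = 1)
    (h : (mem ev s ρ).2 = [(nn ρ t, 0)]) :
    t < s ∧ vis (path ev t) ρ = true ∧ (path ev t).getD ρ.length 0 = 2 ∧
    (mem ev (t + 1) ρ).1.2 = 0 ∧ cnt ev (ρ.length / 2) t = (mem ev s ρ).1.1 ∧
    ∀ s', t < s' → s' ≤ s → (mem ev s' ρ).2 = [(nn ρ t, 0)] ∧
      (mem ev s' ρ).1.1 = (mem ev s ρ).1.1 ∧ (mem ev s' ρ).1.2 ≤ (mem ev s ρ).1.2 := by
  induction s with
  | zero => simp [mem_zero, dflt] at h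
  | succ s ih =>
    rcases odd_step ev s ρ hρ with h1 | h1 | h1 | h1 | h1 | h1
    · rw [h1.2.2.2] at h; simp at h
    · obtain ⟨h2, h3, h4, h5, h6⟩ := h1
      rw [h6] at h
      simp only [List.cons.injEq, Prod.mk.injEq, and_true] at h
      have h7 := nn_inj h
      subst h7
      refine ⟨by omega, h2, h3, by rw [h6], by rw [h6]; exact h4, fun s' h8 h9 => ?_⟩
      obtain rfl : s' = s + 1 := by omega
      exact ⟨by rw [h6], rfl, le_rfl⟩
    · obtain ⟨h2, h3, h4, h5, h6, h7, h8⟩ := h1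
      rw [h8] at h
      obtain ⟨i1, i2, i3, i4, i5, i6⟩ := ih h
      refine ⟨by omega, i2, i3, i4, by rw [h8]; exact i5, fun s' h9 h10 => ?_⟩
      rcases Nat.lt_or_ge s s' with h11 | h11
      · obtain rfl : s' = s + 1 := by omega
        exact ⟨by rw [h8]; exact h, rfl, le_rfl⟩
      · obtain ⟨j1, j2, j3⟩ := i6 s' h9 h11
        refine ⟨j1, by rw [h8]; exact j2, ?_⟩
        rw [h8]
        rw [h6] at j3
        change _ ≤ 1
        omega
    · obtain ⟨h2, h3, h4, h5, h6, h8⟩ := h1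
      rw [h8] at h
      obtain ⟨i1, i2, i3, i4, i5, i6⟩ := ih h
      refine ⟨by omega, i2, i3, i4, by rw [h8]; exact i5, fun s' h9 h10 => ?_⟩
      rcases Nat.lt_or_ge s s' with h11 | h11
      · obtain rfl : s' = s + 1 := by omega
        exact ⟨by rw [h8]; exact h, rfl, le_rfl⟩
      · rw [h8]; exact i6 s' h9 h11
    · rw [h1.2.2] at h; simp [dflt] at h
    · obtain ⟨h2, h3, h8⟩ := h1
      rw [h8] at h
      obtain ⟨i1, i2, i3, i4, i5, i6⟩ := ih h
      refine ⟨by omega, i2, i3, i4, by rw [h8]; exact i5, fun s' h9 h10 => ?_⟩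
      rcases Nat.lt_or_ge s s' with h11 | h11
      · obtain rfl : s' = s + 1 := by omega
        exact ⟨by rw [h8]; exact h, rfl, le_rfl⟩
      · rw [h8]; exact i6 s' h9 h11

/-- While a slot is alive its node is not cancelled and does not have outcome `0`. -/
theorem life_path {s : ℕ} {ρ : List ℕ} {t : ℕ} (hρ : ρ.length % 2 = 1)
    (h : (mem ev s ρ).2 = [(nn ρ t, 0)]) (s' : ℕ) (h1 : t < s') (h2 : s' < s) :
    lft (path ev s') ρ = false ∧
      (vis (path ev s') ρ = true → (path ev s').getD ρ.length 0 ≠ 0) := by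
  obtain ⟨-, -, -, -, -, i6⟩ := life ev hρ h
  obtain ⟨j1, -, -⟩ := i6 (s' + 1) (by omega) (by omega)
  rcases odd_step ev s' ρ hρ with h3 | h3 | h3 | h3 | h3 | h3
  · rw [h3.2.2.2] at j1; simp at j1
  · exact ⟨vis_lft h3.1, fun _ => by rw [h3.2.1]; decide⟩
  · exact ⟨vis_lft h3.1, fun _ => by rw [h3.2.1]; decide⟩
  · exact ⟨vis_lft h3.1, fun _ => by rw [h3.2.1]; decide⟩
  · rw [h3.2.2] at j1; simp [dflt] at j1
  · exact ⟨h3.2.1, fun h4 => by rw [h3.1] at h4; simp at h4⟩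

/-- A slot in phase 1 has made a transition. -/
theorem transition {s : ℕ} {ρ : List ℕ} {t : ℕ} (hρ : ρ.length % 2 = 1)
    (h : (mem ev s ρ).2 = [(nn ρ t, 0)]) (hp : (mem ev s ρ).1.2 = 1) :
    ∃ t1, t < t1 ∧ t1 < s ∧ vis (path ev t1) ρ = true ∧ (path ev t1).getD ρ.length 0 = 1 ∧
      Ready ev t1 ρ (nn ρ t) ∧
      ∀ s', t1 < s' → s' ≤ s → (mem ev s' ρ).1.2 = 1 := by
  induction s with
  | zero => simp [mem_zero, dflt] at h
  | succ s ih =>
    have key : mem ev (s + 1) ρ = mem ev s ρ →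
        ∃ t1, t < t1 ∧ t1 < s + 1 ∧ vis (path ev t1) ρ = true ∧
          (path ev t1).getD ρ.length 0 = 1 ∧ Ready ev t1 ρ (nn ρ t) ∧
          ∀ s', t1 < s' → s' ≤ s + 1 → (mem ev s' ρ).1.2 = 1 := by
      intro h1
      rw [h1] at h hp
      obtain ⟨t1, i1, i2, i3, i4, i5, i6⟩ := ih h hp
      refine ⟨t1, i1, by omega, i3, i4, i5, fun s' h2 h3 => ?_⟩
      rcases Nat.lt_or_ge s s' with h11 | h11
      · obtain rfl : s' = s + 1 := by omega
        rw [h1]; exact hp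
      · exact i6 s' h2 h11
    rcases odd_step ev s ρ hρ with h1 | h1 | h1 | h1 | h1 | h1
    · rw [h1.2.2.2] at h; simp at h
    · rw [h1.2.2.2.2] at hp; simp at hp
    · obtain ⟨h2, h3, h4, h5, h6, h7, h8⟩ := h1
      have h9 := h
      rw [h8] at h9
      have h10 : sl (mem ev s ρ) = nn ρ t := by
        unfold sl
        change ((mem ev s ρ).2 = _) at h9
        rw [h9]; rfl
      rw [h10] at h7
      refine ⟨s, (life ev hρ h9).1, by omega, h2, h3, h7, fun s' h11 h12 => ?_⟩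
      obtain rfl : s' = s + 1 := by omega
      exact hp
    · exact key h1.2.2.2.2.2
    · rw [h1.2.2] at h; simp [dflt] at h
    · exact key h1.2.2

/-- If a slot is in state 1 then it is of the form `nn ρ t`. -/
theorem pp_slot {n u : ℕ} (h : pp ev n u = true) : (own n).length % 2 = 1 ∧
    ∃ t, n = nn (own n) t ∧ (mem ev u (own n)).2 = [(nn (own n) t, 0)] ∧
      (mem ev u (own n)).1.2 = 1 ∧
      cnt ev ((own n).length / 2) u = (mem ev u (own n)).1.1 := by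
  rw [pp_iff] at h
  obtain ⟨h1, h2, h3, h4, h5⟩ := h
  refine ⟨h2, ?_⟩
  rcases (slot_form ev u (own n) h2).1 with h6 | ⟨t, h6⟩
  · exfalso
    apply h1
    rw [← h3]
    unfold sl
    rw [h6]; rfl
  · refine ⟨t, ?_, h6, h4, h5⟩
    unfold sl at h3
    rw [h6] at h3
    exact h3.symm

theorem pp_convex : Convex (pp ev) := by
  intro n u v w huv hvw h1 h2
  rw [← Bool.not_eq_true]
  intro h3
  rw [← Bool.not_eq_true] at h2
  apply h2
  obtain ⟨a1, t, a2, a3, a4, a5⟩ := pp_slot ev h1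
  obtain ⟨-, t', b2, b3, b4, b5⟩ := pp_slot ev h3
  have htt : t = t' := nn_inj (a2.symm.trans b2)
  subst htt
  obtain ⟨c1, -, -, -, -, c6⟩ := life ev a1 a3
  obtain ⟨d1, -, -, -, -, d6⟩ := life ev a1 b3
  obtain ⟨e1, e2, e3⟩ := d6 v (by omega) hvw.le
  obtain ⟨f1, f2, f3, f4, f5, f6⟩ := life ev a1 e1
  obtain ⟨g1, g2, g3⟩ := f6 u (by omega) huv.le
  rw [pp_iff]
  refine ⟨?_, a1, ?_, ?_, ?_⟩
  · rw [a2]
    have := le_nn (own n) t
    omega
  · unfold sl
    rw [e1]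
    exact a2.symm
  · have := (slot_form ev v (own n) a1).2
    omega
  · have h4 := cnt_mono ev ((own n).length / 2) huv.le
    have h5 := cnt_mono ev ((own n).length / 2) hvw.le
    omega

theorem pp_ar (n u : ℕ) (h : pp ev n u = true) : 0 < ar n ∧ ar n < n := by
  obtain ⟨a1, t, a2, a3, a4, a5⟩ := pp_slot ev h
  refine ⟨by unfold ar; omega, ?_⟩
  have := ar_lt_nn (own n) t
  rw [← a2] at this
  exact this

theorem pp_fin (m : ℕ) : {n | (∃ t, ∀ u, t ≤ u → pp ev n u = true) ∧ ar n = m}.Finite := by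
  apply Set.Subsingleton.finite
  rintro n ⟨⟨t, ht⟩, h1⟩ n' ⟨⟨t', ht'⟩, h2⟩
  have a := ht (max t t') (le_max_left _ _)
  have b := ht' (max t t') (le_max_right _ _)
  obtain ⟨a1, s, a2, a3, a4, a5⟩ := pp_slot ev a
  obtain ⟨b1, s', b2, b3, b4, b5⟩ := pp_slot ev b
  have h3 : ar n = ar n' := h1.trans h2.symm
  rw [a2, b2, ar_nn, ar_nn] at h3
  have h4 : own n = own n' := by
    have h5 : Nat.pair ((own n).length / 2) (encode (own n)) =
      Nat.pair ((own n').length / 2) (encode (own n')) := by omega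
    exact encode_injective (Nat.pair_eq_pair.1 h5).2
  rw [a2, b2, ← h4]
  rw [← h4, a3] at b3
  simp only [List.cons.injEq, Prod.mk.injEq, and_true] at b3
  exact b3

end Pool.Agent.Helper750.CT
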