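import Pool.Agent.Helper750.CT.Tree

set_option autoImplicit false

/-! Description of the actions of the nodes. -/

namespace Pool.Agent.Helper750.CT

open Pool.Agent.Helper750.DC Pool.Agent.Helper446.RE Encodable Nat.Partrec

variable (ev : ℕ → ℕ → Bool)

/-! ### coding nodes -/

/-- readiness -/
def Ready (s : ℕ) (ρ : List ℕ) (n : ℕ) : Prop :=
  ∀ i < ρ.length, i % 2 = 0 → ρ.getD i 0 = 0 → n ≤ (mem ev s (ρ.take i)).2.length

theorem ready_iff (s : ℕ) (ρ : List ℕ) (n : ℕ) :
    ready (H ev s) s ρ n = true ↔ Ready ev s ρ n := by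
  unfold ready Ready mem
  rw [allB_iff]
  refine forall_congr' fun i => imp_congr_right fun _ => ?_
  by_cases h1 : i % 2 = 0 <;> by_cases h2 : ρ.getD i 0 = 0 <;> simp only [h1, h2, decide_true,
    decide_false, Bool.and_true, Bool.and_false, Bool.not_true, Bool.not_false, Bool.false_or,
    Bool.true_or, decide_eq_true_eq, true_imp_iff, false_imp_iff, Bool.and_self]

open Classical in
theorem act_odd (s : ℕ) (ρ : List ℕ) (hρ : ρ.length % 2 = 1) : act ev s ρ =
    if cnt ev (ρ.length / 2) s ≠ (mem ev s ρ).1.1 then (0, ((cnt ev (ρ.length / 2) s, 0), []))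
    else if (mem ev s ρ).2 = [] then (2, (((mem ev s ρ).1.1, 0), [(nn ρ s, 0)]))
    else if (mem ev s ρ).1.2 = 0 ∧ Ready ev s ρ (sl (mem ev s ρ)) then
      (1, (((mem ev s ρ).1.1, 1), (mem ev s ρ).2))
    else (2, mem ev s ρ) := by
  unfold act stepn
  have h0 : decide (ρ.length % 2 = 0) = false := by simp [hρ]
  rw [h0, cond_false]
  unfold stepC
  change (bif !(decide (cnt ev (ρ.length / 2) s = (mem ev s ρ).1.1)) then _ else
    (bif decide ((mem ev s ρ).2.length = 0) then _ else
      (bif decide ((mem ev s ρ).1.2 = 0) && ready (H ev s) s ρ (sl (mem ev s ρ)) then _ else _)))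
    = _
  by_cases h1 : cnt ev (ρ.length / 2) s = (mem ev s ρ).1.1
  · rw [if_neg (by simpa using h1)]
    simp only [h1, decide_true, Bool.not_true, cond_false]
    by_cases h2 : (mem ev s ρ).2 = []
    · rw [if_pos h2]
      simp only [h2, List.length_nil, decide_true, cond_true]
      rfl
    · rw [if_neg h2]
      have h3 : decide ((mem ev s ρ).2.length = 0) = false := by simpa using h2
      rw [h3, cond_false]
      by_cases h4 : (mem ev s ρ).1.2 = 0 ∧ Ready ev s ρ (sl (mem ev s ρ))
      · rw [if_pos h4]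
        have h5 : (decide ((mem ev s ρ).1.2 = 0) && ready (H ev s) s ρ (sl (mem ev s ρ))) = true := by
          rw [Bool.and_eq_true, decide_eq_true_eq, ready_iff]
          exact h4
        rw [h5, cond_true]
        rfl
      · rw [if_neg h4]
        have h5 : (decide ((mem ev s ρ).1.2 = 0) && ready (H ev s) s ρ (sl (mem ev s ρ))) = false := by
          rw [← Bool.not_eq_true, Bool.and_eq_true, decide_eq_true_eq, ready_iff]
          exact h4
        rw [h5, cond_false]
        rfl
  · rw [if_pos h1]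
    have h2 : decide (cnt ev (ρ.length / 2) s = (mem ev s ρ).1.1) = false := by simpa using h1
    rw [h2, Bool.not_false, cond_true]

theorem nn_inj {ρ : List ℕ} {s t : ℕ} (h : nn ρ s = nn ρ t) : s = t := by
  unfold nn at h
  have h2 : Nat.pair (Nat.pair (ρ.length / 2) (encode ρ)) s =
    Nat.pair (Nat.pair (ρ.length / 2) (encode ρ)) t := by omega
  exact (Nat.pair_eq_pair.1 h2).2

theorem own_nn (ρ : List ℕ) (s : ℕ) : own (nn ρ s) = ρ := by
  unfold own nn
  have : (2 * Nat.pair (Nat.pair (ρ.length / 2) (encode ρ)) s + 7 - 7) / 2 =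
    Nat.pair (Nat.pair (ρ.length / 2) (encode ρ)) s := by omega
  rw [this]
  simp

theorem ar_nn (ρ : List ℕ) (s : ℕ) : ar (nn ρ s) = 2 * Nat.pair (ρ.length / 2) (encode ρ) + 2 := by
  unfold ar nn
  have : (2 * Nat.pair (Nat.pair (ρ.length / 2) (encode ρ)) s + 7 - 7) / 2 =
    Nat.pair (Nat.pair (ρ.length / 2) (encode ρ)) s := by omega
  rw [this]
  simp

theorem le_nn (ρ : List ℕ) (s : ℕ) : 2 * s + 7 ≤ nn ρ s := by
  unfold nn
  have := Nat.right_le_pair (Nat.pair (ρ.length / 2) (encode ρ)) s
  omega

theorem ar_lt_nn (ρ : List ℕ) (s : ℕ) : ar (nn ρ s) < nn ρ s := by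
  rw [ar_nn]
  unfold nn
  have := Nat.left_le_pair (Nat.pair (ρ.length / 2) (encode ρ)) s
  omega

/-! ### isomorphism nodes -/

/-- The tuples with indices in `I` are correct. -/
def Chk1 (e s : ℕ) (f : List (ℕ × ℕ)) (I : List ℕ) : Prop :=
  Code.evaln s (Denumerable.ofNat Code e)
    (encode (I.length, I.map fun i => ((f[i]?).getD (0, 0)).2)) =
      some (encode (MR (pp ev) ar I.length (I.map fun i => ((f[i]?).getD (0, 0)).1)))

/-- good candidates -/
structure Good (e s : ℕ) (v : V) (f : List (ℕ × ℕ)) : Prop where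
  pre : f.take v.2.length = v.2
  len : v.2 = [] ∨ f.length ≤ v.2.length + 2
  big : v.1.1 ≤ f.length
  dom : v.1.2 ∈ f.map Prod.fst
  ran : v.1.2 ∈ f.map Prod.snd
  nod1 : (f.map Prod.fst).Nodup
  nod2 : (f.map Prod.snd).Nodup
  lt : mx (f.map Prod.fst) < s
  chk : ∀ I : List ℕ, I.Nodup → (∀ i ∈ I, i < f.length) → Chk1 ev e s f I

theorem le_mx {l : List ℕ} {a : ℕ} (h : a ∈ l) : a ≤ mx l := by
  induction l with
  | nil => simp at h
  | cons b l ih =>
    unfold mx at *
    rw [List.foldr_cons]
    rcases List.mem_cons.1 h with rfl | h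
    · exact le_max_left _ _
    · exact (ih h).trans (le_max_right _ _)

theorem mx_le {l : List ℕ} {b : ℕ} (h : ∀ a ∈ l, a ≤ b) : mx l ≤ b := by
  induction l with
  | nil => simp [mx]
  | cons c l ih =>
    unfold mx at *
    rw [List.foldr_cons]
    exact max_le (h c (by simp)) (ih fun a ha => h a (by simp [ha]))

theorem mx_take_le (l : List ℕ) (n : ℕ) : mx (l.take n) ≤ mx l :=
  mx_le fun _ ha => le_mx (List.mem_of_mem_take ha)

theorem MR_congr {p p' : ℕ → ℕ → Bool} {r : ℕ → ℕ} {n s : ℕ} {xs : List ℕ} (hxs : mx xs ≤ s)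
    (h : ∀ u ≤ s, p n u = p' n u) : MR p r n xs = MR p' r n xs := by
  have h1 : ∀ a ≤ s, evr p n a = evr p' n a := by
    intro a ha
    unfold evr
    rw [Bool.eq_iff_iff, exB_iff, exB_iff]
    constructor
    · rintro ⟨i, hi, h2⟩
      exact ⟨i, hi, by rw [← h i (by omega)]; exact h2⟩
    · rintro ⟨i, hi, h2⟩
      exact ⟨i, hi, by rw [h i (by omega)]; exact h2⟩
  unfold MR
  rw [h _ hxs, h1 _ hxs, h1 _ ((mx_take_le _ _).trans hxs)]

/-- codes of short lists with small entries -/
theorem encode_lt_bd (L : ℕ) : ∀ (k : ℕ) (l : List ℕ), l.length ≤ k → (∀ x ∈ l, x < L) →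
    encode l < bd L k := by
  intro k
  induction k with
  | zero =>
    intro l hl _
    have : l = [] := List.length_eq_zero_iff.1 (by omega)
    subst this
    simp [bd]
  | succ k ih =>
    intro l hl h
    cases l with
    | nil => simp [bd]
    | cons a l =>
      rw [Encodable.encode_list_cons]
      have h1 := ih l (by simp only [List.length_cons] at hl; omega) fun x hx => h x (by simp [hx])
      have h2 : a < L := h a (by simp)
      have h3 : Nat.pair a (encode l) < Nat.pair L (encode l) := Nat.pair_lt_pair_left _ h2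
      have h4 : Nat.pair L (encode l) < Nat.pair L (bd L k) := Nat.pair_lt_pair_right _ h1
      simp only [bd, Encodable.encode_nat] at *
      omega

theorem nodup_length_le {L : ℕ} {I : List ℕ} (h : I.Nodup) (hI : ∀ i ∈ I, i < L) :
    I.length ≤ L := by
  have h1 : I.toFinset ⊆ Finset.range L := by
    intro i hi
    rw [List.mem_toFinset] at hi
    exact Finset.mem_range.2 (hI i hi)
  have h2 := Finset.card_le_card h1
  rw [List.toFinset_card_of_nodup h, Finset.card_range] at h2
  exact h2

theorem good_iff (e s : ℕ) (v : V) (f : List (ℕ × ℕ)) :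
    good (ph ev (H ev s)) e s v f = true ↔ Good ev e s v f := by
  have key : mx (f.map Prod.fst) < s → (chk (ph ev (H ev s)) e s f = true ↔
      ∀ I : List ℕ, I.Nodup → (∀ i ∈ I, i < f.length) → Chk1 ev e s f I) := by
    intro hs
    have h1 : ∀ I : List ℕ, (∀ i ∈ I, i < f.length) →
        (chk1 (ph ev (H ev s)) e s f I = true ↔ Chk1 ev e s f I) := by
      intro I hI
      unfold chk1 Chk1
      rw [decide_eq_true_eq, MR_congr (p' := pp ev) (s := s)]
      · refine mx_le fun a ha => ?_
        rw [List.mem_map] at ha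
        obtain ⟨i, hi, rfl⟩ := ha
        have h2 := hI i hi
        rw [List.getElem?_eq_getElem h2, Option.getD_some]
        have h3 : (f[i]).1 ∈ f.map Prod.fst := List.mem_map_of_mem (List.getElem_mem h2)
        have := le_mx h3
        omega
      · intro u hu
        exact ph_H ev hu _
    unfold chk
    rw [allB_iff]
    constructor
    · intro h I hI1 hI2
      rw [← h1 I hI2]
      have h2 := h (encode I) (encode_lt_bd _ _ _ (nodup_length_le hI1 hI2) hI2)
      rw [Denumerable.ofNat_encode] at h2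
      rw [Bool.or_eq_true, Bool.not_eq_true', Bool.and_eq_false_iff] at h2
      rcases h2 with (h2 | h2) | h2
      · exact absurd hI1 (by simpa using h2)
      · exact absurd hI2 (of_decide_eq_false h2)
      · exact h2
    · intro h z _
      rw [Bool.or_eq_true, Bool.not_eq_true', Bool.and_eq_false_iff]
      by_cases h2 : (Denumerable.ofNat (List ℕ) z).Nodup
      · by_cases h3 : ∀ i ∈ Denumerable.ofNat (List ℕ) z, i < f.length
        · right
          rw [h1 _ h3]
          exact h _ h2 h3
        · left; right; exact decide_eq_false h3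
      · left; left; exact decide_eq_false h2
  unfold good
  simp only [Bool.and_eq_true, Bool.or_eq_true, decide_eq_true_eq, List.length_eq_zero_iff]
  constructor
  · rintro ⟨h1, h2, h3, h4, h5, h6, h7, h8, h9⟩
    exact ⟨h1, h2, h3, h4, h5, h6, h7, h8, (key h8).1 h9⟩
  · rintro ⟨h1, h2, h3, h4, h5, h6, h7, h8, h9⟩
    exact ⟨h1, h2, h3, h4, h5, h6, h7, h8, (key h8).2 h9⟩

theorem mu_spec (q : ℕ → Bool) (n : ℕ) (h : exB q n = true) : mu q n < n ∧ q (mu q n) = true := by
  induction n with
  | zero =>
    obtain ⟨i, hi, _⟩ := (exB_iff q 0).1 h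
    omega
  | succ n ih =>
    simp only [mu]
    by_cases h1 : exB q n = true
    · rw [h1, cond_true]
      obtain ⟨h2, h3⟩ := ih h1
      exact ⟨by omega, h3⟩
    · obtain ⟨i, hi, hqi⟩ := (exB_iff q (n + 1)).1 h
      have h2 : i = n := by
        by_contra hne
        exact h1 ((exB_iff q n).2 ⟨i, by omega, hqi⟩)
      subst h2
      rw [Bool.not_eq_true] at h1
      rw [h1, cond_false]
      exact ⟨by omega, hqi⟩

/-- the three cases of the action of an isomorphism node -/
theorem act_even (s : ℕ) (η : List ℕ) (hη : η.length % 2 = 0) :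
    ((mem ev s η).1.1 = 0 ∧ act ev s η = (2, ((encode (H ev s) + 1, 0), []))) ∨
    ((mem ev s η).1.1 ≠ 0 ∧ ∃ f, Good ev (η.length / 2) s (mem ev s η) f ∧
      act ev s η = (0, (((mem ev s η).1.1, (mem ev s η).1.2 + 1), f))) ∨
    ((mem ev s η).1.1 ≠ 0 ∧ (∀ f, encode f < s → ¬ Good ev (η.length / 2) s (mem ev s η) f) ∧
      act ev s η = (2, mem ev s η)) := by
  unfold act stepn
  have h0 : decide (η.length % 2 = 0) = true := by simp [hη]
  rw [h0, cond_true]
  unfold stepI
  change (_ ∧ (bif decide ((mem ev s η).1.1 = 0) then _ else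
    (bif exB (fun z => good (ph ev (H ev s)) (η.length / 2) s (mem ev s η) _) s then _ else _)) = _) ∨
    (_ ∧ ∃ f, _ ∧ (bif decide ((mem ev s η).1.1 = 0) then _ else
    (bif exB (fun z => good (ph ev (H ev s)) (η.length / 2) s (mem ev s η) _) s then _ else _)) = _) ∨
    (_ ∧ _ ∧ (bif decide ((mem ev s η).1.1 = 0) then _ else
    (bif exB (fun z => good (ph ev (H ev s)) (η.length / 2) s (mem ev s η) _) s then _ else _)) = _)
  by_cases h1 : (mem ev s η).1.1 = 0
  · left
    refine ⟨h1, ?_⟩
    rw [decide_eq_true h1, cond_true]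
  · right
    have h2 : decide ((mem ev s η).1.1 = 0) = false := decide_eq_false h1
    rw [h2, cond_false]
    by_cases h3 : exB (fun z => good (ph ev (H ev s)) (η.length / 2) s (mem ev s η)
        (Denumerable.ofNat (List (ℕ × ℕ)) z)) s = true
    · left
      refine ⟨h1, _, ?_, by rw [h3, cond_true]; rfl⟩
      obtain ⟨h4, h5⟩ := mu_spec _ _ h3
      rw [← good_iff]
      exact h5
    · right
      refine ⟨h1, ?_, ?_⟩
      · intro f hf hg
        apply h3
        rw [exB_iff]
        refine ⟨encode f, hf, ?_⟩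
        rw [Denumerable.ofNat_encode, good_iff]
        exact hg
      · rw [Bool.not_eq_true] at h3
        rw [h3, cond_false]
        rfl

end Pool.Agent.Helper750.CT
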