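import Pool.Agent.Helper750.CT.Slots

set_option autoImplicit false

/-! The true path. -/

namespace Pool.Agent.Helper750.CT

open Pool.Agent.Helper750.DC Pool.Agent.Helper446.RE Encodable Nat.Partrec

variable (ev : ℕ → ℕ → Bool)

theorem out_le (s : ℕ) (ρ : List ℕ) : (act ev s ρ).1 ≤ 2 := by
  rcases Nat.mod_two_eq_zero_or_one ρ.length with h | h
  · rcases act_even ev s ρ h with h1 | ⟨-, f, -, h1⟩ | ⟨-, -, h1⟩
    · rw [h1.2]
    · rw [h1]; exact Nat.zero_le _
    · rw [h1]
  · rw [act_odd ev s ρ h]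
    split_ifs <;> simp

/-- the node is visited infinitely often -/
def InfV (ρ : List ℕ) : Prop := ∀ s0, ∃ s, s0 ≤ s ∧ vis (path ev s) ρ = true

/-- from some stage on the path is not to the left of the node -/
def FinL (ρ : List ℕ) : Prop := ∃ s0, ∀ s, s0 ≤ s → lft (path ev s) ρ = false

theorem take_append_one {ρ : List ℕ} {o i : ℕ} (hi : i ≤ ρ.length) :
    (ρ ++ [o]).take i = ρ.take i := by
  rw [List.take_append_of_le_length hi]

theorem getD_append_lt {ρ : List ℕ} {o i : ℕ} (hi : i < ρ.length) :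
    (ρ ++ [o]).getD i 0 = ρ.getD i 0 := by
  simp [List.getD_eq_getElem?_getD, List.getElem?_append_left hi]

theorem getD_append_len {ρ : List ℕ} {o : ℕ} : (ρ ++ [o]).getD ρ.length 0 = o := by
  simp [List.getD_eq_getElem?_getD]

theorem vis_snoc {δ ρ : List ℕ} {o : ℕ} : vis δ (ρ ++ [o]) = true ↔
    ρ.length + 1 < δ.length ∧ vis δ ρ = true ∧ δ.getD ρ.length 0 = o := by
  constructor
  · intro h
    have h1 := vis_prefix h ρ.length (by simp)
    rw [take_append_one le_rfl, List.take_length] at h1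
    have h2 := vis_getD h (i := ρ.length) (by simp)
    rw [getD_append_len] at h2
    rw [vis_iff] at h
    simp only [List.length_append, List.length_singleton] at h
    exact ⟨h.1, h1, h2.symm⟩
  · rintro ⟨h1, h2, h3⟩
    rw [vis_iff] at h2 ⊢
    simp only [List.length_append, List.length_singleton]
    refine ⟨h1, ?_⟩
    rw [List.take_add_one, h2.2]
    congr 1
    rw [List.getElem?_eq_getElem h2.1, Option.toList_some]
    rw [List.getD_eq_getElem?_getD, List.getElem?_eq_getElem h2.1, Option.getD_some] at h3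
    rw [h3]

theorem lft_snoc {δ ρ : List ℕ} {o : ℕ} (h : lft δ (ρ ++ [o]) = true) :
    lft δ ρ = true ∨ (vis δ ρ = true ∧ δ.getD ρ.length 0 < o) := by
  rw [lft_iff] at h
  obtain ⟨i, h1, h2, h3, h4⟩ := h
  simp only [List.length_append, List.length_singleton] at h1
  rcases Nat.lt_or_ge i ρ.length with h5 | h5
  · left
    rw [lft_iff]
    rw [take_append_one h5.le] at h3
    rw [getD_append_lt h5] at h4
    exact ⟨i, h5, h2, h3, h4⟩
  · obtain rfl : i = ρ.length := by omega
    right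
    rw [take_append_one le_rfl, List.take_length] at h3
    rw [getD_append_len] at h4
    rw [vis_iff]
    exact ⟨⟨h2, h3⟩, h4⟩

/-- On the true path there is a next node. -/
theorem tp_next {ρ : List ℕ} (h1 : InfV ev ρ) (h2 : FinL ev ρ) :
    ∃ o, o ≤ 2 ∧ InfV ev (ρ ++ [o]) ∧ FinL ev (ρ ++ [o]) := by
  classical
  obtain ⟨s0, hs0⟩ := h2
  -- the outcomes that occur infinitely often
  have h3 : ∃ o, o ≤ 2 ∧ ∀ t, ∃ s, t ≤ s ∧ vis (path ev s) ρ = true ∧
      (path ev s).getD ρ.length 0 = o := by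
    by_contra hcon
    push Not at hcon
    choose! t ht using hcon
    obtain ⟨s, hs, hv⟩ := h1 (max (t 0) (max (t 1) (t 2)))
    have h4 := out_le ev s ρ
    rw [← out_eq ev hv] at h4
    have h5 : t 0 ≤ s := le_trans (le_max_left _ _) hs
    have h6 : t 1 ≤ s := le_trans (le_trans (le_max_left _ _) (le_max_right _ _)) hs
    have h7 : t 2 ≤ s := le_trans (le_trans (le_max_right _ _) (le_max_right _ _)) hs
    have a0 := ht 0 (by omega) s h5 hv
    have a1 := ht 1 (by omega) s h6 hv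
    have a2 := ht 2 (by omega) s h7 hv
    omega
  let o := Nat.find h3
  have ho : o ≤ 2 ∧ ∀ t, ∃ s, t ≤ s ∧ vis (path ev s) ρ = true ∧
      (path ev s).getD ρ.length 0 = o := Nat.find_spec h3
  refine ⟨o, ho.1, ?_, ?_⟩
  · intro s1
    obtain ⟨s, hs1, hs2, hs3⟩ := ho.2 (max s1 (ρ.length + 2))
    refine ⟨s, le_trans (le_max_left _ _) hs1, ?_⟩
    rw [vis_snoc, path_len]
    exact ⟨lt_of_lt_of_le (by omega) (le_trans (le_max_right _ _) hs1), hs2, hs3⟩
  · -- smaller outcomes occur finitely often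
    have h4 : ∀ o' < o, ∃ t, ∀ s, t ≤ s → vis (path ev s) ρ = true →
        (path ev s).getD ρ.length 0 ≠ o' := by
      intro o' ho'
      have h5 := Nat.find_min h3 ho'
      push Not at h5
      obtain ⟨t, ht⟩ := h5 (by omega)
      exact ⟨t, fun s hs hv => ht s hs hv⟩
    choose! t ht using h4
    refine ⟨max s0 ((Finset.range o).sup t), fun s hs => ?_⟩
    rw [← Bool.not_eq_true]
    intro hl
    rcases lft_snoc hl with h5 | ⟨h5, h6⟩
    · rw [hs0 s (le_trans (le_max_left _ _) hs)] at h5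
      simp at h5
    · have h7 : t ((path ev s).getD ρ.length 0) ≤ s :=
        le_trans (Finset.le_sup (f := t) (Finset.mem_range.2 h6))
          (le_trans (le_max_right _ _) hs)
      exact ht _ h6 s h7 h5 rfl

theorem root_inf : InfV ev [] := by
  intro s0
  refine ⟨s0 + 1, by omega, ?_⟩
  rw [vis_iff, path_len]
  simp

theorem root_fin : FinL ev [] := by
  refine ⟨0, fun s _ => ?_⟩
  rw [← Bool.not_eq_true, lft_iff]
  rintro ⟨i, h, -⟩
  simp at h

/-- the true path -/
theorem exists_tp : ∃ g : ℕ → List ℕ, g 0 = [] ∧ ∀ j, (g j).length = j ∧ InfV ev (g j) ∧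
    FinL ev (g j) ∧ ∃ o, o ≤ 2 ∧ g (j + 1) = g j ++ [o] := by
  classical
  let nxt : {ρ : List ℕ // InfV ev ρ ∧ FinL ev ρ} → {ρ : List ℕ // InfV ev ρ ∧ FinL ev ρ} :=
    fun ρ => ⟨ρ.1 ++ [(tp_next ev ρ.2.1 ρ.2.2).choose],
      (tp_next ev ρ.2.1 ρ.2.2).choose_spec.2.1, (tp_next ev ρ.2.1 ρ.2.2).choose_spec.2.2⟩
  let g : ℕ → {ρ : List ℕ // InfV ev ρ ∧ FinL ev ρ} := fun j =>
    Nat.rec ⟨[], root_inf ev, root_fin ev⟩ (fun _ ρ => nxt ρ) j
  refine ⟨fun j => (g j).1, rfl, fun j => ⟨?_, (g j).2.1, (g j).2.2,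
    (tp_next ev (g j).2.1 (g j).2.2).choose, (tp_next ev (g j).2.1 (g j).2.2).choose_spec.1,
    rfl⟩⟩
  induction j with
  | zero => rfl
  | succ j ih =>
    change ((g j).1 ++ [_]).length = j + 1
    simp [ih]

end Pool.Agent.Helper750.CT
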