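import Pool.Agent.Helper750.CT.Base
import Pool.Agent.Helper750.DC.FO
set_option autoImplicit false

namespace Pool.Agent.Helper750.CT

open Pool.Agent.Helper750.DC Pool.Agent.Helper446.RE Encodable Nat.Partrec

/-- every r.e. set of numbers is many-one reducible to the halting problem -/
theorem Th_K_re {A : ℕ → Prop} (hA : REPred A) :
    ∃ a : ℕ → ℕ, Computable a ∧ ∀ n, (a n ∈ K ↔ A n) := by
  have hA' : REPred fun z : ℕ => A z.unpair.1 :=
    Pool.Agent.Helper446.RE.comp hA (f := fun z : ℕ => z.unpair.1)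
      (Computable.fst.comp Computable.unpair)
  obtain ⟨c, hc⟩ := Nat.Partrec.Code.exists_code.1 hA'
  have hdom : ∀ z, (Code.eval c z).Dom ↔ A z.unpair.1 := by
    intro z
    have h1 : Code.eval c (encode z) =
        (Part.assert (A z.unpair.1) fun _ => Part.some ()).map encode := by
      rw [hc]; simp
    have h0 : encode z = z := rfl
    rw [h0] at h1
    rw [h1]
    simp only [Part.map_Dom]
    constructor
    · rintro ⟨h, -⟩; exact h
    · intro h; exact ⟨h, trivial⟩
  refine ⟨fun n => encode (Code.curry c n), ?_, fun n => ?_⟩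
  · exact Computable.encode.comp
      ((Primrec₂.to_comp Code.primrec₂_curry).comp (Computable.const c) Computable.id)
  · show ((Denumerable.ofNat Code (encode (Code.curry c n))).eval
      (encode (Code.curry c n))).Dom ↔ A n
    rw [Denumerable.ofNat_encode, Code.eval_curry, hdom, Nat.unpair_pair]

/-- certificates with r.e. verifier -/
theorem Th_K_cert {O : Set (ℕ →. ℕ)} {G : ℕ → ℕ} (hG : Pool.Agent.Helper743.RecT O G)
    (R : List ℕ → ℕ → ℕ → Prop)
    (hR : REPred fun q : (List ℕ × ℕ) × ℕ => R q.1.1 q.1.2 q.2) (f : ℕ → ℕ)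
    (hex : ∀ x, ∃ n, R (Pool.Agent.Helper743.pre G n) x (f x))
    (hs : ∀ x n y, R (Pool.Agent.Helper743.pre G n) x y → y = f x) :
    Pool.Agent.Helper743.RecT O f := by
  obtain ⟨q, hq, hqR⟩ := re_iff.1 hR
  have hq' : Computable fun z : ((List ℕ × ℕ) × ℕ) × ℕ => q z.1 z.2 := hq
  refine Pool.Agent.Helper743.cert hG
    (fun σ x w => bif q ((σ, x), w.unpair.1) w.unpair.2 then some w.unpair.1 else none) ?_ f ?_ ?_
  · refine ccond ?_ (by fun_prop) (by fun_prop)
    exact hq'.comp (f := fun z : ((List ℕ × ℕ) × ℕ) × ℕ => q z.1 z.2)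
      (g := fun z : (List ℕ × ℕ) × ℕ => (((z.1.1, z.1.2), z.2.unpair.1), z.2.unpair.2))
      (by fun_prop)
  · intro x
    obtain ⟨n, hn⟩ := hex x
    obtain ⟨m, hm⟩ := (hqR ((Pool.Agent.Helper743.pre G n, x), f x)).1 hn
    refine ⟨n, Nat.pair (f x) m, ?_⟩
    simp [hm]
  · intro x n w y h
    by_cases hb : q ((Pool.Agent.Helper743.pre G n, x), w.unpair.1) w.unpair.2 = true
    · rw [hb, cond_true, Option.some.injEq] at h
      rw [← h]
      exact hs x n _ ((hqR ((Pool.Agent.Helper743.pre G n, x), w.unpair.1)).2 ⟨_, hb⟩)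
    · rw [Bool.not_eq_true] at hb
      rw [hb, cond_false] at h
      exact absurd h (by simp)

/-! ### assignments as lists -/

/-- value of a list at an index -/
def Th_K_as (as : List ℕ) (i : ℕ) : ℕ := as.getD i 0

/-- update of a list -/
def Th_K_up (as : List ℕ) (u a : ℕ) : List ℕ :=
  (List.range (max as.length (u + 1))).map (fun i => if i = u then a else as.getD i 0)

theorem Th_K_as_up (as : List ℕ) (u a : ℕ) :
    Th_K_as (Th_K_up as u a) = Function.update (Th_K_as as) u a := by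
  funext i
  unfold Th_K_as Th_K_up
  rw [List.getD_eq_getElem?_getD, List.getElem?_map]
  by_cases hi : i < max as.length (u + 1)
  · rw [List.getElem?_range hi]
    simp only [Option.map_some, Option.getD_some]
    by_cases h : i = u
    · subst h; simp
    · rw [if_neg h, Function.update_of_ne h]
  · rw [List.getElem?_eq_none (by simpa using hi)]
    have h1 : i ≠ u := by omega
    rw [Function.update_of_ne h1]
    rw [List.getD_eq_default _ _ (by omega)]
    rfl

section comp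
variable {α : Type*} [Primcodable α]

@[fun_prop] theorem Th_K_cas {f : α → List ℕ} {g : α → ℕ} (hf : Computable f)
    (hg : Computable g) : Computable fun x => Th_K_as (f x) (g x) :=
  (Primrec.list_getD 0).to_comp.comp hf hg

@[fun_prop] theorem Th_K_cup {f : α → List ℕ} {g h : α → ℕ} (hf : Computable f)
    (hg : Computable g) (hh : Computable h) : Computable fun x => Th_K_up (f x) (g x) (h x) := by
  have h1 : Primrec fun q : (List ℕ × ℕ) × ℕ => Th_K_up q.1.1 q.1.2 q.2 := by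
    unfold Th_K_up
    refine Primrec.list_map (Primrec.list_range.comp ?_) ?_
    · exact Primrec.nat_max.comp (Primrec.list_length.comp (Primrec.fst.comp Primrec.fst))
        (Primrec.succ.comp (Primrec.snd.comp Primrec.fst))
    · refine Primrec.ite ?_ ?_ ?_
      · exact Primrec.eq.comp Primrec.snd (Primrec.snd.comp (Primrec.fst.comp Primrec.fst))
      · exact Primrec.snd.comp Primrec.fst
      · exact (Primrec.list_getD 0).comp (Primrec.fst.comp (Primrec.fst.comp Primrec.fst))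
          Primrec.snd
  exact h1.to_comp.comp (g := fun x => ((f x, g x), h x)) (by fun_prop)

@[fun_prop] theorem Th_K_cmap {f g : α → List ℕ} (hf : Computable f)
    (hg : Computable g) : Computable fun x => (f x).map (Th_K_as (g x)) := by
  have h1 : Primrec fun q : List ℕ × List ℕ => q.1.map (Th_K_as q.2) := by
    refine Primrec.list_map Primrec.fst ?_
    exact (Primrec.list_getD 0).comp (Primrec.snd.comp Primrec.fst) Primrec.snd
  exact h1.to_comp.comp (g := fun x => (f x, g x)) (by fun_prop)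

@[fun_prop] theorem Th_K_cof {f : α → ℕ} (hf : Computable f) :
    Computable fun x => (Denumerable.ofNat (List ℕ) (f x)) := (Computable.ofNat (List ℕ)).comp hf

end comp

/-! ### sentences -/

/-- free variables by codes -/
noncomputable def Th_K_fr (a n : ℕ) : Bool :=
  open Classical in decide (Free (FO.num n) a)

/-- recursion step -/
def Th_K_g (a : ℕ) (l : List Bool) : Option Bool :=
  bif decide (l.length.unpair.1 = 0) then
    some (decide (a ∈ Denumerable.ofNat (List ℕ) l.length.unpair.2.unpair.2))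
  else bif decide (l.length.unpair.1 = 1) then
    some (decide (a ∈ Denumerable.ofNat (List ℕ) l.length.unpair.2.unpair.2.unpair.2) ||
      decide (a = l.length.unpair.2.unpair.2.unpair.1))
  else bif decide (l.length.unpair.1 = 2) then
    some (decide (a = l.length.unpair.2.unpair.1) || decide (a = l.length.unpair.2.unpair.2))
  else bif decide (l.length.unpair.1 = 3) then l[l.length.unpair.2]?
  else bif decide (l.length.unpair.1 = 4) then
    some (((l[l.length.unpair.2.unpair.1]?).getD false) ||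
      ((l[l.length.unpair.2.unpair.2]?).getD false))
  else some (((l[l.length.unpair.2]?).getD false) &&
    !(decide (a = l.length.unpair.1 - 5)))

theorem Th_K_g_comp : Computable₂ Th_K_g := by
  have h1 : ∀ k : ℕ, Computable fun q : ℕ × List Bool =>
      decide (q.2.length.unpair.1 = k) := fun k => cdecide (cp_eq (by fun_prop) (by fun_prop))
  have h2 : Computable fun q : ℕ × List Bool =>
      decide (q.1 ∈ Denumerable.ofNat (List ℕ) q.2.length.unpair.2.unpair.2) :=
    cdecide (cp_mem (by fun_prop) (by fun_prop))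
  have h3 : Computable fun q : ℕ × List Bool =>
      decide (q.1 ∈ Denumerable.ofNat (List ℕ) q.2.length.unpair.2.unpair.2.unpair.2) :=
    cdecide (cp_mem (by fun_prop) (by fun_prop))
  have h4 : Computable fun q : ℕ × List Bool =>
      decide (q.1 = q.2.length.unpair.2.unpair.2.unpair.1) :=
    cdecide (cp_eq (by fun_prop) (by fun_prop))
  have h5 : Computable fun q : ℕ × List Bool =>
      decide (q.1 = q.2.length.unpair.2.unpair.1) :=
    cdecide (cp_eq (by fun_prop) (by fun_prop))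
  have h6 : Computable fun q : ℕ × List Bool =>
      decide (q.1 = q.2.length.unpair.2.unpair.2) :=
    cdecide (cp_eq (by fun_prop) (by fun_prop))
  have h7 : Computable fun q : ℕ × List Bool =>
      decide (q.1 = q.2.length.unpair.1 - 5) :=
    cdecide (cp_eq (by fun_prop) (by fun_prop))
  have h8 : ∀ {f : ℕ × List Bool → Option Bool}, Computable f →
      Computable fun x => (f x).getD false := fun {f} hf =>
    Computable.option_getD hf (Computable.const false)
  unfold Th_K_g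
  refine ccond (h1 0) (csome h2) (ccond (h1 1) (csome (cor h3 h4)) (ccond (h1 2)
    (csome (cor h5 h6)) (ccond (h1 3) (by fun_prop) (ccond (h1 4) (csome (cor (h8 (by fun_prop))
    (h8 (by fun_prop)))) (csome (cand (h8 (by fun_prop)) (cnot h7)))))))

theorem Th_K_di (p : Prop) (i : Decidable p) : p ↔ @decide p i = true := by simp

theorem Th_K_fr_comp : Computable₂ Th_K_fr := by
  classical
  refine Computable.nat_strong_rec Th_K_fr (g := Th_K_g) Th_K_g_comp ?_
  intro a n
  have hget : ∀ r, r < n → ((List.range n).map (Th_K_fr a))[r]? = some (Th_K_fr a r) := by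
    intro r hr
    rw [List.getElem?_map, List.getElem?_range hr]
    rfl
  obtain ⟨φ, hφ⟩ := FO.code_surj n
  have hn : Th_K_fr a n = decide (Free φ a) := by
    unfold Th_K_fr
    rw [← hφ, FO.num_code]
  rw [hn]
  unfold Th_K_g
  simp only [List.length_map, List.length_range]
  cases φ with
  | rel i vs =>
    rw [← hφ]
    (simp [Fml.code, Free]) <;> (rw [Bool.eq_iff_iff]; (first | (simp; done) | (simp; exact Th_K_di _ _)))
  | fn i vs w =>
    rw [← hφ]
    (simp [Fml.code, Free]) <;> (rw [Bool.eq_iff_iff]; (first | (simp; done) | (simp; exact Th_K_di _ _)))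
  | eq v w =>
    rw [← hφ]
    (simp [Fml.code, Free]) <;> (rw [Bool.eq_iff_iff]; (first | (simp; done) | (simp; exact Th_K_di _ _)))
  | not ψ =>
    have h1 : n.unpair = (3, ψ.code) := by rw [← hφ]; simp [Fml.code]
    have h2 : ψ.code < n := by
      have := Nat.add_le_pair 3 ψ.code
      rw [← hφ]
      simp only [Fml.code]
      omega
    have h3 := hget _ h2
    rw [h1]
    simp only [h3]
    (simp [Th_K_fr, Free]) <;> (rw [Bool.eq_iff_iff]; (first | (simp; done) | (simp; exact Th_K_di _ _)))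
  | and ψ χ =>
    have h1 : n.unpair = (4, Nat.pair ψ.code χ.code) := by rw [← hφ]; simp [Fml.code]
    have h2 : Nat.pair ψ.code χ.code < n := by
      have := Nat.add_le_pair 4 (Nat.pair ψ.code χ.code)
      rw [← hφ]
      simp only [Fml.code]
      omega
    have h3 := hget _ (lt_of_le_of_lt (Nat.left_le_pair ψ.code χ.code) h2)
    have h4 := hget _ (lt_of_le_of_lt (Nat.right_le_pair ψ.code χ.code) h2)
    rw [h1]
    simp only [Nat.unpair_pair, h3, h4]
    (simp [Th_K_fr, Free]) <;> (rw [Bool.eq_iff_iff]; (first | (simp; done) | (simp; exact Th_K_di _ _)))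
  | ex u ψ =>
    have h1 : n.unpair = (5 + u, ψ.code) := by rw [← hφ]; simp [Fml.code]
    have h2 : ψ.code < n := by
      have := Nat.add_le_pair (5 + u) ψ.code
      rw [← hφ]
      simp only [Fml.code]
      omega
    have h3 := hget _ h2
    rw [h1]
    have h5 : ∀ k, k < 5 → ¬ (5 + u = k) := by intro k hk; omega
    simp only [h3, h5 0 (by norm_num), h5 1 (by norm_num), h5 2 (by norm_num),
      h5 3 (by norm_num), h5 4 (by norm_num), decide_false, cond_false, Nat.add_sub_cancel_left]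
    (simp [Th_K_fr, Free]) <;> (rw [Bool.eq_iff_iff]; (first | (simp; done) | (simp; exact Th_K_di _ _)))

theorem Th_K_free_le : ∀ (φ : Fml) (v : ℕ), Free φ v → v ≤ φ.code := by
  intro φ
  induction φ with
  | rel i vs =>
    intro v hv
    have h1 := FO.le_encode vs v hv
    have h2 := Nat.right_le_pair i (Encodable.encode vs)
    have h3 := Nat.right_le_pair 0 (Nat.pair i (Encodable.encode vs))
    simp only [Fml.code]
    omega
  | fn i vs w =>
    intro v hv
    have h2 := Nat.right_le_pair w (Encodable.encode vs)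
    have h2' := Nat.left_le_pair w (Encodable.encode vs)
    have h3 := Nat.right_le_pair i (Nat.pair w (Encodable.encode vs))
    have h4 := Nat.right_le_pair 1 (Nat.pair i (Nat.pair w (Encodable.encode vs)))
    simp only [Fml.code]
    rcases hv with hv | hv
    · have h1 := FO.le_encode vs v hv
      omega
    · omega
  | eq u w =>
    intro v hv
    have h2 := Nat.right_le_pair u w
    have h2' := Nat.left_le_pair u w
    have h3 := Nat.right_le_pair 2 (Nat.pair u w)
    simp only [Fml.code]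
    rcases hv with hv | hv <;> omega
  | not φ ih =>
    intro v hv
    have h1 := ih v hv
    have h3 := Nat.right_le_pair 3 φ.code
    simp only [Fml.code]
    omega
  | and φ ψ ih1 ih2 =>
    intro v hv
    have h3 := Nat.right_le_pair 4 (Nat.pair φ.code ψ.code)
    have h4 := Nat.right_le_pair φ.code ψ.code
    have h5 := Nat.left_le_pair φ.code ψ.code
    simp only [Fml.code]
    rcases hv with hv | hv
    · have := ih1 v hv
      omega
    · have := ih2 v hv
      omega
  | ex u φ ih =>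
    intro v hv
    have h1 := ih v hv.1
    have h3 := Nat.right_le_pair (5 + u) φ.code
    simp only [Fml.code]
    omega

theorem Th_K_symBd_le : ∀ (φ : Fml), symBd φ ≤ φ.code + 1 := by
  intro φ
  induction φ with
  | rel i vs =>
    have h2 := Nat.left_le_pair i (Encodable.encode vs)
    have h3 := Nat.right_le_pair 0 (Nat.pair i (Encodable.encode vs))
    simp only [Fml.code, symBd]
    omega
  | fn i vs w => simp [symBd]
  | eq u w => simp [symBd]
  | not φ ih =>
    have h3 := Nat.right_le_pair 3 φ.code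
    simp only [Fml.code, symBd]
    omega
  | and φ ψ ih1 ih2 =>
    have h3 := Nat.right_le_pair 4 (Nat.pair φ.code ψ.code)
    have h4 := Nat.right_le_pair φ.code ψ.code
    have h5 := Nat.left_le_pair φ.code ψ.code
    simp only [Fml.code, symBd]
    omega
  | ex u φ ih =>
    have h3 := Nat.right_le_pair (5 + u) φ.code
    simp only [Fml.code, symBd]
    omega

theorem Th_K_sent : ∃ s : ℕ → Bool, Computable s ∧ ∀ φ : Fml, s φ.code = true ↔ IsSent φ := by
  classical
  refine ⟨fun n => allB (fun v => !(Th_K_fr v n)) (n + 1), ?_, ?_⟩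
  · have h1 : Computable₂ fun (n v : ℕ) => !(Th_K_fr v n) := by
      have h2 : Computable fun q : ℕ × ℕ => Th_K_fr q.2 q.1 :=
        Computable₂.comp Th_K_fr_comp Computable.snd Computable.fst
      exact cnot h2
    exact computable_allB h1 (by fun_prop)
  · intro φ
    rw [allB_iff]
    unfold IsSent
    constructor
    · intro h v hv
      have h1 := h v (Nat.lt_succ_of_le (Th_K_free_le φ v hv))
      unfold Th_K_fr at h1
      rw [FO.num_code] at h1
      simp [hv] at h1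
    · intro h v _
      unfold Th_K_fr
      rw [FO.num_code]
      simp [h v]

/-! ### the relation -/

theorem Th_K_fill (zs : List ℕ) (hz : zs.Nodup) (k : ℕ) :
    ∃ ws : List ℕ, ws.length = k ∧ (zs ++ ws).Nodup := by
  induction k with
  | zero => exact ⟨[], rfl, by simpa using hz⟩
  | succ k ih =>
    obtain ⟨ws, hw, hn⟩ := ih
    obtain ⟨a, ha⟩ := Infinite.exists_notMem_finset (zs ++ ws).toFinset
    rw [List.mem_toFinset] at ha
    refine ⟨ws ++ [a], by simp [hw], ?_⟩
    rw [← List.append_assoc, List.nodup_append]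
    refine ⟨hn, by simp, ?_⟩
    intro b hb c hc hbc
    rw [List.mem_singleton] at hc
    subst hc
    subst hbc
    exact ha hb

theorem Th_K_R {d : ℕ → Option ℕ} {P : ℕ → List ℕ → Prop} {M : Str} (hM : IsGen d P M)
    {n m : ℕ} {zs ws : List ℕ} (hd : d n = some m)
    (hz : zs.length = m) (hl : zs.length + ws.length = n) (hn : (zs ++ ws).Nodup) :
    M.R n (zs ++ ws) ↔ P n zs := by
  have h := hM.rel (zs ++ ws)
  have hlen : (zs ++ ws).length = n := by simp [hl]
  rw [hlen] at h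
  rw [h]
  constructor
  · rintro ⟨_, m', hm', hP⟩
    rw [hd] at hm'
    have h1 : m = m' := Option.some.inj hm'
    rw [← h1, ← hz, List.take_left] at hP
    exact hP
  · intro hP
    refine ⟨hn, m, hd, ?_⟩
    rw [← hz, List.take_left]
    exact hP

/-- the tuples `x` and `y` have different patterns -/
def Th_K_N (e : ℕ × List ℕ → Bool) (l : List ℕ) (c : ℕ) (x y : List ℕ) : Prop :=
  (∃ u v : ℕ, u < c + 1 ∧ (v < c + 1 ∧
    ((Th_K_as x u = Th_K_as x v ∧ Th_K_as y u ≠ Th_K_as y v) ∨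
     (Th_K_as x u ≠ Th_K_as x v ∧ Th_K_as y u = Th_K_as y v)))) ∨
  ∃ vs ws ws' : List ℕ, (∀ v ∈ vs, v < c + 1) ∧
    (l[vs.length + ws.length]? = some (encode (some vs.length)) ∧
    (ws'.length = ws.length ∧ ((vs.map (Th_K_as x) ++ ws).Nodup ∧
    ((vs.map (Th_K_as y) ++ ws').Nodup ∧
    e (vs.length + ws.length, vs.map (Th_K_as x) ++ ws) ≠
      e (vs.length + ws.length, vs.map (Th_K_as y) ++ ws')))))

theorem Th_K_N_re {e : ℕ × List ℕ → Bool} (he : Computable e) :
    REPred fun q : ((List ℕ × ℕ) × List ℕ) × List ℕ => Th_K_N e q.1.1.1 q.1.1.2 q.1.2 q.2 := by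
  unfold Th_K_N
  refine or ?_ ?_
  · refine ex (p := fun (q : ((List ℕ × ℕ) × List ℕ) × List ℕ) (u : ℕ) => ∃ v : ℕ,
      u < q.1.1.2 + 1 ∧ (v < q.1.1.2 + 1 ∧
      ((Th_K_as q.1.2 u = Th_K_as q.1.2 v ∧ Th_K_as q.2 u ≠ Th_K_as q.2 v) ∨
      (Th_K_as q.1.2 u ≠ Th_K_as q.1.2 v ∧ Th_K_as q.2 u = Th_K_as q.2 v)))) ?_
    refine ex (p := fun (q : (((List ℕ × ℕ) × List ℕ) × List ℕ) × ℕ) (v : ℕ) =>
      q.2 < q.1.1.1.2 + 1 ∧ (v < q.1.1.1.2 + 1 ∧
      ((Th_K_as q.1.1.2 q.2 = Th_K_as q.1.1.2 v ∧ Th_K_as q.1.2 q.2 ≠ Th_K_as q.1.2 v) ∨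
      (Th_K_as q.1.1.2 q.2 ≠ Th_K_as q.1.1.2 v ∧ Th_K_as q.1.2 q.2 = Th_K_as q.1.2 v)))) ?_
    refine and (lt (by fun_prop) (by fun_prop)) (and (lt (by fun_prop) (by fun_prop))
      (or (and (eq (by fun_prop) (by fun_prop)) (ne (by fun_prop) (by fun_prop)))
        (and (ne (by fun_prop) (by fun_prop)) (eq (by fun_prop) (by fun_prop)))))
  · refine ex (p := fun (q : ((List ℕ × ℕ) × List ℕ) × List ℕ) (vs : List ℕ) =>
      ∃ ws ws' : List ℕ, (∀ v ∈ vs, v < q.1.1.2 + 1) ∧
      (q.1.1.1[vs.length + ws.length]? = some (encode (some vs.length)) ∧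
      (ws'.length = ws.length ∧ ((vs.map (Th_K_as q.1.2) ++ ws).Nodup ∧
      ((vs.map (Th_K_as q.2) ++ ws').Nodup ∧
      e (vs.length + ws.length, vs.map (Th_K_as q.1.2) ++ ws) ≠
        e (vs.length + ws.length, vs.map (Th_K_as q.2) ++ ws')))))) ?_
    refine ex (p := fun (q : (((List ℕ × ℕ) × List ℕ) × List ℕ) × List ℕ) (ws : List ℕ) =>
      ∃ ws' : List ℕ, (∀ v ∈ q.2, v < q.1.1.1.2 + 1) ∧
      (q.1.1.1.1[q.2.length + ws.length]? = some (encode (some q.2.length)) ∧
      (ws'.length = ws.length ∧ ((q.2.map (Th_K_as q.1.1.2) ++ ws).Nodup ∧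
      ((q.2.map (Th_K_as q.1.2) ++ ws').Nodup ∧
      e (q.2.length + ws.length, q.2.map (Th_K_as q.1.1.2) ++ ws) ≠
        e (q.2.length + ws.length, q.2.map (Th_K_as q.1.2) ++ ws')))))) ?_
    refine ex (p := fun (q : ((((List ℕ × ℕ) × List ℕ) × List ℕ) × List ℕ) × List ℕ)
      (ws' : List ℕ) => (∀ v ∈ q.1.2, v < q.1.1.1.1.2 + 1) ∧
      (q.1.1.1.1.1[q.1.2.length + q.2.length]? = some (encode (some q.1.2.length)) ∧
      (ws'.length = q.2.length ∧ ((q.1.2.map (Th_K_as q.1.1.1.2) ++ q.2).Nodup ∧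
      ((q.1.2.map (Th_K_as q.1.1.2) ++ ws').Nodup ∧
      e (q.1.2.length + q.2.length, q.1.2.map (Th_K_as q.1.1.1.2) ++ q.2) ≠
        e (q.1.2.length + q.2.length, q.1.2.map (Th_K_as q.1.1.2) ++ ws')))))) ?_
    refine and ?_ (and (eq ?_ ?_) (and (eq (by fun_prop) (by fun_prop)) (and (cp_nodup ?_)
      (and (cp_nodup ?_) (ne ?_ ?_)))))
    · refine all_mem (α := ((((((List ℕ × ℕ) × List ℕ) × List ℕ) × List ℕ) × List ℕ) × List ℕ))
        (p := fun q v => v < q.1.1.1.1.1.2 + 1) (l := fun q => q.1.1.2) ?_ (by fun_prop)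
      exact lt (by fun_prop) (by fun_prop)
    all_goals fun_prop

theorem Th_K_N_iff {d : ℕ → Option ℕ} {P : ℕ → List ℕ → Prop} {M : Str} (hM : IsGen d P M)
    {e : ℕ × List ℕ → Bool} (he : ∀ i xs, LL.rel i = some xs.length → (e (i, xs) = true ↔ M.R i xs))
    (c : ℕ) (x y : List ℕ) :
    Th_K_N e (Pool.Agent.Helper743.pre (fun n => encode (d n)) (c + 1)) c x y ↔
      ¬ PI d P P (c + 1) (Finset.range (c + 1)) (Th_K_as x) (Th_K_as y) := by
  have hl : ∀ n v, (Pool.Agent.Helper743.pre (fun n => encode (d n)) (c + 1))[n]? =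
      some (encode (some v)) ↔ n < c + 1 ∧ d n = some v := by
    intro n v
    rw [Pool.Agent.Helper743.pre_getElem?]
    by_cases h : n < c + 1
    · rw [if_pos h]
      constructor
      · intro h1
        exact ⟨h, encode_injective (Option.some.inj h1)⟩
      · rintro ⟨-, h1⟩
        rw [h1]
    · rw [if_neg h]
      constructor
      · intro h1
        exact absurd h1 (by simp)
      · rintro ⟨h1, -⟩
        exact absurd h1 h
  constructor
  · rintro (⟨u, v, hu, hv, h⟩ | ⟨vs, ws, ws', hvs, hd, hw, hn, hn', hne⟩) ⟨hp1, hp2⟩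
    · have h1 := hp1 u (Finset.mem_range.2 hu) v (Finset.mem_range.2 hv)
      rcases h with ⟨h2, h3⟩ | ⟨h2, h3⟩
      · exact h3 (h1.1 h2)
      · exact h2 (h1.2 h3)
    · obtain ⟨hlt, hd⟩ := (hl _ _).1 hd
      have hx := List.Nodup.of_append_left hn
      have h1 := hp2 _ _ hlt hd vs rfl (fun v hv => Finset.mem_range.2 (hvs v hv)) hx
      have h2 := Th_K_R hM (zs := vs.map (Th_K_as x)) (ws := ws) hd (by simp) (by simp) hn
      have h3 := Th_K_R hM (zs := vs.map (Th_K_as y)) (ws := ws') hd (by simp)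
        (by simp [hw]) hn'
      have h4 := he (vs.length + ws.length) (vs.map (Th_K_as x) ++ ws) (by simp [LL])
      have h5 := he (vs.length + ws.length) (vs.map (Th_K_as y) ++ ws') (by simp [LL, hw])
      apply hne
      rw [Bool.eq_iff_iff, h4, h5, h2, h3]
      exact h1
  · intro hnp
    by_contra hN
    unfold Th_K_N at hN
    rw [not_or] at hN
    obtain ⟨hN1, hN2⟩ := hN
    have heq : ∀ u v, u < c + 1 → v < c + 1 →
        (Th_K_as x u = Th_K_as x v ↔ Th_K_as y u = Th_K_as y v) := by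
      intro u v hu hv
      constructor
      · intro h
        by_contra h'
        exact hN1 ⟨u, v, hu, hv, Or.inl ⟨h, h'⟩⟩
      · intro h
        by_contra h'
        exact hN1 ⟨u, v, hu, hv, Or.inr ⟨h', h⟩⟩
    apply hnp
    refine ⟨fun u hu v hv => heq u v (Finset.mem_range.1 hu) (Finset.mem_range.1 hv), ?_⟩
    intro n m hn hd vs hm hvs hx
    have hle := (hM.le n m hd).2
    have hvs' : ∀ v ∈ vs, v < c + 1 := fun v hv => Finset.mem_range.1 (hvs v hv)
    have hy : (vs.map (Th_K_as y)).Nodup := by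
      have h1 := List.Nodup.of_map _ hx
      rw [List.nodup_map_iff_inj_on h1] at hx ⊢
      intro u hu v hv huv
      exact hx u hu v hv ((heq u v (hvs' u hu) (hvs' v hv)).2 huv)
    obtain ⟨ws, hw, hn1⟩ := Th_K_fill _ hx (n - m)
    obtain ⟨ws', hw', hn2⟩ := Th_K_fill _ hy (n - m)
    have hnm : vs.length + ws.length = n := by omega
    have h2 := Th_K_R hM (zs := vs.map (Th_K_as x)) (ws := ws) hd (by simp [hm])
      (by simp [hnm]) hn1
    have h3 := Th_K_R hM (zs := vs.map (Th_K_as y)) (ws := ws') hd (by simp [hm])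
      (by simp [hw', ← hw, hnm]) hn2
    have h4 := he n (vs.map (Th_K_as x) ++ ws) (by simp [LL, hnm])
    have h5 := he n (vs.map (Th_K_as y) ++ ws') (by simp [LL, hw', ← hw, hnm])
    by_contra hne
    apply hN2
    refine ⟨vs, ws, ws', hvs', (hl _ _).2 ⟨by omega, by rw [hnm, hm]; exact hd⟩, by omega,
      hn1, hn2, ?_⟩
    rw [hnm]
    intro h6
    rw [Bool.eq_iff_iff, h4, h5, h2, h3] at h6
    exact hne h6

/-- the number of candidates in the last coordinate is too small -/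
def Th_K_bad (e : ℕ × List ℕ → Bool) (l : List ℕ) (Z : (ℕ × List ℕ) × (ℕ × ℕ)) : Prop :=
  ∃ b, ∀ b' < Z.2.2, Th_K_N e l Z.1.1 (Th_K_up Z.1.2 Z.2.1 b) (Th_K_up Z.1.2 Z.2.1 b')

theorem Th_K_bad_re {e : ℕ × List ℕ → Bool} (he : Computable e) :
    REPred fun q : List ℕ × ((ℕ × List ℕ) × (ℕ × ℕ)) => Th_K_bad e q.1 q.2 := by
  unfold Th_K_bad
  refine ex (p := fun (q : List ℕ × ((ℕ × List ℕ) × (ℕ × ℕ))) (b : ℕ) => ∀ b' < q.2.2.2,
    Th_K_N e q.1 q.2.1.1 (Th_K_up q.2.1.2 q.2.2.1 b) (Th_K_up q.2.1.2 q.2.2.1 b')) ?_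
  refine all_lt (p := fun (q : (List ℕ × ((ℕ × List ℕ) × (ℕ × ℕ))) × ℕ) (b' : ℕ) =>
    Th_K_N e q.1.1 q.1.2.1.1 (Th_K_up q.1.2.1.2 q.1.2.2.1 q.2) (Th_K_up q.1.2.1.2 q.1.2.2.1 b'))
    ?_ (by fun_prop)
  exact Pool.Agent.Helper446.RE.comp (Th_K_N_re he)
    (f := fun q : ((List ℕ × ((ℕ × List ℕ) × (ℕ × ℕ))) × ℕ) × ℕ =>
      (((q.1.1.1, q.1.1.2.1.1), Th_K_up q.1.1.2.1.2 q.1.1.2.2.1 q.1.2),
        Th_K_up q.1.1.2.1.2 q.1.1.2.2.1 q.2)) (by fun_prop)

theorem Th_K_G {d : ℕ → Option ℕ} {P : ℕ → List ℕ → Prop} {M : Str} (hM : IsGen d P M)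
    {e : ℕ × List ℕ → Bool} (he : Computable e)
    (heM : ∀ i xs, LL.rel i = some xs.length → (e (i, xs) = true ↔ M.R i xs))
    (hd : TLe (fun n => encode (d n)) (chi K)) :
    ∃ G : ℕ → ℕ, Pool.Agent.Helper743.RecT {((chi K : ℕ → ℕ) : ℕ →. ℕ)} G ∧
      ∀ (r : ℕ) (as : List ℕ) (u g : ℕ), G (encode ((r, as), (u, g))) = 0 ↔
        ∀ b, ∃ b' < g, PI d P P (r + 1) (Finset.range (r + 1))
          (Function.update (Th_K_as as) u b) (Function.update (Th_K_as as) u b') := by
  have hA : REPred fun k : ℕ => Th_K_bad e (Denumerable.ofNat (List ℕ) k.unpair.1)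
      (Denumerable.ofNat ((ℕ × List ℕ) × (ℕ × ℕ)) k.unpair.2) := by
    refine Pool.Agent.Helper446.RE.comp (Th_K_bad_re he)
      (f := fun k : ℕ => (Denumerable.ofNat (List ℕ) k.unpair.1,
        Denumerable.ofNat ((ℕ × List ℕ) × (ℕ × ℕ)) k.unpair.2)) ?_
    exact ((Computable.ofNat _).comp (by fun_prop)).pair ((Computable.ofNat _).comp (by fun_prop))
  obtain ⟨a, ha, haK⟩ := Th_K_re hA
  have hdd : Pool.Agent.Helper743.RecT {((chi K : ℕ → ℕ) : ℕ →. ℕ)} (fun n => encode (d n)) :=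
    Pool.Agent.Helper743.TR_iff.2 hd
  have hc : Computable fun z : ℕ =>
      (Denumerable.ofNat ((ℕ × List ℕ) × (ℕ × ℕ)) z).1.1 + 1 := by
    have h1 : Computable fun z : ℕ => Denumerable.ofNat ((ℕ × List ℕ) × (ℕ × ℕ)) z :=
      Computable.ofNat _
    fun_prop
  refine ⟨fun z => chi K (a (Nat.pair (encode (Pool.Agent.Helper743.pre (fun n => encode (d n))
    ((Denumerable.ofNat ((ℕ × List ℕ) × (ℕ × ℕ)) z).1.1 + 1))) z)), ?_, ?_⟩
  · exact (Pool.Agent.Helper743.TR.refl (chi K)).comp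
      ((Pool.Agent.Helper743.Computable.recT ha).comp
        (((Pool.Agent.Helper743.recT_pre hdd).comp
          (Pool.Agent.Helper743.Computable.recT hc)).pair
          (Pool.Agent.Helper743.Computable.recT Computable.id)))
  · intro r as u g
    have h1 : ∀ n, chi K n = 0 ↔ n ∉ K := by
      intro n
      unfold chi
      by_cases h : n ∈ K
      · simp [h]
      · simp [h]
    simp only
    rw [h1, haK]
    simp only [Nat.unpair_pair, Denumerable.ofNat_encode]
    unfold Th_K_bad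
    rw [not_exists]
    apply forall_congr'
    intro b
    rw [not_forall]
    apply exists_congr
    intro b'
    rw [Classical.not_imp, Th_K_N_iff hM heM, not_not, Th_K_as_up, Th_K_as_up]

theorem Th_K_g_ex (d : ℕ → Option ℕ) (P : ℕ → List ℕ → Prop)
    (hle : ∀ n m, d n = some m → m ≤ n) (c : ℕ) (x : ℕ → ℕ) (u : ℕ) :
    ∃ g, ∀ b, ∃ b' < g, PI d P P (c + 1) (Finset.range (c + 1))
      (Function.update x u b) (Function.update x u b') := by
  classical
  let W := {l : List (Fin (c + 1)) // l.length ≤ c}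
  have hW : Finite W := (List.finite_length_le (Fin (c + 1)) c).to_subtype
  let f : ℕ → Set (Fin (c + 1) × Fin (c + 1)) × Set (Fin (c + 1) × W) := fun b =>
    ({p | Function.update x u b p.1 = Function.update x u b p.2},
      {q | P q.1 ((q.2.1.map Fin.val).map (Function.update x u b))})
  have hfin : (Set.range f).Finite := Set.toFinite _
  choose s hs using fun y : Set.range f => y.2
  have hfin2 : Finite (Set.range f) := hfin.to_subtype
  obtain ⟨B, hB⟩ := (Set.finite_range s).bddAbove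
  refine ⟨B + 1, fun b => ⟨s ⟨f b, b, rfl⟩, ?_, ?_⟩⟩
  · exact Nat.lt_succ_of_le (hB ⟨_, rfl⟩)
  · have h1 := hs ⟨f b, b, rfl⟩
    set b' := s ⟨f b, b, rfl⟩ with hb'
    have h2 : f b' = f b := h1
    have h3 := congrArg Prod.fst h2
    have h4 := congrArg Prod.snd h2
    constructor
    · intro v hv w hw
      have h5 := Set.ext_iff.1 h3 (⟨v, Finset.mem_range.1 hv⟩, ⟨w, Finset.mem_range.1 hw⟩)
      exact h5.symm
    · intro n m hn hd vs hm hvs _
      have hvs' : ∀ v ∈ vs, v < c + 1 := fun v hv => Finset.mem_range.1 (hvs v hv)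
      lift vs to List (Fin (c + 1)) using hvs'
      rw [List.length_map] at hm
      have h6 := hle n m hd
      have h5 := Set.ext_iff.1 h4 (⟨n, hn⟩, ⟨vs, by omega⟩)
      exact h5.symm

/-! ### tables -/

/-- entries of the certificates: code, assignment, truth value -/
abbrev Th_K_En := (ℕ × List ℕ) × Bool

/-- the entry `E` is justified by the entries in `T` and the oracle `σ` -/
def Th_K_J (e : ℕ × List ℕ → Bool) (σ : List ℕ) (T : List Th_K_En) (E : Th_K_En) : Prop :=
  (E.1.1.unpair.1 = 0 ∧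
    ((E.2 = true ∧ (E.1.1.unpair.2.unpair.1 =
        (Denumerable.ofNat (List ℕ) E.1.1.unpair.2.unpair.2).length ∧
      e (E.1.1.unpair.2.unpair.1,
        (Denumerable.ofNat (List ℕ) E.1.1.unpair.2.unpair.2).map (Th_K_as E.1.2)) = true)) ∨
    (E.2 = false ∧ (E.1.1.unpair.2.unpair.1 ≠
        (Denumerable.ofNat (List ℕ) E.1.1.unpair.2.unpair.2).length ∨
      e (E.1.1.unpair.2.unpair.1,
        (Denumerable.ofNat (List ℕ) E.1.1.unpair.2.unpair.2).map (Th_K_as E.1.2)) = false)))) ∨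
  ((E.1.1.unpair.1 = 1 ∧ E.2 = false) ∨
  ((E.1.1.unpair.1 = 2 ∧
    ((E.2 = true ∧ Th_K_as E.1.2 E.1.1.unpair.2.unpair.1 =
      Th_K_as E.1.2 E.1.1.unpair.2.unpair.2) ∨
    (E.2 = false ∧ Th_K_as E.1.2 E.1.1.unpair.2.unpair.1 ≠
      Th_K_as E.1.2 E.1.1.unpair.2.unpair.2))) ∨
  ((E.1.1.unpair.1 = 3 ∧ ((E.1.1.unpair.2, E.1.2), !E.2) ∈ T) ∨
  ((E.1.1.unpair.1 = 4 ∧
    ((E.2 = true ∧ (((E.1.1.unpair.2.unpair.1, E.1.2), true) ∈ T ∧
      ((E.1.1.unpair.2.unpair.2, E.1.2), true) ∈ T)) ∨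
    (E.2 = false ∧ (((E.1.1.unpair.2.unpair.1, E.1.2), false) ∈ T ∨
      ((E.1.1.unpair.2.unpair.2, E.1.2), false) ∈ T)))) ∨
  (5 ≤ E.1.1.unpair.1 ∧
    ((E.2 = true ∧
      ∃ a : ℕ, ((E.1.1.unpair.2, Th_K_up E.1.2 (E.1.1.unpair.1 - 5) a), true) ∈ T) ∨
    (E.2 = false ∧ ∃ g : ℕ,
      σ[encode ((E.1.1.unpair.2, E.1.2), (E.1.1.unpair.1 - 5, g))]? = some 0 ∧
      ∀ a < g, ((E.1.1.unpair.2, Th_K_up E.1.2 (E.1.1.unpair.1 - 5) a), false) ∈ T)))))))

theorem Th_K_J_re {e : ℕ × List ℕ → Bool} (he : Computable e) :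
    REPred fun q : (List ℕ × List Th_K_En) × Th_K_En => Th_K_J e q.1.1 q.1.2 q.2 := by
  unfold Th_K_J
  refine or (and (eq (by fun_prop) (by fun_prop)) (or
      (and (eq (by fun_prop) (by fun_prop)) (and (eq (by fun_prop) (by fun_prop))
        (eq (by fun_prop) (by fun_prop))))
      (and (eq (by fun_prop) (by fun_prop)) (or (ne (by fun_prop) (by fun_prop))
        (eq (by fun_prop) (by fun_prop))))))
    (or (and (eq (by fun_prop) (by fun_prop)) (eq (by fun_prop) (by fun_prop)))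
    (or (and (eq (by fun_prop) (by fun_prop)) (or
      (and (eq (by fun_prop) (by fun_prop)) (eq (by fun_prop) (by fun_prop)))
      (and (eq (by fun_prop) (by fun_prop)) (ne (by fun_prop) (by fun_prop)))))
    (or (and (eq (by fun_prop) (by fun_prop)) (mem_list (by fun_prop) (by fun_prop)))
    (or (and (eq (by fun_prop) (by fun_prop)) (or
      (and (eq (by fun_prop) (by fun_prop)) (and (mem_list (by fun_prop) (by fun_prop))
        (mem_list (by fun_prop) (by fun_prop))))
      (and (eq (by fun_prop) (by fun_prop)) (or (mem_list (by fun_prop) (by fun_prop))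
        (mem_list (by fun_prop) (by fun_prop))))))
    (and (le (by fun_prop) (by fun_prop)) (or
      (and (eq (by fun_prop) (by fun_prop)) ?_)
      (and (eq (by fun_prop) (by fun_prop)) ?_)))))))
  · refine ex (p := fun (q : (List ℕ × List Th_K_En) × Th_K_En) (a : ℕ) =>
      ((q.2.1.1.unpair.2, Th_K_up q.2.1.2 (q.2.1.1.unpair.1 - 5) a), true) ∈ q.1.2) ?_
    exact mem_list (by fun_prop) (by fun_prop)
  · refine ex (p := fun (q : (List ℕ × List Th_K_En) × Th_K_En) (g : ℕ) =>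
      q.1.1[encode ((q.2.1.1.unpair.2, q.2.1.2), (q.2.1.1.unpair.1 - 5, g))]? = some 0 ∧
      ∀ a < g, ((q.2.1.1.unpair.2, Th_K_up q.2.1.2 (q.2.1.1.unpair.1 - 5) a), false) ∈ q.1.2) ?_
    refine and (eq (by fun_prop) (by fun_prop)) ?_
    refine all_lt (p := fun (q : ((List ℕ × List Th_K_En) × Th_K_En) × ℕ) (a : ℕ) =>
      ((q.1.2.1.1.unpair.2, Th_K_up q.1.2.1.2 (q.1.2.1.1.unpair.1 - 5) a), false) ∈ q.1.1.2)
      ?_ (by fun_prop)
    exact mem_list (by fun_prop) (by fun_prop)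

section J
variable {e : ℕ × List ℕ → Bool} {σ : List ℕ} {T : List Th_K_En}

theorem Th_K_J0 (i : ℕ) (vs as : List ℕ) (v : Bool) :
    Th_K_J e σ T (((Fml.rel i vs).code, as), v) ↔
      (v = true ∧ (i = vs.length ∧ e (i, vs.map (Th_K_as as)) = true)) ∨
      (v = false ∧ (i ≠ vs.length ∨ e (i, vs.map (Th_K_as as)) = false)) := by
  unfold Th_K_J Fml.code
  simp only [Nat.unpair_pair, Denumerable.ofNat_encode]
  constructor
  · rintro (⟨_, h⟩ | ⟨h, _⟩ | ⟨h, _⟩ | ⟨h, _⟩ | ⟨h, _⟩ | ⟨h, _⟩)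
    · exact h
    all_goals omega
  · intro h
    exact Or.inl ⟨trivial, h⟩

theorem Th_K_J1 (i w : ℕ) (vs as : List ℕ) (v : Bool) :
    Th_K_J e σ T (((Fml.fn i vs w).code, as), v) ↔ v = false := by
  unfold Th_K_J Fml.code
  simp only [Nat.unpair_pair]
  constructor
  · rintro (⟨h, _⟩ | ⟨_, h⟩ | ⟨h, _⟩ | ⟨h, _⟩ | ⟨h, _⟩ | ⟨h, _⟩)
    · omega
    · exact h
    all_goals omega
  · intro h
    exact Or.inr (Or.inl ⟨trivial, h⟩)

theorem Th_K_J2 (u w : ℕ) (as : List ℕ) (v : Bool) :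
    Th_K_J e σ T (((Fml.eq u w).code, as), v) ↔
      (v = true ∧ Th_K_as as u = Th_K_as as w) ∨ (v = false ∧ Th_K_as as u ≠ Th_K_as as w) := by
  unfold Th_K_J Fml.code
  simp only [Nat.unpair_pair]
  constructor
  · rintro (⟨h, _⟩ | ⟨h, _⟩ | ⟨_, h⟩ | ⟨h, _⟩ | ⟨h, _⟩ | ⟨h, _⟩)
    · omega
    · omega
    · exact h
    all_goals omega
  · intro h
    exact Or.inr (Or.inr (Or.inl ⟨trivial, h⟩))

theorem Th_K_J3 (φ : Fml) (as : List ℕ) (v : Bool) :
    Th_K_J e σ T (((Fml.not φ).code, as), v) ↔ ((φ.code, as), !v) ∈ T := by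
  conv_lhs => unfold Th_K_J Fml.code
  simp only [Nat.unpair_pair]
  constructor
  · rintro (⟨h, _⟩ | ⟨h, _⟩ | ⟨h, _⟩ | ⟨_, h⟩ | ⟨h, _⟩ | ⟨h, _⟩)
    · omega
    · omega
    · omega
    · exact h
    all_goals omega
  · intro h
    exact Or.inr (Or.inr (Or.inr (Or.inl ⟨trivial, h⟩)))

theorem Th_K_J4 (φ ψ : Fml) (as : List ℕ) (v : Bool) :
    Th_K_J e σ T (((Fml.and φ ψ).code, as), v) ↔
      (v = true ∧ (((φ.code, as), true) ∈ T ∧ ((ψ.code, as), true) ∈ T)) ∨
      (v = false ∧ (((φ.code, as), false) ∈ T ∨ ((ψ.code, as), false) ∈ T)) := by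
  conv_lhs => unfold Th_K_J Fml.code
  simp only [Nat.unpair_pair]
  constructor
  · rintro (⟨h, _⟩ | ⟨h, _⟩ | ⟨h, _⟩ | ⟨h, _⟩ | ⟨_, h⟩ | ⟨h, _⟩)
    · omega
    · omega
    · omega
    · omega
    · exact h
    all_goals omega
  · intro h
    exact Or.inr (Or.inr (Or.inr (Or.inr (Or.inl ⟨trivial, h⟩))))

theorem Th_K_J5 (u : ℕ) (φ : Fml) (as : List ℕ) (v : Bool) :
    Th_K_J e σ T (((Fml.ex u φ).code, as), v) ↔
      (v = true ∧ ∃ a : ℕ, ((φ.code, Th_K_up as u a), true) ∈ T) ∨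
      (v = false ∧ ∃ g : ℕ, σ[encode ((φ.code, as), (u, g))]? = some 0 ∧
        ∀ a < g, ((φ.code, Th_K_up as u a), false) ∈ T) := by
  conv_lhs => unfold Th_K_J Fml.code
  simp only [Nat.unpair_pair, Nat.add_sub_cancel_left]
  constructor
  · rintro (⟨h, _⟩ | ⟨h, _⟩ | ⟨h, _⟩ | ⟨h, _⟩ | ⟨h, _⟩ | ⟨_, h⟩)
    · omega
    · omega
    · omega
    · omega
    · omega
    · exact h
  · intro h
    exact Or.inr (Or.inr (Or.inr (Or.inr (Or.inr ⟨by omega, h⟩))))

theorem Th_K_J_mono {σ' : List ℕ} {T' : List Th_K_En} {E : Th_K_En}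
    (hσ : ∀ k : ℕ, σ[k]? = some 0 → σ'[k]? = some 0) (hT : ∀ E ∈ T, E ∈ T') (h : Th_K_J e σ T E) :
    Th_K_J e σ' T' E := by
  unfold Th_K_J at h ⊢
  rcases h with h | h | h | ⟨h1, h2⟩ | ⟨h1, h2⟩ | ⟨h1, h2⟩
  · exact Or.inl h
  · exact Or.inr (Or.inl h)
  · exact Or.inr (Or.inr (Or.inl h))
  · exact Or.inr (Or.inr (Or.inr (Or.inl ⟨h1, hT _ h2⟩)))
  · refine Or.inr (Or.inr (Or.inr (Or.inr (Or.inl ⟨h1, ?_⟩))))
    rcases h2 with ⟨h3, h4, h5⟩ | ⟨h3, h4 | h4⟩
    · exact Or.inl ⟨h3, hT _ h4, hT _ h5⟩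
    · exact Or.inr ⟨h3, Or.inl (hT _ h4)⟩
    · exact Or.inr ⟨h3, Or.inr (hT _ h4)⟩
  · refine Or.inr (Or.inr (Or.inr (Or.inr (Or.inr ⟨h1, ?_⟩))))
    rcases h2 with ⟨h3, a, h4⟩ | ⟨h3, g, h4, h5⟩
    · exact Or.inl ⟨h3, a, hT _ h4⟩
    · exact Or.inr ⟨h3, g, hσ _ h4, fun a ha => hT _ (h5 a ha)⟩

end J

/-- a justified table -/
def Th_K_Tab (e : ℕ × List ℕ → Bool) (G : ℕ → ℕ) (n : ℕ) (T : List Th_K_En) : Prop :=
  ∀ E ∈ T, Th_K_J e (Pool.Agent.Helper743.pre G n) T E

theorem Th_K_pre_mono (G : ℕ → ℕ) {n m : ℕ} (h : n ≤ m) (k : ℕ)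
    (hk : (Pool.Agent.Helper743.pre G n)[k]? = some 0) :
    (Pool.Agent.Helper743.pre G m)[k]? = some 0 := by
  rw [Pool.Agent.Helper743.pre_getElem?] at hk ⊢
  by_cases h1 : k < n
  · rw [if_pos h1] at hk
    rw [if_pos (by omega)]
    exact hk
  · rw [if_neg h1] at hk
    exact absurd hk (by simp)

theorem Th_K_Tab_app {e : ℕ × List ℕ → Bool} {G : ℕ → ℕ} {n m : ℕ} {T T' : List Th_K_En}
    (h : Th_K_Tab e G n T) (h' : Th_K_Tab e G m T') : Th_K_Tab e G (max n m) (T ++ T') := by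
  intro E hE
  rcases List.mem_append.1 hE with hE | hE
  · exact Th_K_J_mono (Th_K_pre_mono G (le_max_left n m))
      (fun E hE => List.mem_append_left _ hE) (h E hE)
  · exact Th_K_J_mono (Th_K_pre_mono G (le_max_right n m))
      (fun E hE => List.mem_append_right _ hE) (h' E hE)

theorem Th_K_Tab_cons {e : ℕ × List ℕ → Bool} {G : ℕ → ℕ} {n m : ℕ} {T : List Th_K_En}
    {E : Th_K_En} (h : Th_K_Tab e G n T)
    (hE : Th_K_J e (Pool.Agent.Helper743.pre G m) T E) :
    Th_K_Tab e G (max n m) (E :: T) := by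
  intro F hF
  rcases List.mem_cons.1 hF with hF | hF
  · rw [hF]
    exact Th_K_J_mono (Th_K_pre_mono G (le_max_right n m))
      (fun E hE => List.mem_cons_of_mem _ hE) hE
  · exact Th_K_J_mono (Th_K_pre_mono G (le_max_left n m))
      (fun E hE => List.mem_cons_of_mem _ hE) (h F hF)

theorem Th_K_Tab_coll {e : ℕ × List ℕ → Bool} {G : ℕ → ℕ} (F : ℕ → Th_K_En) (g : ℕ)
    (h : ∀ a < g, ∃ n T, Th_K_Tab e G n T ∧ F a ∈ T) :
    ∃ n T, Th_K_Tab e G n T ∧ ∀ a < g, F a ∈ T := by
  induction g with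
  | zero => exact ⟨0, [], by intro E hE; simp at hE, by intro a ha; omega⟩
  | succ g ih =>
    obtain ⟨n, T, hT, hF⟩ := ih (fun a ha => h a (by omega))
    obtain ⟨m, T', hT', hF'⟩ := h g (by omega)
    refine ⟨max n m, T ++ T', Th_K_Tab_app hT hT', ?_⟩
    intro a ha
    rcases Nat.lt_succ_iff_lt_or_eq.1 ha with ha | ha
    · exact List.mem_append_left _ (hF a ha)
    · rw [ha]
      exact List.mem_append_right _ hF'

theorem Th_K_sound {d : ℕ → Option ℕ} {P : ℕ → List ℕ → Prop} {M : Str}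
    (qe : ∀ (φ : Fml) (N : ℕ) (V : Finset ℕ) (x y : ℕ → ℕ), PI d P P N V x y → symBd φ ≤ N →
      (∀ v, Free φ v → v ∈ V) → (Sat LL M φ x ↔ Sat LL M φ y))
    {e : ℕ × List ℕ → Bool}
    (heM : ∀ i xs, LL.rel i = some xs.length → (e (i, xs) = true ↔ M.R i xs))
    {G : ℕ → ℕ}
    (hG : ∀ (r : ℕ) (as : List ℕ) (u g : ℕ), G (encode ((r, as), (u, g))) = 0 ↔
        ∀ b, ∃ b' < g, PI d P P (r + 1) (Finset.range (r + 1))
          (Function.update (Th_K_as as) u b) (Function.update (Th_K_as as) u b'))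
    {n : ℕ} {T : List Th_K_En} (hT : Th_K_Tab e G n T) :
    ∀ (φ : Fml) (as : List ℕ) (v : Bool), ((φ.code, as), v) ∈ T →
      (v = true ↔ Sat LL M φ (Th_K_as as)) := by
  intro φ
  induction φ with
  | rel i vs =>
    intro as v h
    have hJ := (Th_K_J0 i vs as v).1 (hT _ h)
    have hS : Sat LL M (.rel i vs) (Th_K_as as) ↔
        i = vs.length ∧ e (i, vs.map (Th_K_as as)) = true := by
      constructor
      · rintro ⟨h1, h2⟩
        have h3 : i = vs.length := Option.some.inj h1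
        exact ⟨h3, (heM i _ (by simpa [LL] using h3)).2 h2⟩
      · rintro ⟨h3, h2⟩
        exact ⟨congrArg some h3, (heM i _ (by simpa [LL] using h3)).1 h2⟩
    rw [hS]
    rcases hJ with ⟨h1, h2⟩ | ⟨h1, h2⟩
    · exact ⟨fun _ => h2, fun _ => h1⟩
    · constructor
      · intro h3
        rw [h1] at h3
        exact absurd h3 (by simp)
      · rintro ⟨h3, h4⟩
        rcases h2 with h2 | h2
        · exact absurd h3 h2
        · rw [h2] at h4
          exact absurd h4 (by simp)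
  | fn i vs w =>
    intro as v h
    have hJ := (Th_K_J1 i w vs as v).1 (hT _ h)
    rw [hJ]
    constructor
    · intro h3
      exact absurd h3 (by simp)
    · rintro ⟨h3, -⟩
      exact absurd h3 (by simp [LL])
  | eq u w =>
    intro as v h
    have hJ := (Th_K_J2 u w as v).1 (hT _ h)
    show v = true ↔ Th_K_as as u = Th_K_as as w
    rcases hJ with ⟨h1, h2⟩ | ⟨h1, h2⟩
    · exact ⟨fun _ => h2, fun _ => h1⟩
    · rw [h1]
      exact ⟨fun h3 => absurd h3 (by simp), fun h3 => absurd h3 h2⟩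
  | not φ ih =>
    intro as v h
    have hJ := (Th_K_J3 φ as v).1 (hT _ h)
    have h1 := ih as _ hJ
    show v = true ↔ ¬ Sat LL M φ (Th_K_as as)
    rw [← h1]
    cases v <;> simp
  | and φ ψ ih1 ih2 =>
    intro as v h
    have hJ := (Th_K_J4 φ ψ as v).1 (hT _ h)
    show v = true ↔ Sat LL M φ (Th_K_as as) ∧ Sat LL M ψ (Th_K_as as)
    rcases hJ with ⟨h1, h2, h3⟩ | ⟨h1, h2 | h2⟩
    · exact ⟨fun _ => ⟨(ih1 as _ h2).1 rfl, (ih2 as _ h3).1 rfl⟩, fun _ => h1⟩
    · rw [h1]
      exact ⟨fun h3 => absurd h3 (by simp), fun h3 => (ih1 as _ h2).2 h3.1⟩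
    · rw [h1]
      exact ⟨fun h3 => absurd h3 (by simp), fun h3 => (ih2 as _ h2).2 h3.2⟩
  | ex u φ ih =>
    intro as v h
    have hJ := (Th_K_J5 u φ as v).1 (hT _ h)
    show v = true ↔ ∃ a, Sat LL M φ (Function.update (Th_K_as as) u a)
    rcases hJ with ⟨h1, a, h2⟩ | ⟨h1, g, h2, h3⟩
    · refine ⟨fun _ => ⟨a, ?_⟩, fun _ => h1⟩
      have h4 := (ih _ _ h2).1 rfl
      rw [Th_K_as_up] at h4
      exact h4
    · rw [h1]
      refine ⟨fun h3 => absurd h3 (by simp), ?_⟩
      rintro ⟨b, hb⟩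
      have h4 : G (encode ((φ.code, as), (u, g))) = 0 := by
        rw [Pool.Agent.Helper743.pre_getElem?] at h2
        by_cases h5 : encode ((φ.code, as), (u, g)) < n
        · rw [if_pos h5] at h2
          exact Option.some.inj h2
        · rw [if_neg h5] at h2
          exact absurd h2 (by simp)
      obtain ⟨b', hb', hPI⟩ := (hG _ _ _ _).1 h4 b
      have h5 := (qe φ (φ.code + 1) (Finset.range (φ.code + 1)) _ _ hPI (Th_K_symBd_le φ)
        (fun v hv => Finset.mem_range.2 (Nat.lt_succ_of_le (Th_K_free_le φ v hv)))).1 hb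
      have h6 := ih _ _ (h3 b' hb')
      rw [Th_K_as_up] at h6
      exact h6.2 h5

theorem Th_K_complete {d : ℕ → Option ℕ} {P : ℕ → List ℕ → Prop} {M : Str}
    (hle : ∀ n m, d n = some m → m ≤ n)
    {e : ℕ × List ℕ → Bool}
    (heM : ∀ i xs, LL.rel i = some xs.length → (e (i, xs) = true ↔ M.R i xs))
    {G : ℕ → ℕ}
    (hG : ∀ (r : ℕ) (as : List ℕ) (u g : ℕ), G (encode ((r, as), (u, g))) = 0 ↔
        ∀ b, ∃ b' < g, PI d P P (r + 1) (Finset.range (r + 1))
          (Function.update (Th_K_as as) u b) (Function.update (Th_K_as as) u b')) :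
    ∀ (φ : Fml) (as : List ℕ) (v : Bool), (v = true ↔ Sat LL M φ (Th_K_as as)) →
      ∃ n T, Th_K_Tab e G n T ∧ ((φ.code, as), v) ∈ T := by
  have h0 : Th_K_Tab e G 0 [] := by intro E hE; simp at hE
  intro φ
  induction φ with
  | rel i vs =>
    intro as v h
    refine ⟨_, _, Th_K_Tab_cons (m := 0) h0 ((Th_K_J0 i vs as v).2 ?_), List.mem_cons_self⟩
    have hS : Sat LL M (.rel i vs) (Th_K_as as) ↔
        i = vs.length ∧ e (i, vs.map (Th_K_as as)) = true := by
      constructor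
      · rintro ⟨h1, h2⟩
        have h3 : i = vs.length := Option.some.inj h1
        exact ⟨h3, (heM i _ (by simpa [LL] using h3)).2 h2⟩
      · rintro ⟨h3, h2⟩
        exact ⟨congrArg some h3, (heM i _ (by simpa [LL] using h3)).1 h2⟩
    rw [hS] at h
    by_cases h1 : v = true
    · exact Or.inl ⟨h1, h.1 h1⟩
    · refine Or.inr ⟨by simpa using h1, ?_⟩
      by_contra h2
      rw [not_or, not_not] at h2
      exact h1 (h.2 ⟨h2.1, by simpa using h2.2⟩)
  | fn i vs w =>
    intro as v h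
    refine ⟨_, _, Th_K_Tab_cons (m := 0) h0 ((Th_K_J1 i w vs as v).2 ?_), List.mem_cons_self⟩
    by_contra h1
    have h2 := h.1 (by simpa using h1)
    exact absurd h2.1 (by simp [LL])
  | eq u w =>
    intro as v h
    refine ⟨_, _, Th_K_Tab_cons (m := 0) h0 ((Th_K_J2 u w as v).2 ?_), List.mem_cons_self⟩
    by_cases h1 : v = true
    · exact Or.inl ⟨h1, h.1 h1⟩
    · exact Or.inr ⟨by simpa using h1, fun h2 => h1 (h.2 h2)⟩
  | not φ ih =>
    intro as v h
    have h1 : (!v) = true ↔ Sat LL M φ (Th_K_as as) := by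
      have h2 : v = true ↔ ¬ Sat LL M φ (Th_K_as as) := h
      cases v
      · simp at h2 ⊢
        exact h2
      · simp at h2 ⊢
        exact h2
    obtain ⟨n, T, hT, hm⟩ := ih as (!v) h1
    exact ⟨_, _, Th_K_Tab_cons (m := 0) hT ((Th_K_J3 φ as v).2 hm), List.mem_cons_self⟩
  | and φ ψ ih1 ih2 =>
    intro as v h
    have h : v = true ↔ Sat LL M φ (Th_K_as as) ∧ Sat LL M ψ (Th_K_as as) := h
    by_cases hv : v = true
    · obtain ⟨n, T, hT, hm⟩ := ih1 as true (by simpa using (h.1 hv).1)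
      obtain ⟨n', T', hT', hm'⟩ := ih2 as true (by simpa using (h.1 hv).2)
      exact ⟨_, _, Th_K_Tab_cons (m := 0) (Th_K_Tab_app hT hT') ((Th_K_J4 φ ψ as v).2
        (Or.inl ⟨hv, List.mem_append_left _ hm, List.mem_append_right _ hm'⟩)),
        List.mem_cons_self⟩
    · have hv' : v = false := by simpa using hv
      have h3 : ¬ Sat LL M φ (Th_K_as as) ∨ ¬ Sat LL M ψ (Th_K_as as) := by
        rw [← not_and_or]
        exact fun h4 => hv (h.2 h4)
      rcases h3 with h3 | h3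
      · obtain ⟨n, T, hT, hm⟩ := ih1 as false (by simpa using h3)
        exact ⟨_, _, Th_K_Tab_cons (m := 0) hT ((Th_K_J4 φ ψ as v).2
          (Or.inr ⟨hv', Or.inl hm⟩)), List.mem_cons_self⟩
      · obtain ⟨n, T, hT, hm⟩ := ih2 as false (by simpa using h3)
        exact ⟨_, _, Th_K_Tab_cons (m := 0) hT ((Th_K_J4 φ ψ as v).2
          (Or.inr ⟨hv', Or.inr hm⟩)), List.mem_cons_self⟩
  | ex u φ ih =>
    intro as v h
    have h : v = true ↔ ∃ a, Sat LL M φ (Function.update (Th_K_as as) u a) := h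
    by_cases hv : v = true
    · obtain ⟨a, ha⟩ := h.1 hv
      rw [← Th_K_as_up] at ha
      obtain ⟨n, T, hT, hm⟩ := ih (Th_K_up as u a) true (by simpa using ha)
      exact ⟨_, _, Th_K_Tab_cons (m := 0) hT ((Th_K_J5 u φ as v).2
        (Or.inl ⟨hv, a, hm⟩)), List.mem_cons_self⟩
    · have hv' : v = false := by simpa using hv
      have h3 : ∀ a, ¬ Sat LL M φ (Function.update (Th_K_as as) u a) :=
        fun a ha => hv (h.2 ⟨a, ha⟩)
      obtain ⟨g, hg⟩ := Th_K_g_ex d P hle φ.code (Th_K_as as) u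
      have hG0 := (hG φ.code as u g).2 hg
      obtain ⟨n, T, hT, hm⟩ := Th_K_Tab_coll (e := e) (G := G)
        (fun a => ((φ.code, Th_K_up as u a), false)) g (by
          intro a _
          refine ih (Th_K_up as u a) false ?_
          rw [Th_K_as_up]
          simpa using h3 a)
      refine ⟨_, _, Th_K_Tab_cons (m := encode ((φ.code, as), (u, g)) + 1) hT
        ((Th_K_J5 u φ as v).2 (Or.inr ⟨hv', g, ?_, hm⟩)), List.mem_cons_self⟩
      rw [Pool.Agent.Helper743.pre_getElem?, if_pos (Nat.lt_succ_self _), hG0]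

theorem Th_K (d : ℕ → Option ℕ) (P : ℕ → List ℕ → Prop) (M : Str) (hM : IsGen d P M)
    (hc : IsComputableStr LL M) (hd : TLe (fun n => encode (d n)) (chi K))
    (qe : ∀ (φ : Fml) (N : ℕ) (V : Finset ℕ) (x y : ℕ → ℕ), PI d P P N V x y → symBd φ ≤ N →
      (∀ v, Free φ v → v ∈ V) → (Sat LL M φ x ↔ Sat LL M φ y)) :
    TLe (chi (codes (Th LL M))) (chi K) := by
  classical
  obtain ⟨⟨e, he, heM⟩, -⟩ := hc
  obtain ⟨G, hGr, hG⟩ := Th_K_G hM he heM hd
  obtain ⟨s, hs, hsS⟩ := Th_K_sent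
  have hx0 : Th_K_as [] = fun _ => 0 := rfl
  have hmem : ∀ φ : Fml, φ.code ∈ codes (Th LL M) ↔ (IsSent φ ∧ Sat LL M φ fun _ => 0) := by
    intro φ
    constructor
    · rintro ⟨ψ, h1, h2⟩
      rw [FO.code_inj _ _ h2] at h1
      exact h1
    · intro h
      exact ⟨φ, h, rfl⟩
  refine Pool.Agent.Helper743.TR_iff.1 ?_
  refine Th_K_cert hGr (fun σ z y => (s z = false ∧ y = 0) ∨ (s z = true ∧ ∃ T : List Th_K_En,
    (∀ E ∈ T, Th_K_J e σ T E) ∧ ((y = 1 ∧ ((z, []), true) ∈ T) ∨
      (y = 0 ∧ ((z, []), false) ∈ T)))) ?_ _ ?_ ?_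
  · refine or (and (eq (by fun_prop) (by fun_prop)) (eq (by fun_prop) (by fun_prop)))
      (and (eq (by fun_prop) (by fun_prop)) ?_)
    refine ex (p := fun (q : (List ℕ × ℕ) × ℕ) (T : List Th_K_En) =>
      (∀ E ∈ T, Th_K_J e q.1.1 T E) ∧ ((q.2 = 1 ∧ ((q.1.2, []), true) ∈ T) ∨
      (q.2 = 0 ∧ ((q.1.2, []), false) ∈ T))) ?_
    refine and ?_ (or (and (eq (by fun_prop) (by fun_prop)) (mem_list (by fun_prop)
      (by fun_prop))) (and (eq (by fun_prop) (by fun_prop)) (mem_list (by fun_prop)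
      (by fun_prop))))
    refine all_mem (p := fun (q : ((List ℕ × ℕ) × ℕ) × List Th_K_En) (E : Th_K_En) =>
      Th_K_J e q.1.1.1 q.2 E) ?_ (by fun_prop)
    exact Pool.Agent.Helper446.RE.comp (Th_K_J_re he)
      (f := fun q : (((List ℕ × ℕ) × ℕ) × List Th_K_En) × Th_K_En =>
        ((q.1.1.1.1, q.1.2), q.2)) (by fun_prop)
  · intro z
    obtain ⟨φ, rfl⟩ := FO.code_surj z
    by_cases hsz : IsSent φ
    · by_cases hS : Sat LL M φ fun _ => 0
      · obtain ⟨n, T, hT, hm⟩ := Th_K_complete (fun n m h => (hM.le n m h).2) heM hG φ [] true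
          (by rw [hx0]; simpa using hS)
        refine ⟨n, Or.inr ⟨(hsS φ).2 hsz, T, hT, Or.inl ⟨?_, hm⟩⟩⟩
        unfold chi
        rw [if_pos ((hmem φ).2 ⟨hsz, hS⟩)]
      · obtain ⟨n, T, hT, hm⟩ := Th_K_complete (fun n m h => (hM.le n m h).2) heM hG φ [] false
          (by rw [hx0]; simpa using hS)
        refine ⟨n, Or.inr ⟨(hsS φ).2 hsz, T, hT, Or.inr ⟨?_, hm⟩⟩⟩
        unfold chi
        rw [if_neg (fun h => hS ((hmem φ).1 h).2)]
    · refine ⟨0, Or.inl ⟨?_, ?_⟩⟩
      · by_contra h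
        rw [Bool.not_eq_false] at h
        exact hsz ((hsS φ).1 h)
      · unfold chi
        rw [if_neg (fun h => hsz ((hmem φ).1 h).1)]
  · intro z n y h
    obtain ⟨φ, rfl⟩ := FO.code_surj z
    rcases h with ⟨h1, h2⟩ | ⟨h1, T, hT, ⟨h2, h3⟩ | ⟨h2, h3⟩⟩
    · have hsz : ¬ IsSent φ := by
        intro h
        rw [(hsS φ).2 h] at h1
        exact absurd h1 (by simp)
      unfold chi
      rw [if_neg (fun h => hsz ((hmem φ).1 h).1)]
      exact h2
    · have h4 := (Th_K_sound qe heM hG hT φ [] true h3).1 rfl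
      unfold chi
      rw [if_pos ((hmem φ).2 ⟨(hsS φ).1 h1, h4⟩)]
      exact h2
    · have h4 := Th_K_sound qe heM hG hT φ [] false h3
      unfold chi
      rw [if_neg (fun h => by
        have h5 := h4.2 ((hmem φ).1 h).2
        exact absurd h5 (by simp))]
      exact h2

end Pool.Agent.Helper750.CT
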