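import Pool.Agent.Helper750.CT.Defs

set_option autoImplicit false

/-! Basic properties of the tree construction. -/

namespace Pool.Agent.Helper750.CT

open Pool.Agent.Helper750.DC Pool.Agent.Helper446.RE Encodable Nat.Partrec

/-! ### paths -/

theorem vis_iff {δ ρ : List ℕ} : vis δ ρ = true ↔ ρ.length < δ.length ∧ δ.take ρ.length = ρ := by
  simp [vis]

theorem lft_iff {δ ρ : List ℕ} : lft δ ρ = true ↔ ∃ i, i < ρ.length ∧ i < δ.length ∧
    δ.take i = ρ.take i ∧ δ.getD i 0 < ρ.getD i 0 := by
  unfold lft
  rw [exB_iff]
  simp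

variable (ev : ℕ → ℕ → Bool)

theorem H_len (s : ℕ) : (H ev s).length = s := by
  induction s with
  | zero => rfl
  | succ s ih => simp [H, ih]

theorem H_get {s t : ℕ} (h : s < t) : (H ev t)[s]? = some (recs ev (H ev s) s s) := by
  induction t with
  | zero => omega
  | succ t ih =>
    simp only [H]
    rcases Nat.lt_or_ge s t with h1 | h1
    · rw [List.getElem?_append_left (by rw [H_len]; exact h1)]
      exact ih h1
    · obtain rfl : s = t := by omega
      rw [List.getElem?_append_right (by rw [H_len]), H_len]
      simp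

theorem recs_len (h : Hist) (s j : ℕ) : (recs ev h s j).length = j := by
  induction j with
  | zero => rfl
  | succ j ih => simp [recs, ih]

/-- the path at stage `s` -/
def path (s : ℕ) : List ℕ := (recs ev (H ev s) s s).map Prod.fst

theorem path_len (s : ℕ) : (path ev s).length = s := by simp [path, recs_len]

theorem outs_H {s t : ℕ} (h : s < t) : outs (H ev t) s = path ev s := by
  simp [outs, H_get ev h, path]

theorem lk_H {u s t : ℕ} (hs : u ≤ s) (ht : u ≤ t) (ρ : List ℕ) :
    lk (H ev s) ρ u = lk (H ev t) ρ u := by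
  induction u with
  | zero => rfl
  | succ u ih =>
    simp only [lk]
    rw [outs_H ev (by omega : u < s), outs_H ev (by omega : u < t), H_get ev (by omega : u < s),
      H_get ev (by omega : u < t), ih (by omega) (by omega)]

/-- the memory of the node `ρ` before stage `s` -/
def mem (s : ℕ) (ρ : List ℕ) : V := lk (H ev s) ρ s

theorem lk_mem {u s : ℕ} (hs : u ≤ s) (ρ : List ℕ) : lk (H ev s) ρ u = mem ev u ρ :=
  lk_H ev hs le_rfl ρ

/-- the action of the node `ρ` at stage `s` -/
def act (s : ℕ) (ρ : List ℕ) : ℕ × V := stepn ev (H ev s) s ρ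

theorem recs_get (h : Hist) (s : ℕ) {i j : ℕ} (hij : i < j) :
    (recs ev h s j)[i]? = some (stepn ev h s ((recs ev h s i).map Prod.fst)) ∧
      (recs ev h s j).take i = recs ev h s i := by
  induction j with
  | zero => omega
  | succ j ih =>
    simp only [recs]
    rcases Nat.lt_or_ge i j with h1 | h1
    · obtain ⟨h2, h3⟩ := ih h1
      rw [List.getElem?_append_left (by rw [recs_len]; exact h1), h2,
        List.take_append_of_le_length (by rw [recs_len]; omega), h3]
      exact ⟨rfl, rfl⟩
    · obtain rfl : i = j := by omega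
      rw [List.getElem?_append_right (by rw [recs_len]), recs_len,
        List.take_append_of_le_length (by rw [recs_len])]
      refine ⟨by simp, ?_⟩
      rw [List.take_of_length_le (by rw [recs_len])]

theorem recs_path {s i : ℕ} (hi : i < s) :
    (recs ev (H ev s) s s)[i]? = some (act ev s ((path ev s).take i)) := by
  obtain ⟨h1, h2⟩ := recs_get ev (H ev s) s hi
  rw [h1]
  unfold act path
  rw [← List.map_take, h2]

theorem path_get {s i : ℕ} (hi : i < s) : (path ev s).getD i 0 = (act ev s ((path ev s).take i)).1 := by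
  unfold path
  rw [List.getD_eq_getElem?_getD, List.getElem?_map, recs_path ev hi]
  rfl

theorem mem_succ (s : ℕ) (ρ : List ℕ) : mem ev (s + 1) ρ =
    if vis (path ev s) ρ = true then (act ev s ρ).2
    else if lft (path ev s) ρ = true then dflt else mem ev s ρ := by
  unfold mem
  rw [lk, outs_H ev (Nat.lt_succ_self s), H_get ev (Nat.lt_succ_self s),
    lk_H ev (Nat.le_succ s) le_rfl]
  by_cases h1 : vis (path ev s) ρ = true
  · rw [h1, cond_true, if_pos rfl]
    rw [vis_iff, path_len] at h1
    rw [Option.getD_some, recs_path ev h1.1, h1.2]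
    rfl
  · rw [if_neg h1]
    rw [Bool.not_eq_true] at h1
    rw [h1, cond_false]
    by_cases h2 : lft (path ev s) ρ = true
    · rw [h2, cond_true, if_pos rfl]
    · rw [if_neg h2]
      rw [Bool.not_eq_true] at h2
      rw [h2, cond_false]

theorem mem_zero (ρ : List ℕ) : mem ev 0 ρ = dflt := rfl

theorem out_eq {s : ℕ} {ρ : List ℕ} (h : vis (path ev s) ρ = true) :
    (path ev s).getD ρ.length 0 = (act ev s ρ).1 := by
  rw [vis_iff, path_len] at h
  rw [path_get ev h.1, h.2]

/-- description of the state function -/
theorem pp_iff (n u : ℕ) : pp ev n u = true ↔ n ≠ 0 ∧ (own n).length % 2 = 1 ∧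
    sl (mem ev u (own n)) = n ∧ (mem ev u (own n)).1.2 = 1 ∧
    cnt ev ((own n).length / 2) u = (mem ev u (own n)).1.1 := by
  unfold pp ph mem
  simp

theorem ph_H {s u : ℕ} (h : u ≤ s) (n : ℕ) : ph ev (H ev s) n u = pp ev n u := by
  unfold pp ph
  rw [lk_H ev h le_rfl]

/-! ### relations between nodes -/

theorem vis_prefix {δ ρ : List ℕ} (h : vis δ ρ = true) (i : ℕ) (hi : i ≤ ρ.length) :
    vis δ (ρ.take i) = true := by
  rw [vis_iff] at *
  rw [List.length_take, min_eq_left hi]
  refine ⟨by omega, ?_⟩
  rw [← h.2, List.take_take, min_eq_left hi]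

/-- a node visited by a path, and its extension by one outcome -/
theorem vis_getD {δ ρ : List ℕ} (h : vis δ ρ = true) {i : ℕ} (hi : i < ρ.length) :
    ρ.getD i 0 = δ.getD i 0 := by
  rw [vis_iff] at h
  conv_lhs => rw [← h.2]
  simp [List.getD_eq_getElem?_getD, List.getElem?_take, hi]

/-- Comparison of two nodes with respect to a path through `ρ`. -/
theorem lft_of_vis {δ ρ η : List ℕ} (h : vis δ ρ = true) (hl : ∃ i, i < η.length ∧ i < ρ.length ∧
    ρ.take i = η.take i ∧ ρ.getD i 0 < η.getD i 0) : lft δ η = true := by
  obtain ⟨i, h1, h2, h3, h4⟩ := hl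
  rw [lft_iff]
  have h5 := h
  rw [vis_iff] at h
  refine ⟨i, h1, by omega, ?_, ?_⟩
  · rw [← h3, ← h.2, List.take_take, min_eq_left h2.le]
  · rw [← vis_getD h5 h2]
    exact h4

/-- If the path passes through `ρ` with an outcome smaller than that of `η` then it is to the left
of `η`. -/
theorem lft_of_out {δ η : List ℕ} {i : ℕ} (hi : i < η.length) (h : vis δ (η.take i) = true)
    (ho : δ.getD i 0 < η.getD i 0) : lft δ η = true := by
  rw [vis_iff, List.length_take, min_eq_left hi.le] at h
  rw [lft_iff]
  exact ⟨i, hi, h.1, h.2, ho⟩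

/-- Two different nodes are comparable or one is to the left of the other. -/
theorem node_cases (ρ η : List ℕ) : (ρ.length ≤ η.length ∧ η.take ρ.length = ρ) ∨
    (η.length ≤ ρ.length ∧ ρ.take η.length = η) ∨
    ∃ i, i < η.length ∧ i < ρ.length ∧ ρ.take i = η.take i ∧ ρ.getD i 0 ≠ η.getD i 0 := by
  induction ρ generalizing η with
  | nil => left; simp
  | cons a ρ ih =>
    cases η with
    | nil => right; left; simp
    | cons b η =>
      by_cases hab : a = b
      · subst hab
        rcases ih η with h | h | ⟨i, h1, h2, h3, h4⟩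
        · left; simpa using h
        · right; left; simpa using h
        · right; right
          exact ⟨i + 1, by simpa using h1, by simpa using h2, by simpa using h3, by simpa using h4⟩
      · right; right
        exact ⟨0, by simp, by simp, by simp, by simpa using hab⟩

end Pool.Agent.Helper750.CT
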